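import Pool.Agent.LibOM21.G1
import Pool.Agent.LibBGM20.D4
import Pool.Agent.LibBGM20.A6

/-! ROW G3 : the squares stay good for all metrics `YY`. -/

open MeasureTheory Set Filter Topology
open scoped ContDiff unitInterval

namespace OM21

open BGS BR BE B35

variable {Γ : Type} [Group Γ] [MulAction Γ Pl] {D : Set Pl} {P : Dt}

private theorem OM_G3_mx (hP : Okc Γ D P) :
    BGM.mx Γ P.m P.ψ P.L P.c (fun _ => 0) = P.m := by
  funext z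
  unfold BGM.mx BGM.cf BGM.ex BGM.ps
  rw [hP.psi]
  have h : ∀ R : ℕ, P.c R * BGM.psR Γ P.L (fun _ => (0 : I)) R z = 0 := by
    intro R
    have h1 : BGM.psR Γ P.L (fun _ => (0 : I)) R z = 0 := by
      unfold BGM.psR
      apply Finset.sum_eq_zero
      intro p _
      simp
    rw [h1, mul_zero]
  simp only [h, tsum_zero, add_zero, Real.exp_zero, one_smul]

/-- Nearby points are near in the plane. -/
private theorem OM_G3_loc (hP : Okc Γ D P) : ∃ C : ℝ, 1 ≤ C ∧ ∀ z w : Pl, ‖z‖ ≤ (P.L : ℝ) + 1 →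
    BGM.ds P.m z w ≤ 1 / C → ‖w - z‖ ≤ C * BGM.ds P.m z w := by
  obtain ⟨C, hC, h⟩ := BGM.D2_stay hP.cx
  obtain ⟨k, hH⟩ := GD.gd_had hP.cx.hX hP.hm
  refine ⟨C, hC, fun z w hz hd => ?_⟩
  have hd0 : 0 ≤ BGM.ds P.m z w := BGM.ds_nonneg _ _ _
  rcases hd0.eq_or_lt with h0 | h0
  · have h1 : z = w := (BGM.ds_eq_zero hH).1 h0.symm
    rw [← h1, sub_self, norm_zero]
    exact mul_nonneg (by linarith) (BGM.ds_nonneg _ _ _)
  · set d := BGM.ds P.m z w with hdd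
    have hv : eu (Vx P.m z w) = d := (BGM.ds_eq hH z w).symm
    have hu : eu (d⁻¹ • Vx P.m z w) = 1 := by
      have h1 : eu (d⁻¹ • Vx P.m z w) = |d⁻¹| * eu (Vx P.m z w) := BGM.eu_smul _ _
      rw [h1, hv, abs_of_pos (inv_pos.2 h0), inv_mul_cancel₀ h0.ne']
    have hL := BGM.line_E hH (x := z) hu
    obtain ⟨hs, hn⟩ := BGM.A6_smooth hH hL
    have e0 : Ex P.m z ((0 : ℝ) • (d⁻¹ • Vx P.m z w)) = z := by rw [zero_smul]; exact hH.E0 z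
    have e1 : Ex P.m z (d • (d⁻¹ • Vx P.m z w)) = w := by
      rw [smul_smul, mul_inv_cancel₀ h0.ne', one_smul]
      exact hH.EV z w
    have h2 := h (fun _ => 0) (fun t : ℝ => Ex P.m z (t • (d⁻¹ • Vx P.m z w)))
      (hs.of_le (by exact_mod_cast le_top)) (by rw [OM_G3_mx hP]; exact hn)
      (by rw [e0]; exact hz) d hd0 hd
    simp only [e0, e1] at h2
    exact h2

private theorem OM_G3_sq {R : ℕ} {p : ℤ × ℤ} {r s : ℝ} {z w : Pl} (h : Sq R p r z)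
    (hzw : ((R : ℝ) + 1) * ‖w - z‖ ≤ s - r) : Sq R p s w := by
  have hR : (0 : ℝ) < (R : ℝ) + 1 := by positivity
  have h1 : |(w - z).1| ≤ ‖w - z‖ := norm_fst_le (w - z)
  have h2 : |(w - z).2| ≤ ‖w - z‖ := norm_snd_le (w - z)
  constructor
  · have e : ((R : ℝ) + 1) * w.1 - p.1 = (((R : ℝ) + 1) * z.1 - p.1) + ((R : ℝ) + 1) * (w - z).1 := by
      rw [Prod.fst_sub]; ring
    rw [e]
    refine (abs_add_le _ _).trans ?_
    rw [abs_mul, abs_of_pos hR]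
    have := mul_le_mul_of_nonneg_left h1 hR.le
    linarith [h.1]
  · have e : ((R : ℝ) + 1) * w.2 - p.2 = (((R : ℝ) + 1) * z.2 - p.2) + ((R : ℝ) + 1) * (w - z).2 := by
      rw [Prod.snd_sub]; ring
    rw [e]
    refine (abs_add_le _ _).trans ?_
    rw [abs_mul, abs_of_pos hR]
    have := mul_le_mul_of_nonneg_left h2 hR.le
    linarith [h.2]

private theorem OM_G3_bd {L R : ℕ} {p : ℤ × ℤ} (hp : p ∈ grid L (R + 1)) (hR : 1 ≤ R) {r : ℝ}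
    (hr : r ≤ 2) {z : Pl} (h : Sq R p r z) : ‖z‖ ≤ (L : ℝ) + 1 := by
  have hR' : (1 : ℝ) ≤ R := by exact_mod_cast hR
  have hp' : (|(p.1 : ℝ)| ≤ L * (R + 1)) ∧ (|(p.2 : ℝ)| ≤ L * (R + 1)) := by
    unfold grid at hp
    rw [Finset.mem_product, Finset.mem_Ico, Finset.mem_Ico] at hp
    obtain ⟨⟨h1, h2⟩, ⟨h3, h4⟩⟩ := hp
    rw [abs_le, abs_le]
    refine ⟨⟨?_, ?_⟩, ⟨?_, ?_⟩⟩
    · have : (-((L : ℝ) * ((R : ℝ) + 1)) : ℝ) ≤ (p.1 : ℝ) := by exact_mod_cast h1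
      exact this
    · have : (p.1 : ℝ) < (L : ℝ) * ((R : ℝ) + 1) := by exact_mod_cast h2
      exact this.le
    · have : (-((L : ℝ) * ((R : ℝ) + 1)) : ℝ) ≤ (p.2 : ℝ) := by exact_mod_cast h3
      exact this
    · have : (p.2 : ℝ) < (L : ℝ) * ((R : ℝ) + 1) := by exact_mod_cast h4
      exact this.le
  have key : ∀ x q : ℝ, |q| ≤ L * (R + 1) → |((R : ℝ) + 1) * x - q| ≤ r → |x| ≤ (L : ℝ) + 1 := by
    intro x q hq hx
    have h1 : |((R : ℝ) + 1) * x| ≤ L * (R + 1) + 2 := by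
      calc |((R : ℝ) + 1) * x| = |(((R : ℝ) + 1) * x - q) + q| := by rw [sub_add_cancel]
        _ ≤ |((R : ℝ) + 1) * x - q| + |q| := abs_add_le _ _
        _ ≤ _ := by linarith
    rw [abs_mul, abs_of_pos (by linarith : (0 : ℝ) < (R : ℝ) + 1)] at h1
    have h2 : ((R : ℝ) + 1) * |x| ≤ ((R : ℝ) + 1) * ((L : ℝ) + 1) := by linarith
    exact le_of_mul_le_mul_left h2 (by linarith)
  rw [Prod.norm_def]
  exact max_le (key _ _ hp'.1 h.1) (key _ _ hp'.2 h.2)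

theorem sq_stable (hP : Okc Γ D P) : ∃ (C : ℝ) (n k0 : ℕ), 1 ≤ C ∧ ∀ R ≥ k0, ∀ T : ℝ, 0 ≤ T →
    C * (1 + T) ^ n * √(P.c R) * (R + 1) ≤ 1 → ∀ p ∈ grid P.L (R + 1), ∀ g : Γ, g ≠ 1 →
    BGM.tl P.m g ≤ T → ∀ η : Dir → I,
    (Avoid Γ P.m g R p (5 / 2) → Avoid Γ (YY P Γ R η) g R p 2) ∧
    ((∃ z, Sq R p (1 / 2) z ∧ Min P.m g z) → ∃ z, Sq R p (3 / 4) z ∧ Min (YY P Γ R η) g z) := by
  obtain ⟨C0, n0, k0, hC0, hax⟩ := ax_near hP
  obtain ⟨C1, hC1, hloc⟩ := OM_G3_loc hP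
  refine ⟨4 * C1 * C0, n0, max k0 1, by nlinarith, fun R hR T hT hc p hp g hg hgT η => ?_⟩
  have hRk : k0 ≤ R := (le_max_left _ _).trans hR
  have hR1 : 1 ≤ R := (le_max_right _ _).trans hR
  have hRr : (1 : ℝ) ≤ R := by exact_mod_cast hR1
  set ε := C0 * (1 + T) ^ n0 * √(P.c R) with hε
  have hε0 : 0 ≤ ε := by rw [hε]; positivity
  have h1 : 4 * C1 * (((R : ℝ) + 1) * ε) ≤ 1 := by
    calc 4 * C1 * (((R : ℝ) + 1) * ε) = 4 * C1 * C0 * (1 + T) ^ n0 * √(P.c R) * (R + 1) := by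
          rw [hε]; ring
      _ ≤ 1 := hc
  have h2 : ε ≤ ((R : ℝ) + 1) * ε := by nlinarith
  have h3 : 0 ≤ ((R : ℝ) + 1) * ε := by positivity
  have h4 : 4 * C1 * ε ≤ 1 := by nlinarith
  have h5 : ε ≤ 1 / C1 := by
    rw [le_div_iff₀ (by linarith)]
    nlinarith
  have h6 : ε ≤ 1 := by nlinarith
  obtain ⟨ha, hb⟩ := hax R hRk η g hg T hgT h6
  have hmove : ∀ z w : Pl, ‖z‖ ≤ (P.L : ℝ) + 1 → BGM.ds P.m z w ≤ ε →
      ((R : ℝ) + 1) * ‖w - z‖ ≤ 1 / 4 := by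
    intro z w hz hd
    have h7 := hloc z w hz (hd.trans h5)
    have h8 : ‖w - z‖ ≤ C1 * ε := h7.trans (mul_le_mul_of_nonneg_left hd (by linarith))
    have h9 := mul_le_mul_of_nonneg_left h8 (by linarith : (0 : ℝ) ≤ (R : ℝ) + 1)
    linarith
  refine ⟨fun hA z hz γ hs => ?_, ?_⟩
  · obtain ⟨z', hz', hd⟩ := ha z hz
    have hd' : BGM.ds P.m (γ • z) (γ • z') ≤ ε := by
      rw [BGM.B1_ds hP.cx.hX (GD.gd_iv hP.hm)]
      exact hd
    have hb1 := OM_G3_bd hp hR1 le_rfl hs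
    exact hA z' hz' γ (OM_G3_sq hs (by linarith [hmove _ _ hb1 hd']))
  · rintro ⟨z, hs, hz⟩
    obtain ⟨z', hz', hd⟩ := hb z hz
    have hb1 := OM_G3_bd hp hR1 (by norm_num) hs
    exact ⟨z', OM_G3_sq hs (by linarith [hmove _ _ hb1 hd]), hz'⟩

end OM21
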