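import Pool.Agent.LibOM21.F2
import Pool.Agent.LibBGM20.E5

/-! ROW G4 : coefficients of squares which the axis avoids do not change the length. SHORT/MEDIUM (model: `E5_same` in LibBGM20/E5.lean).
PLAN. `≥`: the exponent is monotone in the coefficients (`ex_on`, `Sg0` with `c R (η - η') ≥ 0` and `per (bmq (R+1) p) ≥ 0`), `D1_tl` with `ε = 0`. `≤`: there is an axis `e` of `f` for `YY R η'` (negative curvature `XX_hm`, as in `E5_same`: `E2_had`, `B2_min'`, `B2_axis`, `A6_smooth`), all its points have minimal displacement (`B2_pts`), so for every `p` in the grid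
with `η' (R,p) ≠ η (R,p)` no translate of `e t` is in `Sq R p 2` and `per (bmq (R+1) p) (e t) = 0` (`per_bmq_zero`); so the two metrics agree at all `e t` and `tl (YY η) f ≤ ds (YY η) (e 0) (e l) ≤ len (YY η) e 0 l = len (YY η') e 0 l = l`. -/

open MeasureTheory Set Filter Topology
open scoped ContDiff unitInterval

namespace OM21

open BGS BR BE B35

variable {Γ : Type} [Group Γ] [MulAction Γ Pl] {D : Set Pl} {P : Dt}

/-- The exponents agree where the changed squares are avoided. -/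
private theorem OM_G4_eq (hP : Okc Γ D P) {R : ℕ} {η η' : Dir → I} {z : Pl}
    (h : ∀ p ∈ grid P.L (R + 1), η' (R, p) ≠ η (R, p) → per Γ (BGM.bmq (R + 1) p) z = 0) :
    BGM.ex Γ P.ψ P.L P.c (on R η) z = BGM.ex Γ P.ψ P.L P.c (on R η') z := by
  rw [ex_on hP, ex_on hP]
  unfold Sg0
  refine Finset.sum_congr rfl fun p hp => ?_
  by_cases hne : η' (R, p) = η (R, p)
  · simp only [hne]
  · rw [h p hp hne, mul_zero, mul_zero]

/-- The exponent is monotone in the coefficients. -/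
private theorem OM_G4_le (hP : Okc Γ D P) {R : ℕ} {η η' : Dir → I}
    (hle : ∀ d, η' (R, d) ≤ η (R, d)) (z : Pl) :
    BGM.ex Γ P.ψ P.L P.c (on R η') z ≤ BGM.ex Γ P.ψ P.L P.c (on R η) z := by
  rw [ex_on hP, ex_on hP]
  unfold Sg0
  refine Finset.sum_le_sum fun p _ => ?_
  have h1 : ((η' (R, p) : I) : ℝ) ≤ η (R, p) := hle p
  exact mul_le_mul_of_nonneg_right (mul_le_mul_of_nonneg_left h1 (hP.cx.cs.pos R).le)
    (BGM.per_bmq_nonneg (Γ := Γ) (R + 1) p z)

theorem tl_same (hP : Okc Γ D P) : ∃ k0 : ℕ, ∀ R ≥ k0, ∀ (η η' : Dir → I) (f : Γ), f ≠ 1 →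
    (∀ d, η' (R, d) ≤ η (R, d)) →
    (∀ p ∈ grid P.L (R + 1), η' (R, p) ≠ η (R, p) → Avoid Γ (YY P Γ R η') f R p 2) →
    BGM.tl (YY P Γ R η) f = BGM.tl (YY P Γ R η') f := by
  obtain ⟨k0, hk⟩ := XX_hm hP
  refine ⟨k0, fun R hR η η' f hf hle hav => ?_⟩
  have hneg : ∀ z, curv (YY P Γ R η') z < 0 := (hk R hR η').2.1.neg
  have hc := hP.cx
  refine le_antisymm ?_ ?_
  · obtain ⟨k, -, hh⟩ := BGM.E2_had hc
    obtain ⟨E, V, F, hHad⟩ := hh (on R η') hneg
    have hi := BGM.D2_iv hc (on R η')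
    obtain ⟨z, hz⟩ := BGM.B2_min' hc.hX hi hHad f
    obtain ⟨e, he, -⟩ := BGM.B2_axis hc.hX hi hHad hf hz
    obtain ⟨hsm, hun⟩ := BGM.A6_smooth hHad he.1
    change BGM.tl (BGM.mx Γ P.m P.ψ P.L P.c (on R η)) f ≤
      BGM.tl (BGM.mx Γ P.m P.ψ P.L P.c (on R η')) f
    set l := BGM.tl (BGM.mx Γ P.m P.ψ P.L P.c (on R η')) f with hl
    have hl0 : 0 ≤ l := BGM.tl_nonneg _ _
    have hmx : ∀ t, BGM.mx Γ P.m P.ψ P.L P.c (on R η) (e t) =
        BGM.mx Γ P.m P.ψ P.L P.c (on R η') (e t) := by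
      intro t
      have h0 : BGM.ex Γ P.ψ P.L P.c (on R η) (e t) = BGM.ex Γ P.ψ P.L P.c (on R η') (e t) := by
        refine OM_G4_eq hP fun p hp hne => ?_
        refine BGM.per_bmq_zero fun γ hγ => ?_
        refine hav p hp hne (e t) (BGM.B2_pts he t) γ ?_
        push_cast at hγ
        exact ⟨hγ.1.le, hγ.2.le⟩
      unfold BGM.mx BGM.cf
      rw [h0]
    have h1 : e l = f • e 0 := by
      have h2 := he.2 0
      rwa [zero_add] at h2
    calc BGM.tl (BGM.mx Γ P.m P.ψ P.L P.c (on R η)) f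
        ≤ BGM.ds (BGM.mx Γ P.m P.ψ P.L P.c (on R η)) (e 0) (f • e 0) := BGM.tl_le _ _ _
      _ = BGM.ds (BGM.mx Γ P.m P.ψ P.L P.c (on R η)) (e 0) (e l) := by rw [h1]
      _ ≤ BGM.len (BGM.mx Γ P.m P.ψ P.L P.c (on R η)) e 0 l :=
          BGM.ds_le (BGM.D2_rp hc _) (hsm.of_le (by exact_mod_cast le_top)) hl0
      _ = ∫ _t in (0 : ℝ)..l, (1 : ℝ) := by
          unfold BGM.len
          refine intervalIntegral.integral_congr fun t _ => ?_
          simp only [hmx t, hun t]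
      _ = l := by simp
  · have h1 := BGM.D1_tl (m := P.m) hc.rp (BGM.D2_smooth hc (on R η')).1
      (BGM.D2_smooth hc (on R η)).1 (ε := 0) (fun z => by
        rw [add_zero]
        exact OM_G4_le hP hle z) f
    rw [zero_div, Real.exp_zero, one_mul] at h1
    exact h1

end OM21
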