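import Pool.Agent.LibOM21.F2
import Pool.Agent.LibBGM20.E6

/-! ROW G5 : the gain. SHORT/MEDIUM (model: `E6_gain` in LibBGM20/E6.lean).
PLAN. `e` = the axis of `g` for `YY R η` through the point `z` in `Sq R p (3/4)` (`E2_had`, `B2_axis`), unit speed for `YY`, `l = tl YY g ≥ r` (`D2_unif`). By `D2_stay` `‖e t - z‖ ≤ C t`, so for `0 ≤ t ≤ t1 = min (1/(4 C (R+1))) r`: `e t` in `Sq R p 1` (`3/4 + 1/4`), `bmq (R+1) p (e t) = 1` (`bmq_one`), `per ≥ 1` (`per_bmq_ge`), and the exponent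
(`ex_on`, all terms `≥ 0`, `η (R,p) = 1`) is `≥ c R` there, `≥ 0` everywhere. `tl P.m g ≤ len P.m e 0 l`, `nm (P.m (e t)) (e' t) = exp (-(ex (e t))/2)`, so `tl YY g - tl P.m g ≥ ∫_0^l (1 - exp (-(ex (e t))/2)) dt ≥ t1 (1 - exp (-(c R)/2)) ≥ t1 c R/4`. -/

open MeasureTheory Set Filter Topology
open scoped ContDiff unitInterval

namespace OM21

open BGS BR BE B35

variable {Γ : Type} [Group Γ] [MulAction Γ Pl] {D : Set Pl} {P : Dt}

/-- The exponent is nonnegative. -/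
private theorem OM_G5_nn (hP : Okc Γ D P) (R : ℕ) (η : Dir → I) (z : Pl) :
    0 ≤ BGM.ex Γ P.ψ P.L P.c (on R η) z := by
  rw [ex_on hP R η z]
  unfold Sg0
  refine Finset.sum_nonneg fun p _ => ?_
  exact mul_nonneg (mul_nonneg (hP.cx.cs.pos R).le (η (R, p)).2.1) (BGM.per_bmq_nonneg _ _ _)

/-- The exponent is at least the coefficient of the square. -/
private theorem OM_G5_ge (hP : Okc Γ D P) {R : ℕ} {p : ℤ × ℤ} (hp : p ∈ grid P.L (R + 1))
    {η : Dir → I} (hη : η (R, p) = 1) {z : Pl} (hz : 1 ≤ per Γ (BGM.bmq (R + 1) p) z) :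
    P.c R ≤ BGM.ex Γ P.ψ P.L P.c (on R η) z := by
  rw [ex_on hP R η z]
  unfold Sg0
  have h1 : P.c R * ((η (R, p) : I) : ℝ) * per Γ (BGM.bmq (R + 1) p) z ≤
      ∑ q ∈ grid P.L (R + 1), P.c R * ((η (R, q) : I) : ℝ) * per Γ (BGM.bmq (R + 1) q) z :=
    Finset.single_le_sum (f := fun q => P.c R * ((η (R, q) : I) : ℝ) *
      per Γ (BGM.bmq (R + 1) q) z)
      (fun q _ => mul_nonneg (mul_nonneg (hP.cx.cs.pos R).le (η (R, q)).2.1)
        (BGM.per_bmq_nonneg _ _ _)) hp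
  refine le_trans ?_ h1
  rw [hη]
  have h2 := (hP.cx.cs.pos R).le
  have h3 : P.c R * ((1 : I) : ℝ) = P.c R := by
    rw [Set.Icc.coe_one, mul_one]
  rw [h3]
  nlinarith

/-- The point of the square is not far. -/
private theorem OM_G5_norm {L R : ℕ} {p : ℤ × ℤ} (hp : p ∈ grid L (R + 1)) {z : Pl}
    (h1 : |((R : ℝ) + 1) * z.1 - p.1| ≤ 3 / 4) (h2 : |((R : ℝ) + 1) * z.2 - p.2| ≤ 3 / 4) :
    ‖z‖ ≤ L + 1 := by
  have hR : (1 : ℝ) ≤ (R : ℝ) + 1 := by
    have : (0 : ℝ) ≤ R := Nat.cast_nonneg R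
    linarith
  have key : ∀ (x : ℝ) (q : ℤ), -((L * (R + 1 : ℕ) : ℤ)) ≤ q → q < (L * (R + 1 : ℕ) : ℤ) →
      |((R : ℝ) + 1) * x - q| ≤ 3 / 4 → |x| ≤ L + 1 := by
    intro x q hq1 hq2 hx
    have hq1' : -((L : ℝ) * ((R + 1 : ℕ) : ℝ)) ≤ (q : ℝ) := by exact_mod_cast hq1
    have hq2' : (q : ℝ) < (L : ℝ) * ((R + 1 : ℕ) : ℝ) := by exact_mod_cast hq2
    push_cast at hq1' hq2'
    have hx1 := (abs_le.1 hx).1
    have hx2 := (abs_le.1 hx).2
    have hpos : (0 : ℝ) < (R : ℝ) + 1 := by linarith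
    rw [abs_le]
    constructor
    · by_contra hcon
      push Not at hcon
      have h3 := mul_lt_mul_of_pos_left hcon hpos
      nlinarith
    · by_contra hcon
      push Not at hcon
      have h3 := mul_lt_mul_of_pos_left hcon hpos
      nlinarith
  have hp' := hp
  unfold grid at hp'
  rw [Finset.mem_product, Finset.mem_Ico, Finset.mem_Ico] at hp'
  obtain ⟨⟨ha, hb⟩, hc, hd⟩ := hp'
  rw [Prod.norm_def, max_le_iff, Real.norm_eq_abs, Real.norm_eq_abs]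
  exact ⟨key _ _ ha hb h1, key _ _ hc hd h2⟩

/-- The elementary inequality. -/
private theorem OM_G5_exp {y : ℝ} (h0 : 0 ≤ y) (h1 : y ≤ 1) :
    y / 4 ≤ 1 - Real.exp (-y / 2) := by
  have h2 : |(-y / 2)| ≤ 1 := by
    rw [abs_le]
    constructor <;> linarith
  have h3 := Real.abs_exp_sub_one_sub_id_le h2
  have h4 := (abs_le.1 h3).2
  nlinarith

/-- The speed of a curve for the metric of the base. -/
private theorem OM_G5_speed (R : ℕ) (η : Dir → I) {e : ℝ → Pl} {t : ℝ}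
    (he : BGM.nm (YY P Γ R η (e t)) (deriv e t) = 1) :
    BGM.nm (P.m (e t)) (deriv e t) =
      Real.exp (-(BGM.ex Γ P.ψ P.L P.c (on R η) (e t)) / 2) := by
  unfold YY BGM.mx at he
  rw [BGM.D1_nm] at he
  rw [neg_div, Real.exp_neg]
  exact eq_inv_of_mul_eq_one_right he

theorem tl_gain (hP : Okc Γ D P) : ∃ (κ : ℝ) (k0 : ℕ), 0 < κ ∧ ∀ R ≥ k0,
    ∀ p ∈ grid P.L (R + 1), ∀ g : Γ, g ≠ 1 → ∀ η : Dir → I, η (R, p) = 1 →
    (∃ z, Sq R p (3 / 4) z ∧ Min (YY P Γ R η) g z) →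
    BGM.tl P.m g + κ * P.c R / (R + 1) ≤ BGM.tl (YY P Γ R η) g := by
  have h := hP.cx
  obtain ⟨r, -, -, hr, -, hrad, -, -⟩ := BGM.D2_unif h
  obtain ⟨C, hC, hstay⟩ := BGM.D2_stay h
  obtain ⟨k, hk, hhad⟩ := BGM.E2_had h
  obtain ⟨k0, hk0⟩ := XX_hm hP
  have hCpos : 0 < C := by linarith
  refine ⟨min (1 / (4 * C)) r / 4, k0, by positivity, ?_⟩
  intro R hR p hp g hg η hη hz0
  obtain ⟨z, ⟨hz1, hz2⟩, hz⟩ := hz0
  have hcurv : ∀ w, curv (BGM.mx Γ P.m P.ψ P.L P.c (on R η)) w < 0 := (hk0 R hR η).2.1.neg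
  obtain ⟨E, V, F, hH⟩ := hhad _ hcurv
  have hz' : BGM.ds (BGM.mx Γ P.m P.ψ P.L P.c (on R η)) z (g • z) =
      BGM.tl (BGM.mx Γ P.m P.ψ P.L P.c (on R η)) g := hz
  obtain ⟨e, he, he0⟩ := BGM.B2_axis h.hX (BGM.D2_iv h _) hH hg hz'
  obtain ⟨hsm, hsp⟩ := BGM.A6_smooth hH he.1
  have hsm1 : ContDiff ℝ 1 e := hsm.of_le (by exact_mod_cast le_top)
  set ℓ : ℝ := BGM.tl (BGM.mx Γ P.m P.ψ P.L P.c (on R η)) g with hℓ
  have hℓr : r ≤ ℓ := by
    rw [← hz']
    exact hrad _ g hg z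
  have hℓ0 : 0 ≤ ℓ := hr.le.trans hℓr
  have hRn : (0 : ℝ) ≤ R := Nat.cast_nonneg R
  have hR1 : (0 : ℝ) < (R : ℝ) + 1 := by linarith
  have hcR := h.cs.pos R
  have hcR1 := h.cs.le_one R
  -- the time spent in the square
  set τ : ℝ := min (1 / (4 * C * (R + 1))) r with hτ
  have hτ0 : 0 < τ := by positivity
  have hτℓ : τ ≤ ℓ := (min_le_right _ _).trans hℓr
  have hτ1 : min (1 / (4 * C)) r / (R + 1) ≤ τ := by
    rw [hτ, le_min_iff]
    constructor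
    · rw [div_le_iff₀ hR1]
      refine (min_le_left _ _).trans (le_of_eq ?_)
      field_simp
    · rw [div_le_iff₀ hR1]
      refine (min_le_right _ _).trans ?_
      nlinarith
  have hin : ∀ t ∈ Icc (0 : ℝ) τ, 1 ≤ per Γ (BGM.bmq (R + 1) p) (e t) := by
    intro t ht
    have ht1 : t ≤ 1 / (4 * C * (R + 1)) := ht.2.trans (min_le_left _ _)
    have ht2 : t ≤ 1 / C := by
      refine ht1.trans ?_
      apply one_div_le_one_div_of_le hCpos
      nlinarith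
    have h1 := hstay _ e hsm1 hsp (by rw [he0]; exact OM_G5_norm hp hz1 hz2) t ht.1 ht2
    have h2 : C * t ≤ 1 / (4 * (R + 1)) := by
      have h3 := mul_le_mul_of_nonneg_left ht1 hCpos.le
      refine h3.trans (le_of_eq ?_)
      field_simp
    have h3 : ‖e t - z‖ ≤ 1 / (4 * (R + 1)) := by
      rw [← he0]
      exact h1.trans h2
    have h4 : ∀ x w : ℝ, |x - w| ≤ 1 / (4 * ((R : ℝ) + 1)) → ∀ q : ℤ,
        |((R : ℝ) + 1) * w - q| ≤ 3 / 4 → |((R + 1 : ℕ) : ℝ) * x - q| ≤ 1 := by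
      intro x w hxw q hq
      have h5 : |((R : ℝ) + 1) * (x - w)| ≤ 1 / 4 := by
        rw [abs_mul, abs_of_nonneg hR1.le]
        calc ((R : ℝ) + 1) * |x - w| ≤ ((R : ℝ) + 1) * (1 / (4 * ((R : ℝ) + 1))) :=
              mul_le_mul_of_nonneg_left hxw hR1.le
          _ = 1 / 4 := by field_simp
      have h6 : ((R + 1 : ℕ) : ℝ) * x - q =
          ((R : ℝ) + 1) * (x - w) + (((R : ℝ) + 1) * w - q) := by
        push_cast
        ring
      rw [h6]
      refine (abs_add_le _ _).trans ?_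
      linarith
    have h7 : |(e t).1 - z.1| ≤ 1 / (4 * ((R : ℝ) + 1)) := by
      rw [← Real.norm_eq_abs]
      exact (norm_fst_le (e t - z)).trans h3
    have h8 : |(e t).2 - z.2| ≤ 1 / (4 * ((R : ℝ) + 1)) := by
      rw [← Real.norm_eq_abs]
      exact (norm_snd_le (e t - z)).trans h3
    have h9 := BGM.bmq_one (R := R + 1) (p := p) (h4 _ _ h7 _ hz1) (h4 _ _ h8 _ hz2)
    rw [← h9]
    exact BGM.per_bmq_ge h.hX (Nat.le_add_left 1 R) p (e t)
  -- the length for the metric of the base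
  have hrp : BGM.Rp P.m := h.rp
  have hcont := BGM.A4_cont hrp hsm1
  have h1 : BGM.tl P.m g ≤ BGM.len P.m e 0 ℓ := by
    have h2 := BGM.ds_le hrp hsm1 hℓ0
    have h3 : e ℓ = g • e 0 := by
      have h4 := he.2 0
      rw [zero_add] at h4
      exact h4
    rw [h3] at h2
    exact (BGM.tl_le P.m g (e 0)).trans h2
  have h2 : BGM.len P.m e 0 τ ≤ τ * Real.exp (-(P.c R) / 2) := by
    unfold BGM.len
    have h3 : ∫ _t in (0 : ℝ)..τ, Real.exp (-(P.c R) / 2) = τ * Real.exp (-(P.c R) / 2) := by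
      rw [intervalIntegral.integral_const, smul_eq_mul, sub_zero]
    rw [← h3]
    refine intervalIntegral.integral_mono_on hτ0.le (hcont.intervalIntegrable _ _)
      intervalIntegrable_const fun t ht => ?_
    rw [OM_G5_speed R η (hsp t)]
    apply Real.exp_le_exp.2
    have h4 := OM_G5_ge hP hp hη (hin t ht)
    linarith
  have h3 : BGM.len P.m e τ ℓ ≤ ℓ - τ := by
    unfold BGM.len
    have h4 : ∫ _t in τ..ℓ, (1 : ℝ) = ℓ - τ := by
      rw [intervalIntegral.integral_const, smul_eq_mul, mul_one]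
    rw [← h4]
    refine intervalIntegral.integral_mono_on hτℓ (hcont.intervalIntegrable _ _)
      intervalIntegrable_const fun t _ => ?_
    rw [OM_G5_speed R η (hsp t), ← Real.exp_zero]
    apply Real.exp_le_exp.2
    have h5 := OM_G5_nn hP R η (e t)
    linarith
  have h4 := BGM.len_add hrp hsm1 0 τ ℓ
  have h5 := OM_G5_exp hcR.le hcR1
  have h6 : τ * (P.c R / 4) ≤ τ * (1 - Real.exp (-(P.c R) / 2)) :=
    mul_le_mul_of_nonneg_left h5 hτ0.le
  have h7 : min (1 / (4 * C)) r / 4 * P.c R / (R + 1) =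
      min (1 / (4 * C)) r / (R + 1) * (P.c R / 4) := by
    ring
  have h8 : min (1 / (4 * C)) r / (R + 1) * (P.c R / 4) ≤ τ * (P.c R / 4) :=
    mul_le_mul_of_nonneg_right hτ1 (by linarith)
  have h9 : BGM.tl (YY P Γ R η) g = ℓ := rfl
  rw [h7, h9]
  linarith

end OM21
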