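import Pool.Agent.LibOM21.F2
import Pool.Agent.LibBE36T.T4b

/-! ROW T2 : uniform constants. MEDIUM.
PLAN. `UC_XX`: `UC_family` (LibBE36T/T4b) with `m0 = P.m` and `M` a common bound of the exponents: `XX z = exp (ex z - log (ar)) • P.m z`, `|ex| ≤ M` (`BGM.D2_bound`), `|log ar| ≤ log C` (`ar_bd`).
`cnt_XX` (all for `R ≥ k0` of `XX_hm`): `XX = e^u P.m`, `|u| ≤ M`, so `e^(-M/2) ds P.m ≤ ds XX ≤ e^(M/2) ds P.m` (`BGM.D1_ds`, `D1_gen_ds` in LibBGM20/D1) and the same for `tl`, hence for `ln` (`ln m q = (n + 1) lp = tl m (gel q)`, `cls_q`). Lengths of one metric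
are bounded below (`BGM.D2_unif` or `W37.WE_sys`/`GWin.exists_l0`). Finite, count: `{q | ln XX q ≤ t} ⊆ {q | ln P.m q ≤ e^(M/2) t}`, `GH.ok_geo`/`count` of `GWin.Ok` for the metric `P.m` (primitive classes; `Cg = PG × ℕ × Bool`, `n + 1 ≤ t / r0`),
or as in LibB35 (`Cs_mem`, the rows `Q1h`). `wg ≤ C`: `trg (gel q) - 2 ≥ 4 sinh² (a l / 2)`, `l = ln q`, from `Fd_growth`/`GH.ok_geo` with the curvature bound `≤ -a²` uniform in `R, η` (`CF_pth`, `neg`), `lp ≤ l`, `l / (2 sinh (a l/2)) ≤ 1/a`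
(models: `wts` in LibB35/IFE.lean, LibBE37F/IFE2.lean). -/

open MeasureTheory Set Filter Topology
open scoped ContDiff unitInterval

namespace OM21

open BGS BR BE B35

variable {Γ : Type} [Group Γ] [MulAction Γ Pl] {D : Set Pl} {P : Dt}

/-- the exponent of `XX` -/
private theorem OM_T2_exp (hP : Okc Γ D P) : ∃ M : ℝ, 0 ≤ M ∧ ∀ (R : ℕ) (η : Dir → I),
    (∀ z, |P.h Γ D (on R η) z| ≤ M) ∧ ContDiff ℝ ∞ (P.h Γ D (on R η)) ∧
      XX P Γ D R η = BGM.cf (P.h Γ D (on R η)) P.m := by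
  obtain ⟨M, hM, h1⟩ := BGM.D2_bound hP.cx
  obtain ⟨C, hC, h2⟩ := ar_bd hP
  have hlog := Real.log_nonneg hC
  refine ⟨M + Real.log C, by linarith, fun R η => ⟨fun z => ?_, ?_, rfl⟩⟩
  · have h3 : P.h Γ D (on R η) z =
        BGM.ex Γ P.ψ P.L P.c (on R η) z - Real.log (ar P Γ D R η) := rfl
    obtain ⟨h4, h5⟩ := h2 R η
    have hC0 : 0 < C := lt_of_lt_of_le one_pos hC
    have har : 0 < ar P Γ D R η := lt_of_lt_of_le (inv_pos.2 hC0) h4
    have h6 : Real.log (ar P Γ D R η) ≤ Real.log C := Real.log_le_log har h5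
    have h7 : -Real.log C ≤ Real.log (ar P Γ D R η) := by
      rw [← Real.log_inv]
      exact Real.log_le_log (inv_pos.2 hC0) h4
    have h8 := abs_le.1 (h1 (on R η) z)
    rw [h3, abs_le]
    constructor
    · linarith [h8.1]
    · linarith [h8.2]
  · exact (BGM.D2_smooth hP.cx (on R η)).1.sub contDiff_const

/-- comparison of the lengths -/
private theorem OM_T2_tl (hP : Okc Γ D P) {M : ℝ} {u : Pl → ℝ} (hu : ∀ z, |u z| ≤ M)
    (huc : ContDiff ℝ ∞ u) {m : Pl → Co} (hm : m = BGM.cf u P.m) (g : Γ) :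
    BGM.tl P.m g ≤ Real.exp (M / 2) * BGM.tl m g := by
  have h2 := BGM.D1_tl (f := fun _ => 0) (f' := u) hP.cx.rp contDiff_const huc (ε := M)
    (fun z => by
      have := (abs_le.1 (hu z)).1
      linarith) g
  rw [BGM.D1_zero, ← hm] at h2
  exact h2

/-- the bound for the weight -/
private theorem OM_T2_wg (hX : Surface Γ D) (hO : Ori Γ) {m : Pl → Co} (hm : HM Γ m) {a : ℝ}
    (ha : 0 < a) (hk : ∀ z, curv m z ≤ -a ^ 2) (q : Cg Γ) : 0 ≤ wg m q ∧ wg m q ≤ 1 / a := by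
  have hG := GD.grpData hX hO hm ha hk
  obtain ⟨-, -, hlp, hne, htl, htr⟩ := cls_q hX hO hm q
  have hln : lp m q.1 ≤ ln m q := by
    unfold ln
    have h1 : (0 : ℝ) ≤ q.2.1 := Nat.cast_nonneg _
    nlinarith
  have hln0 : 0 ≤ ln m q := hlp.le.trans hln
  have h1 := hG.lb (gel q) hne
  rw [htl] at h1
  have h2 : a * ln m q / 2 ≤ Real.sinh (a * ln m q / 2) :=
    Real.self_le_sinh_iff.2 (by positivity)
  have h3 : (a * ln m q) ^ 2 ≤ GD.trg m (gel q) - 2 := by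
    refine le_trans ?_ h1
    have h4 : (a * ln m q / 2) ^ 2 ≤ Real.sinh (a * ln m q / 2) ^ 2 :=
      pow_le_pow_left₀ (by positivity) h2 2
    nlinarith
  have h4 : a * ln m q ≤ √(GD.trg m (gel q) - 2) := Real.le_sqrt_of_sq_le h3
  have h5 : 0 < √(GD.trg m (gel q) - 2) := Real.sqrt_pos.2 htr
  unfold wg
  refine ⟨div_nonneg hlp.le h5.le, ?_⟩
  rw [div_le_div_iff₀ h5 ha]
  have h6 : a * lp m q.1 ≤ a * ln m q := mul_le_mul_of_nonneg_left hln ha.le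
  linarith

/-- the finite set containing the closed geodesics of length at most `t` -/
private theorem OM_T2_box (hP : Okc Γ D P) : ∃ (l₀ C₀ : ℝ), 0 < l₀ ∧ 0 ≤ C₀ ∧
    (∀ p : GH.PG Γ, l₀ ≤ lp P.m p) ∧
    ∀ s : ℝ, 0 ≤ s → ∃ F : Finset (Cg Γ), (∀ q : Cg Γ, ln P.m q ≤ s → q ∈ F) ∧
      (F.card : ℝ) ≤ Real.exp (C₀ * s) * ((s / l₀ + 1) * 2) := by
  obtain ⟨a, b, ha, -, hk⟩ := curv_bounds hP.cx.hX hP.hm
  have hG := GD.grpData hP.cx.hX hP.ori hP.hm ha fun z => (hk z).2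
  have hok := GH.ok_geo hG
  obtain ⟨l₀, hl₀, hl⟩ := GWin.exists_l0 hok
  have hl' : ∀ p : GH.PG Γ, l₀ ≤ lp P.m p := fun p => hl p
  obtain ⟨C, hC⟩ := hok.count
  refine ⟨l₀, |C|, hl₀, abs_nonneg C, hl', fun s hs => ?_⟩
  have hfin : {p : GH.PG Γ | lp P.m p ≤ s}.Finite := hok.fin s
  refine ⟨hfin.toFinset ×ˢ (Finset.range (⌊s / l₀⌋₊ + 1) ×ˢ Finset.univ), fun q hq => ?_, ?_⟩
  · obtain ⟨p, n, o⟩ := q
    have h1 : ((n : ℝ) + 1) * lp P.m p ≤ s := hq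
    have h2 := hl' p
    have h3 : (0 : ℝ) ≤ n := Nat.cast_nonneg n
    rw [Finset.mem_product, Finset.mem_product]
    refine ⟨hfin.mem_toFinset.2 ?_, Finset.mem_range.2 ?_, Finset.mem_univ _⟩
    · show lp P.m p ≤ s
      nlinarith
    · rw [Nat.lt_succ_iff]
      refine Nat.le_floor ?_
      rw [le_div_iff₀ hl₀]
      nlinarith
  · rw [Finset.card_product, Finset.card_product, Finset.card_range, Finset.card_univ,
      Fintype.card_bool]
    push_cast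
    have h1 : ((hfin.toFinset.card : ℕ) : ℝ) ≤ Real.exp (|C| * s) := by
      have h2 : (({p : GH.PG Γ | lp P.m p ≤ s}.ncard : ℕ) : ℝ) ≤ Real.exp (C * s) := hC s hs
      rw [Set.ncard_eq_toFinset_card _ hfin] at h2
      exact h2.trans (Real.exp_le_exp.2 (mul_le_mul_of_nonneg_right (le_abs_self C) hs))
    have h2 : ((⌊s / l₀⌋₊ : ℕ) : ℝ) ≤ s / l₀ := Nat.floor_le (div_nonneg hs hl₀.le)
    refine mul_le_mul h1 ?_ (by positivity) (Real.exp_pos _).le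
    linarith

theorem UC_XX (hP : Okc Γ D P) : ∃ C : ℝ, ∀ (R : ℕ) (η : Dir → I) (m' : Mt Γ D),
    m'.1.1 = XX P Γ D R η → B36.UC hP.cx.hX m' C := by
  obtain ⟨M, -, h⟩ := OM_T2_exp hP
  obtain ⟨C, hC⟩ := B36.UC_family hP.cx.hX hP.ori hP.hm M
  refine ⟨C, fun R η m' hm' => hC m' ⟨P.h Γ D (on R η), (h R η).1, fun z => ?_⟩⟩
  rw [hm']
  rfl

theorem cnt_XX (hP : Okc Γ D P) : ∃ (C : ℝ) (k0 : ℕ), 1 ≤ C ∧ ∀ R ≥ k0, ∀ η : Dir → I,
    (∀ q : Cg Γ, C⁻¹ ≤ ln (XX P Γ D R η) q ∧ 0 ≤ wg (XX P Γ D R η) q ∧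
      wg (XX P Γ D R η) q ≤ C) ∧
    ∀ t : ℝ, 0 ≤ t → {q : Cg Γ | ln (XX P Γ D R η) q ≤ t}.Finite ∧
      ((Cs (Γ := Γ) (XX P Γ D R η) t).card : ℝ) ≤ Real.exp (C * (1 + t)) := by
  obtain ⟨M, hM, hu⟩ := OM_T2_exp hP
  obtain ⟨k0, hk0⟩ := XX_hm hP
  obtain ⟨k1, a, b, hCF⟩ := CF_pth hP
  obtain ⟨l₀, C₀, hl₀, hC₀, hl, hbox⟩ := OM_T2_box hP
  have ha := hCF.a_pos
  obtain ⟨E, hE⟩ : ∃ E, E = Real.exp (M / 2) := ⟨_, rfl⟩
  have hE1 : 1 ≤ E := by rw [hE]; exact Real.one_le_exp (by linarith)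
  have hE0 : 0 < E := lt_of_lt_of_le one_pos hE1
  have hEl : 0 < E / l₀ := div_pos hE0 hl₀
  have hla : 0 < 1 / a := one_div_pos.2 ha
  have hll : 0 < 1 / l₀ := one_div_pos.2 hl₀
  have hCE : 0 ≤ (C₀ + 1 / l₀) * E := mul_nonneg (by linarith) hE0.le
  refine ⟨1 + E / l₀ + 1 / a + (C₀ + 1 / l₀) * E, max k0 k1, by linarith, fun R hR η => ?_⟩
  have hR0 : k0 ≤ R := (le_max_left _ _).trans hR
  have hR1 : k1 ≤ R := (le_max_right _ _).trans hR
  have hXm : HM Γ (XX P Γ D R η) := (hk0 R hR0 η).1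
  have hcurv : ∀ z, curv (XX P Γ D R η) z ≤ -a ^ 2 := by
    intro z
    have h5 := (hCF.neg (⟨(R, η), hR1⟩ : {q : ℕ × (Dir → I) // k1 ≤ q.1}) (√(P.c R)) z).2
    change curv (mm P.m (pth P Γ D (R, η)) (√(P.c R))) z ≤ -a ^ 2 at h5
    rwa [pth_one hP] at h5
  have hcmp : ∀ p : GH.PG Γ, lp P.m p ≤ E * lp (XX P Γ D R η) p := fun p => by
    rw [hE]
    exact OM_T2_tl hP (hu R η).1 (hu R η).2.1 (hu R η).2.2 (GH.rep p)
  have hln : ∀ q : Cg Γ, ln P.m q ≤ E * ln (XX P Γ D R η) q := by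
    intro q
    have h1 := hcmp q.1
    have h2 : (0 : ℝ) ≤ (q.2.1 : ℝ) + 1 := by positivity
    have h3 := mul_le_mul_of_nonneg_left h1 h2
    unfold ln
    linarith
  have hlow : ∀ q : Cg Γ, l₀ ≤ ln P.m q := by
    intro q
    have h1 := hl q.1
    have h2 : (0 : ℝ) ≤ q.2.1 := Nat.cast_nonneg _
    unfold ln
    nlinarith
  refine ⟨fun q => ⟨?_, ?_, ?_⟩, fun t ht => ?_⟩
  · have h1 : l₀ / E ≤ ln (XX P Γ D R η) q := by
      rw [div_le_iff₀ hE0]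
      have := (hlow q).trans (hln q)
      linarith
    refine le_trans ?_ h1
    have h2 : l₀ / E = (E / l₀)⁻¹ := by rw [inv_div]
    rw [h2]
    exact inv_anti₀ hEl (by linarith)
  · exact (OM_T2_wg hP.cx.hX hP.ori hXm ha hcurv q).1
  · exact (OM_T2_wg hP.cx.hX hP.ori hXm ha hcurv q).2.trans (by linarith)
  · obtain ⟨F, hF, hFc⟩ := hbox (E * t) (mul_nonneg hE0.le ht)
    have hsub : ∀ q : Cg Γ, ln (XX P Γ D R η) q ≤ t → q ∈ F := fun q hq =>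
      hF q ((hln q).trans (mul_le_mul_of_nonneg_left hq hE0.le))
    refine ⟨F.finite_toSet.subset fun q hq => hsub q hq, ?_⟩
    have h1 : ((Cs (Γ := Γ) (XX P Γ D R η) t).card : ℝ) ≤ F.card := by
      exact_mod_cast Finset.card_le_card fun q hq =>
        hsub q ((Cs_mem hP.cx.hX hP.ori hXm).1 hq)
    refine h1.trans (hFc.trans ?_)
    have h2 : E * t / l₀ + 1 ≤ Real.exp (E * t / l₀) := Real.add_one_le_exp _
    have h3 : (2 : ℝ) ≤ Real.exp 1 := by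
      have := Real.add_one_le_exp (1 : ℝ)
      linarith
    calc Real.exp (C₀ * (E * t)) * ((E * t / l₀ + 1) * 2)
        ≤ Real.exp (C₀ * (E * t)) * (Real.exp (E * t / l₀) * Real.exp 1) := by
          refine mul_le_mul_of_nonneg_left ?_ (Real.exp_pos _).le
          exact mul_le_mul h2 h3 (by norm_num) (Real.exp_pos _).le
      _ = Real.exp ((C₀ + 1 / l₀) * E * t + 1) := by
          rw [← Real.exp_add, ← Real.exp_add]
          congr 1
          ring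
      _ ≤ _ := by
          refine Real.exp_le_exp.2 ?_
          have h5 : 0 ≤ E / l₀ * t := mul_nonneg hEl.le ht
          have h6 : 0 ≤ 1 / a * t := mul_nonneg hla.le ht
          nlinarith

end OM21
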