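import Pool.Agent.LibOM21.G2
import Pool.Agent.LibOM21.G3
import Pool.Agent.LibOM21.G4
import Pool.Agent.LibOM21.G5
import Pool.Agent.LibBGM20.E3
import Pool.Agent.LibOM21.T2

/-! ROW G6 : the alignment. -/

open MeasureTheory Set Filter Topology
open scoped ContDiff unitInterval

namespace OM21

open BGS BR BE B35

variable {Γ : Type} [Group Γ] [MulAction Γ Pl] {D : Set Pl} {P : Dt}

omit [MulAction Γ Pl] in
private theorem OM_G6_inj {p p' : GH.PG Γ}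
    (h : IsConj (GH.rep p) (GH.rep p') ∨ IsConj (GH.rep p) (GH.rep p')⁻¹) : p = p' := by
  have h1 := Quotient.sound (s := ⟨GH.PRel (Γ := Γ), GH.PRel.equiv⟩) (a := Quotient.out p)
    (b := Quotient.out p') h
  exact (Quotient.out_eq p).symm.trans (h1.trans (Quotient.out_eq p'))

private theorem OM_G6_cnt (hP : Okc Γ D P) : ∃ C : ℝ, 0 ≤ C ∧ ∀ T : ℝ, 0 ≤ T →
    ∃ F : Finset (GH.PG Γ), (∀ p, p ∈ F ↔ lp P.m p ≤ T) ∧ (F.card : ℝ) ≤ Real.exp (C * T) := by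
  obtain ⟨κ, h⟩ := GQ1a_gd hP.cx.hX hP.ori hP.hm
  obtain ⟨C, hC⟩ := h.count
  refine ⟨max C 0, le_max_right _ _, fun T hT => ?_⟩
  obtain ⟨hf, hc⟩ := hC T hT
  have hinj : Set.InjOn (fun p : GH.PG Γ => ConjClasses.mk (GH.rep p))
      {p | lp P.m p ≤ T} := by
    intro p _ p' _ hpp
    exact OM_G6_inj (Or.inl (ConjClasses.mk_eq_mk_iff_isConj.1 hpp))
  have hmaps : Set.MapsTo (fun p : GH.PG Γ => ConjClasses.mk (GH.rep p)) {p | lp P.m p ≤ T}
      {c | ∃ g, ConjClasses.mk g = c ∧ BGM.tl P.m g ≤ T} := fun p hp => ⟨GH.rep p, rfl, hp⟩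
  have hfin : {p : GH.PG Γ | lp P.m p ≤ T}.Finite := Set.Finite.of_injOn hmaps hinj hf
  refine ⟨hfin.toFinset, fun p => by simp, ?_⟩
  have h1 := Set.ncard_le_ncard_of_injOn _ hmaps hinj hf
  rw [Set.ncard_eq_toFinset_card _ hfin] at h1
  have h2 : ((hfin.toFinset.card : ℕ) : ℝ) ≤
      (({c : ConjClasses Γ | ∃ g, ConjClasses.mk g = c ∧ BGM.tl P.m g ≤ T}.ncard : ℕ) : ℝ) := by
    exact_mod_cast h1
  refine h2.trans (hc.trans (Real.exp_le_exp.2 ?_))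
  exact mul_le_mul_of_nonneg_right (le_max_left _ _) hT

private theorem OM_G6_ivt {φ : I → ℝ} (hφ : Continuous φ) (θ : ℝ)
    (h : φ 0 + 2 * Real.pi ≤ φ 1) : ∃ s : I, ∃ j : ℤ, φ s = θ + 2 * Real.pi * j := by
  have hpi := Real.pi_pos
  have h1 : (φ 0 - θ) / (2 * Real.pi) ≤ (⌈(φ 0 - θ) / (2 * Real.pi)⌉ : ℤ) := Int.le_ceil _
  have h2 : ((⌈(φ 0 - θ) / (2 * Real.pi)⌉ : ℤ) : ℝ) < (φ 0 - θ) / (2 * Real.pi) + 1 :=
    Int.ceil_lt_add_one _
  generalize hj : (⌈(φ 0 - θ) / (2 * Real.pi)⌉ : ℤ) = j at h1 h2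
  have h0 : (0 : ℝ) < 2 * Real.pi := by positivity
  rw [div_le_iff₀ h0] at h1
  have h3 : (j : ℝ) * (2 * Real.pi) < φ 0 - θ + 2 * Real.pi := by
    have h4 := mul_lt_mul_of_pos_right h2 h0
    rw [add_mul, div_mul_cancel₀ _ h0.ne', one_mul] at h4
    exact h4
  have h4 : θ + 2 * Real.pi * j ∈ Set.Icc (φ 0) (φ 1) := ⟨by linarith, by linarith⟩
  obtain ⟨s, hs⟩ := intermediate_value_univ 0 1 hφ h4
  exact ⟨s, j, hs⟩

open Classical in
/-- The coefficients with the value `s` at `(R, c)` and zero elsewhere. -/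
private noncomputable def OM_G6_s (R : ℕ) (c : ℤ × ℤ) (s : I) : Dir → I :=
  fun d => if d = (R, c) then s else 0

private theorem OM_G6_s_same (R : ℕ) (c : ℤ × ℤ) (s : I) : OM_G6_s R c s (R, c) = s := by
  unfold OM_G6_s
  rw [if_pos rfl]

private theorem OM_G6_s_ne (R : ℕ) {c c' : ℤ × ℤ} (h : c' ≠ c) (s : I) :
    OM_G6_s R c s (R, c') = 0 := by
  unfold OM_G6_s
  rw [if_neg]
  intro h1
  exact h (Prod.ext_iff.1 h1).2

private theorem OM_G6_s_zero (R : ℕ) (c : ℤ × ℤ) : OM_G6_s R c 0 = 0 := by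
  funext d
  unfold OM_G6_s
  split_ifs <;> rfl

private theorem OM_G6_cont (R : ℕ) (c : ℤ × ℤ) :
    Continuous fun s : I => on R (OM_G6_s R c s) := by
  refine continuous_pi fun d => ?_
  unfold on OM_G6_s
  by_cases h1 : d.1 = R
  · by_cases h2 : d = (R, c)
    · simp only [if_pos h1, if_pos h2]
      exact continuous_id
    · simp only [if_pos h1, if_neg h2]
      exact continuous_const
  · simp only [if_neg h1]
    exact continuous_const

private theorem OM_G6_zero (hP : Okc Γ D P) (R : ℕ) : YY P Γ R 0 = P.m := by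
  funext z
  unfold YY BGM.mx BGM.cf
  rw [ex_on hP]
  have h0 : Sg0 Γ P.L R (fun p => P.c R * (((0 : Dir → I) (R, p) : I) : ℝ)) z = 0 := by
    unfold Sg0
    refine Finset.sum_eq_zero fun p _ => ?_
    simp
  rw [h0, Real.exp_zero, one_smul]

private theorem OM_G6_one (hP : Okc Γ D P) : ∃ (C : ℝ) (n k0 : ℕ), 1 ≤ C ∧ ∀ R ≥ k0,
    ∀ T : ℝ, 0 ≤ T → C * (1 + T) ^ n * √(P.c R) * (R + 1) ≤ 1 → ∀ θ τ0 : ℝ,
    C * (R + 1) / P.c R ≤ τ0 → ∀ c ∈ grid P.L (R + 1), ∀ g γ : Γ, g ≠ 1 →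
    BGM.tl P.m g ≤ T → (∃ z, Sq R c (1 / 2) z ∧ Min P.m (γ * g * γ⁻¹) z) →
    ∃ s : I, ∃ j : ℤ, τ0 * BGM.tl (YY P Γ R (OM_G6_s R c s)) g = θ + 2 * Real.pi * j := by
  obtain ⟨C2, n2, k2, hC2, hst⟩ := sq_stable hP
  obtain ⟨κ, k4, hκ, hgain⟩ := tl_gain hP
  refine ⟨max C2 (2 * Real.pi / κ), n2, max k2 k4, hC2.trans (le_max_left _ _), ?_⟩
  intro R hR T hT hsm θ τ0 hτ c hc g γ hg hgT hz
  have hcpos : 0 < P.c R := hP.cx.cs.pos R
  have hR1 : (0 : ℝ) < (R : ℝ) + 1 := by positivity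
  have hsm2 : C2 * (1 + T) ^ n2 * √(P.c R) * (R + 1) ≤ 1 := by
    refine le_trans ?_ hsm
    have h1 : (0 : ℝ) ≤ (1 + T) ^ n2 := by positivity
    have h2 : 0 ≤ √(P.c R) := Real.sqrt_nonneg _
    gcongr
    exact le_max_left _ _
  have hconj : ∀ η : Dir → I, BGM.tl (YY P Γ R η) (γ * g * γ⁻¹) = BGM.tl (YY P Γ R η) g :=
    fun η => BGM.B2_conj hP.cx.hX (BGM.D2_iv hP.cx (on R η)) g γ
  have hconj0 : BGM.tl P.m (γ * g * γ⁻¹) = BGM.tl P.m g :=
    BGM.B2_conj hP.cx.hX hP.cx.iv g γ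
  have hg' : γ * g * γ⁻¹ ≠ 1 := by
    intro h
    apply hg
    have h1 := congrArg (fun x => γ⁻¹ * x * γ) h
    simpa [mul_assoc] using h1
  have h1 : BGM.tl P.m g + κ * P.c R / (R + 1) ≤ BGM.tl (YY P Γ R (OM_G6_s R c 1)) g := by
    rw [← hconj, ← hconj0]
    refine hgain R ((le_max_right _ _).trans hR) c hc _ hg' _ (OM_G6_s_same R c 1) ?_
    refine (hst R ((le_max_left _ _).trans hR) T hT hsm2 c hc _ hg' ?_ _).2 hz
    rw [hconj0]
    exact hgT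
  have h0 : BGM.tl (YY P Γ R (OM_G6_s R c 0)) g = BGM.tl P.m g := by
    rw [OM_G6_s_zero, OM_G6_zero hP]
  have hcont : Continuous fun s : I => τ0 * BGM.tl (YY P Γ R (OM_G6_s R c s)) g :=
    continuous_const.mul ((BGM.E3_tl hP.cx g).comp (OM_G6_cont R c))
  refine OM_G6_ivt hcont θ ?_
  simp only [h0]
  have h2 : 2 * Real.pi / κ * (R + 1) / P.c R ≤ τ0 := by
    refine le_trans ?_ hτ
    gcongr
    exact le_max_right _ _
  have hpi := Real.pi_pos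
  have h3 : 2 * Real.pi ≤ τ0 * (κ * P.c R / (R + 1)) := by
    have h4 : 2 * Real.pi = 2 * Real.pi / κ * (R + 1) / P.c R * (κ * P.c R / (R + 1)) := by
      field_simp
    rw [h4]
    exact mul_le_mul_of_nonneg_right h2 (by positivity)
  have hτ0 : 0 ≤ τ0 := le_trans (by positivity) h2
  have h5 := mul_le_mul_of_nonneg_left h1 hτ0
  linarith

theorem align (hP : Okc Γ D P) : ∃ (C : ℝ) (n k0 : ℕ), 1 ≤ C ∧ ∀ R ≥ k0, ∀ T : ℕ, 1 ≤ T →
    Real.exp (C * T) ≤ R → C * (1 + T) ^ n * √(P.c R) * (R + 1) ≤ 1 → ∀ θ τ0 : ℝ,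
    C * (R + 1) / P.c R ≤ τ0 → ∃ η : Dir → I, ∀ p : GH.PG Γ, lp P.m p ≤ T →
      ∃ j : ℤ, τ0 * BGM.tl (YY P Γ R η) (GH.rep p) = θ + 2 * Real.pi * j := by
  classical
  obtain ⟨C0, hC0, hcnt⟩ := OM_G6_cnt hP
  obtain ⟨C1, hC1, hsq⟩ := sq_margin hP
  obtain ⟨C2, n2, k2, hC2, hst⟩ := sq_stable hP
  obtain ⟨k3, hsame⟩ := tl_same hP
  obtain ⟨C4, n4, k4, hC4, hone⟩ := OM_G6_one hP
  refine ⟨max (C0 + C1) (max C2 C4), max n2 n4, max k2 (max k3 k4),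
    hC2.trans (le_trans (le_max_left _ _) (le_max_right _ _)), ?_⟩
  intro R hR T hT hexp hsm θ τ0 hτ
  have hTr : (1 : ℝ) ≤ T := by exact_mod_cast hT
  have hcpos : 0 < P.c R := hP.cx.cs.pos R
  have hRk2 : k2 ≤ R := le_trans (le_max_left _ _) hR
  have hRk3 : k3 ≤ R := le_trans ((le_max_left _ _).trans (le_max_right _ _)) hR
  have hRk4 : k4 ≤ R := le_trans ((le_max_right _ _).trans (le_max_right _ _)) hR
  have hCC2 : C2 ≤ max (C0 + C1) (max C2 C4) := (le_max_left _ _).trans (le_max_right _ _)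
  have hCC4 : C4 ≤ max (C0 + C1) (max C2 C4) := (le_max_right _ _).trans (le_max_right _ _)
  have hpw : ∀ (C' : ℝ) (n' : ℕ), 1 ≤ C' → C' ≤ max (C0 + C1) (max C2 C4) → n' ≤ max n2 n4 →
      C' * (1 + (T : ℝ)) ^ n' * √(P.c R) * (R + 1) ≤ 1 := by
    intro C' n' h1 h2 h3
    refine le_trans ?_ hsm
    have h4 : (1 + (T : ℝ)) ^ n' ≤ (1 + (T : ℝ)) ^ (max n2 n4) :=
      pow_le_pow_right₀ (by linarith) h3
    have h5 : (0 : ℝ) ≤ (1 + (T : ℝ)) ^ n' := by positivity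
    have h6 : (0 : ℝ) ≤ C' := by linarith
    have h7 : 0 ≤ √(P.c R) := Real.sqrt_nonneg _
    have h8 : C' * (1 + (T : ℝ)) ^ n' ≤
        max (C0 + C1) (max C2 C4) * (1 + (T : ℝ)) ^ (max n2 n4) :=
      mul_le_mul h2 h4 h5 (h6.trans h2)
    exact mul_le_mul_of_nonneg_right (mul_le_mul_of_nonneg_right h8 h7) (by positivity)
  have hsm2 := hpw C2 n2 hC2 hCC2 (le_max_left _ _)
  have hsm4 := hpw C4 n4 hC4 hCC4 (le_max_right _ _)
  have hτ4 : C4 * (R + 1) / P.c R ≤ τ0 := by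
    refine le_trans ?_ hτ
    gcongr
  obtain ⟨F, hF, hFc⟩ := hcnt (T : ℝ) (by linarith)
  have hsel : ∀ p ∈ F, ∃ γ : Γ, ∃ c ∈ grid P.L (R + 1),
      (∃ z, Sq R c (1 / 2) z ∧ Min P.m (γ * GH.rep p * γ⁻¹) z) ∧
      ∀ p' ∈ F, p' ≠ p → Avoid Γ P.m (GH.rep p') R c (5 / 2) := by
    intro p hp
    have e := (F.erase p).equivFin
    have hne : ∀ i (γ : Γ), γ * GH.rep (e.symm i).1 * γ⁻¹ ≠ GH.rep p ∧
        γ * GH.rep (e.symm i).1 * γ⁻¹ ≠ (GH.rep p)⁻¹ := by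
      intro i γ
      have h1 := Finset.ne_of_mem_erase (e.symm i).2
      constructor
      · intro h2
        exact h1 (OM_G6_inj (Or.inl (isConj_iff.2 ⟨γ, h2⟩)))
      · intro h2
        exact h1 (OM_G6_inj (Or.inr (isConj_iff.2 ⟨γ, h2⟩)))
    have hlen : ∀ i, BGM.tl P.m (GH.rep (e.symm i).1) ≤ T := by
      intro i
      exact (hF _).1 (Finset.mem_of_mem_erase (e.symm i).2)
    have hcard : (((F.erase p).card : ℕ) : ℝ) + 1 = F.card := by
      exact_mod_cast Finset.card_erase_add_one hp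
    have hle : ((((F.erase p).card : ℕ) : ℝ) + 1) * Real.exp (C1 * T) ≤ R := by
      rw [hcard]
      calc (F.card : ℝ) * Real.exp (C1 * T) ≤ Real.exp (C0 * T) * Real.exp (C1 * T) :=
            mul_le_mul_of_nonneg_right hFc (Real.exp_pos _).le
        _ = Real.exp ((C0 + C1) * T) := by rw [← Real.exp_add]; ring_nf
        _ ≤ Real.exp (max (C0 + C1) (max C2 C4) * T) := by
            refine Real.exp_le_exp.2 (mul_le_mul_of_nonneg_right (le_max_left _ _) ?_)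
            linarith
        _ ≤ R := hexp
    obtain ⟨γ, c, hc, hz, hav⟩ := hsq T (F.erase p).card (GH.rep p)
      (fun i => GH.rep (e.symm i).1) hT (GH.rep_prim p) (fun i => GH.rep_prim _) hne
      ((hF p).1 hp) hlen R hle
    refine ⟨γ, c, hc, hz, fun p' hp' hpp => ?_⟩
    have h1 := hav (e ⟨p', Finset.mem_erase.2 ⟨hpp, hp'⟩⟩)
    simpa using h1
  choose! γ c hc hz hav using hsel
  have hcinj : ∀ p ∈ F, ∀ p' ∈ F, c p = c p' → p = p' := by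
    intro p hp p' hp' hcc
    by_contra hne
    obtain ⟨z, hz1, hz2⟩ := hz p' hp'
    have h1 := hav p hp p' hp' (Ne.symm hne)
    have hmin : Min P.m (GH.rep p') ((γ p')⁻¹ • z) := by
      unfold Min at hz2 ⊢
      rw [BGM.B2_conj hP.cx.hX hP.cx.iv] at hz2
      rw [← hz2, ← BGM.B1_ds hP.cx.hX hP.cx.iv (γ p') ((γ p')⁻¹ • z), smul_inv_smul,
        mul_smul, mul_smul]
    have h2 := h1 _ hmin (γ p')
    rw [smul_inv_smul, hcc] at h2
    apply h2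
    unfold Sq at hz1 ⊢
    constructor
    · linarith [hz1.1]
    · linarith [hz1.2]
  have hs : ∀ p ∈ F, ∃ s : I, ∃ j : ℤ,
      τ0 * BGM.tl (YY P Γ R (OM_G6_s R (c p) s)) (GH.rep p) = θ + 2 * Real.pi * j := by
    intro p hp
    exact hone R hRk4 T (by linarith) hsm4 θ τ0 hτ4 (c p) (hc p hp) (GH.rep p) (γ p)
      (GH.prim_ne (GH.rep_prim p)) ((hF p).1 hp) (hz p hp)
  choose! s hs using hs
  let η : Dir → I := fun d => if h : ∃ p, p ∈ F ∧ d = (R, c p) then s h.choose else 0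
  have hη1 : ∀ p ∈ F, η (R, c p) = s p := by
    intro p hp
    have h : ∃ p', p' ∈ F ∧ (R, c p) = ((R, c p') : Dir) := ⟨p, hp, rfl⟩
    have h1 : η (R, c p) = s h.choose := dif_pos h
    have h2 := h.choose_spec
    exact h1.trans (congrArg s (hcinj p hp _ h2.1 (Prod.ext_iff.1 h2.2).2).symm)
  have hη0 : ∀ q : ℤ × ℤ, (∀ p ∈ F, q ≠ c p) → η (R, q) = 0 := by
    intro q hq
    refine dif_neg ?_
    rintro ⟨p, hp, h1⟩
    exact hq p hp (Prod.ext_iff.1 h1).2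
  refine ⟨η, fun p hp => ?_⟩
  have hpF : p ∈ F := (hF p).2 hp
  obtain ⟨j, hj⟩ := hs p hpF
  refine ⟨j, ?_⟩
  rw [← hj]
  congr 1
  have hg1 : GH.rep p ≠ 1 := GH.prim_ne (GH.rep_prim p)
  refine hsame R hRk3 η (OM_G6_s R (c p) (s p)) (GH.rep p) hg1 ?_ ?_
  · intro q
    by_cases hq : q = c p
    · rw [hq, OM_G6_s_same, hη1 p hpF]
    · rw [OM_G6_s_ne R hq]
      exact unitInterval.nonneg'
  · intro q hqg hqne
    by_cases hq : q = c p
    · exfalso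
      apply hqne
      rw [hq, OM_G6_s_same, hη1 p hpF]
    · rw [OM_G6_s_ne R hq] at hqne
      have h1 : ∃ p' ∈ F, q = c p' := by
        by_contra hcon
        push Not at hcon
        exact hqne (hη0 q hcon).symm
      obtain ⟨p', hp', rfl⟩ := h1
      have hpp : p ≠ p' := by
        rintro rfl
        exact hq rfl
      exact (hst R hRk2 T (by linarith) hsm2 (c p') hqg (GH.rep p) hg1 hp
        (OM_G6_s R (c p) (s p))).1 (hav p' hp' p hpF hpp)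

end OM21
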