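import Pool.Agent.LibOM21.Defs
import Pool.Agent.LibBE33.E1

/-! ROW S1 : a nonnegative bump function. SHORT. PLAN. The proof of `exists_IsB` (LibBE33/E1.lean) with two additional clauses: `b = (β * β)/(β * β)(0)`, `β = ContDiffBump` with radii `1/4`, `1/2`, so `b ≥ 0`; `(β * β)(t) = ∫ β s β (t - s) > 0` for `|t| < 1` (the integrand is continuous, `≥ 0`
and positive at `s = t/2`), continuous, so it has a positive minimum on `[-1/2, 1/2]`. The private lemmas of E1 have to be copied (rename). -/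

open MeasureTheory Set Filter Topology
open scoped ContDiff unitInterval

namespace OM21

open BGS BR BE B35

/-- the bump function of radii `1/4`, `1/2` -/
private noncomputable def OM_S1_beta : ContDiffBump (0 : ℝ) := ⟨1 / 4, 1 / 2, by norm_num, by norm_num⟩

/-- its convolution square -/
private noncomputable def OM_S1_b0 (t : ℝ) : ℝ := ∫ s, OM_S1_beta s * OM_S1_beta (t - s)

private theorem OM_S1_zero {s : ℝ} (h : 1 / 2 ≤ |s|) : OM_S1_beta s = 0 := by
  apply OM_S1_beta.zero_of_le_dist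
  rw [Real.dist_eq, sub_zero]
  exact h

private theorem OM_S1_eq : OM_S1_b0 = (convolution (fun s => OM_S1_beta s) (fun s => OM_S1_beta s)
    (ContinuousLinearMap.mul ℝ ℝ) volume) := by
  funext t
  rfl

private theorem OM_S1_smooth : ContDiff ℝ ∞ OM_S1_b0 := by
  rw [OM_S1_eq]
  exact OM_S1_beta.hasCompactSupport.contDiff_convolution_right (n := (⊤ : ℕ∞)) (ContinuousLinearMap.mul ℝ ℝ)
    (OM_S1_beta.continuous.locallyIntegrable) OM_S1_beta.contDiff

private theorem OM_S1_even (t : ℝ) : OM_S1_b0 (-t) = OM_S1_b0 t := by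
  unfold OM_S1_b0
  rw [← integral_neg_eq_self (fun s => OM_S1_beta s * OM_S1_beta (t - s)) volume]
  refine integral_congr_ae (Eventually.of_forall fun s => ?_)
  dsimp only
  rw [show t - -s = -(-t - s) by ring, OM_S1_beta.neg, OM_S1_beta.neg]

private theorem OM_S1_supp (t : ℝ) (ht : 1 < |t|) : OM_S1_b0 t = 0 := by
  unfold OM_S1_b0
  refine integral_eq_zero_of_ae (Eventually.of_forall fun s => ?_)
  simp only [Pi.zero_apply]
  rcases le_or_gt (1 / 2) |s| with h | h
  · rw [OM_S1_zero h, zero_mul]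
  · have h1 : 1 / 2 ≤ |t - s| := by
      have h2 : |t| ≤ |t - s| + |s| := by
        calc |t| = |(t - s) + s| := by ring_nf
          _ ≤ _ := abs_add_le _ _
      linarith
    rw [OM_S1_zero h1, mul_zero]

private theorem OM_S1_pos : 0 < OM_S1_b0 0 := by
  unfold OM_S1_b0
  have h1 : ∀ s : ℝ, OM_S1_beta s * OM_S1_beta (0 - s) = OM_S1_beta s * OM_S1_beta s := by
    intro s
    rw [zero_sub, OM_S1_beta.neg]
  simp only [h1]
  have hc : Continuous fun s => OM_S1_beta s * OM_S1_beta s := OM_S1_beta.continuous.mul OM_S1_beta.continuous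
  refine hc.integral_pos_of_hasCompactSupport_nonneg_nonzero (x := 0)
    (OM_S1_beta.hasCompactSupport.mul_left) (fun s => mul_self_nonneg _) ?_
  have h2 : OM_S1_beta (0 : ℝ) = 1 := OM_S1_beta.one_of_mem_closedBall
    (Metric.mem_closedBall_self OM_S1_beta.rIn_pos.le)
  rw [h2]
  norm_num

private theorem OM_S1_amp : FG33.IsAmp (fun t => ((OM_S1_beta t : ℝ) : ℂ)) := by
  refine ⟨Complex.ofRealCLM.contDiff.comp OM_S1_beta.contDiff, ?_, fun t => ?_⟩
  · exact OM_S1_beta.hasCompactSupport.comp_left (g := fun x : ℝ => (x : ℂ)) (by simp)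
  · rw [OM_S1_beta.neg, Complex.conj_ofReal]

private theorem OM_S1_int (y : ℝ) :
    ∫ t, ((OM_S1_b0 t : ℝ) : ℂ) * Complex.exp (Complex.I * (t * y : ℝ)) =
      ((FG33.tf (fun t => ((OM_S1_beta t : ℝ) : ℂ)) y : ℝ) : ℂ) ^ 2 := by
  rw [← GWin.tf_real OM_S1_amp y]
  set g : ℝ → ℂ := fun t => ((OM_S1_beta t : ℝ) : ℂ) * Complex.exp (Complex.I * (t * y : ℝ)) with hg
  have hgc : Continuous g := by
    rw [hg]
    have h1 : Continuous fun t : ℝ => ((OM_S1_beta t : ℝ) : ℂ) :=
      Complex.continuous_ofReal.comp OM_S1_beta.continuous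
    refine h1.mul ?_
    fun_prop
  have hgs : HasCompactSupport g := by
    rw [hg]
    exact HasCompactSupport.mul_right OM_S1_amp.supp
  have hgi : Integrable g := hgc.integrable_of_hasCompactSupport hgs
  have h2 := integral_convolution (𝕜 := ℝ) (ContinuousLinearMap.mul ℝ ℂ) hgi hgi (μ := volume) (ν := volume)
  rw [pow_two]
  refine Eq.trans ?_ (h2.trans ?_)
  · refine integral_congr_ae (Eventually.of_forall fun t => ?_)
    dsimp only
    rw [convolution_def]
    unfold OM_S1_b0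
    rw [← integral_complex_ofReal, ← integral_mul_const]
    refine integral_congr_ae (Eventually.of_forall fun s => ?_)
    simp only [hg, ContinuousLinearMap.mul_apply']
    push_cast
    rw [show Complex.I * ((t : ℂ) * (y : ℂ)) = Complex.I * ((s : ℂ) * (y : ℂ)) +
      Complex.I * (((t : ℂ) - (s : ℂ)) * (y : ℂ)) by ring, Complex.exp_add]
    ring
  · rfl

private theorem OM_S1_tf (y : ℝ) : FG33.tf (fun t => ((OM_S1_b0 t : ℝ) : ℂ)) y =
    (FG33.tf (fun t => ((OM_S1_beta t : ℝ) : ℂ)) y) ^ 2 := by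
  conv_lhs => unfold FG33.tf
  rw [OM_S1_int y, ← Complex.ofReal_pow, Complex.ofReal_re]

private theorem OM_S1_nonneg (t : ℝ) : 0 ≤ OM_S1_b0 t := by
  unfold OM_S1_b0
  exact integral_nonneg fun s => mul_nonneg (OM_S1_beta.nonneg) (OM_S1_beta.nonneg)

private theorem OM_S1_pos' {t : ℝ} (ht : |t| ≤ 1 / 2) : 0 < OM_S1_b0 t := by
  unfold OM_S1_b0
  have hc : Continuous fun s => OM_S1_beta s * OM_S1_beta (t - s) :=
    OM_S1_beta.continuous.mul (OM_S1_beta.continuous.comp (continuous_const.sub continuous_id))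
  have hone : OM_S1_beta (t / 2) = 1 := by
    refine OM_S1_beta.one_of_mem_closedBall ?_
    rw [Metric.mem_closedBall, Real.dist_eq, sub_zero, abs_div, abs_two]
    change |t| / 2 ≤ 1 / 4
    linarith
  refine hc.integral_pos_of_hasCompactSupport_nonneg_nonzero (x := t / 2)
    (OM_S1_beta.hasCompactSupport.mul_right)
    (fun s => mul_nonneg (OM_S1_beta.nonneg) (OM_S1_beta.nonneg)) ?_
  rw [show t - t / 2 = t / 2 by ring, hone]
  norm_num

private theorem OM_S1_min : ∃ c : ℝ, 0 < c ∧ ∀ t, |t| ≤ 1 / 2 → c ≤ OM_S1_b0 t := by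
  have hc : ContinuousOn OM_S1_b0 (Set.Icc (-(1 / 2) : ℝ) (1 / 2)) :=
    OM_S1_smooth.continuous.continuousOn
  obtain ⟨t0, ht0, hmin⟩ := isCompact_Icc.exists_isMinOn ⟨0, by norm_num, by norm_num⟩ hc
  exact ⟨OM_S1_b0 t0, OM_S1_pos' (abs_le.2 ht0), fun t ht => hmin (abs_le.1 ht)⟩

theorem exists_b : ∃ (b : ℝ → ℝ) (c0 : ℝ), BE33.IsB b ∧ (∀ t, 0 ≤ b t) ∧ 0 < c0 ∧
    ∀ t, |t| ≤ 1 / 2 → c0 ≤ b t := by
  have htf : ∀ y, FG33.tf (fun t => ((OM_S1_b0 t / OM_S1_b0 0 : ℝ) : ℂ)) y =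
      (FG33.tf (fun t => ((OM_S1_beta t : ℝ) : ℂ)) y) ^ 2 / OM_S1_b0 0 := by
    intro y
    rw [← OM_S1_tf y]
    unfold FG33.tf
    have h1 : (fun t : ℝ => ((OM_S1_b0 t / OM_S1_b0 0 : ℝ) : ℂ) * Complex.exp (Complex.I * (t * y : ℝ))) =
        fun t : ℝ => (((OM_S1_b0 t : ℝ) : ℂ) * Complex.exp (Complex.I * (t * y : ℝ))) /
          ((OM_S1_b0 0 : ℝ) : ℂ) := by
      funext t
      push_cast
      ring
    rw [h1, integral_div, Complex.div_ofReal_re]
  obtain ⟨c, hc, hmin⟩ := OM_S1_min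
  refine ⟨fun t => OM_S1_b0 t / OM_S1_b0 0, c / OM_S1_b0 0, ⟨OM_S1_smooth.div_const _, fun t => ?_,
    fun t ht => ?_, ?_, fun y => ?_, ?_⟩, fun t => div_nonneg (OM_S1_nonneg t) OM_S1_pos.le,
    div_pos hc OM_S1_pos, fun t ht => div_le_div_of_nonneg_right (hmin t ht) OM_S1_pos.le⟩
  · rw [OM_S1_even]
  · rw [OM_S1_supp t ht, zero_div]
  · exact div_self OM_S1_pos.ne'
  · rw [htf]
    have := OM_S1_pos
    positivity
  · rw [htf]
    have h0 := OM_S1_pos
    have h1 : FG33.tf (fun t => ((OM_S1_beta t : ℝ) : ℂ)) 0 = ∫ t, OM_S1_beta t := by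
      unfold FG33.tf
      have h2 : (fun t : ℝ => ((OM_S1_beta t : ℝ) : ℂ) * Complex.exp (Complex.I * (t * (0 : ℝ) : ℝ))) =
          fun t : ℝ => ((OM_S1_beta t : ℝ) : ℂ) := by
        funext t
        simp
      rw [h2, integral_complex_ofReal, Complex.ofReal_re]
    rw [h1]
    have h2 : 0 < ∫ t, OM_S1_beta t := OM_S1_beta.integral_pos
    positivity

end OM21
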