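import Pool.Agent.LibOM21.Defs
import Pool.Agent.LibBE33.E5

/-! ROW S2 : `Qf` of `aL` and the smoothed counting functions, uniformly in the levels. MEDIUM (copy of `E5_Qf` in LibBE33/E5.lean with the constant made uniform; the private lemmas have to be copied, rename).
PLAN. `Lev κ` follows from `Lu C κ` (`GWin.Lev`: `c √n ≤ κ n + 1`): NOT needed with a uniform constant except for the sum: `∑' 1/(1 + κ k)^4 ≤ K(C)` for all `κ` with `Lu C κ` (the levels in `[i, i+1)` are at most `C (i+1)²`, `i ≥ 0`; `B36.T14_levels` (LibBE36T/T14) gives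
`Summable 1/(1 + |κ j - τ|)^4` and the sum `≤ 8 C τ²`: take `τ = 1`). For `Lev κ` itself: `κ n ≥ c √n - 1` from the count at `y = κ n` (`n + 1`-st level, monotone or not: `{k | κ k ≤ y}` finite for all `y`; if `GWin.Lev` is only used for summability, replace it by `T14_levels`).
The estimate: `f = tf (aL b l L)` is odd, `|f y| ≤ K/(1 + l |y|)^6` with `K` independent of `L`; `2 hh = f (κ - τ) + f (-κ - τ)` (`hh_osc`), the reflected sum is `≤ ∑ K/(1 + l (κ + 1))^6`, `main_int` for the odd function `f`. -/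

open MeasureTheory Set Filter Topology
open scoped ContDiff unitInterval

namespace OM21

open BGS BR BE B35

private theorem OM_S2_lev {C : ℝ} {κ : ℕ → ℝ} (h : Lu C κ) :
    Summable (fun n => 1 / (κ n + 1) ^ 4) ∧ ∑' n, 1 / (κ n + 1) ^ 4 ≤ 128 * max C 0 := by
  have hC : 0 ≤ C := by
    have h1 := (h.cnt 1 le_rfl).2
    have h2 : (0 : ℝ) ≤ (({k | κ k ≤ 1} : Set ℕ).ncard : ℝ) := Nat.cast_nonneg _
    linarith
  obtain ⟨h1, h2⟩ := B36.T14_levels hC h.cnt (le_refl (1 : ℝ))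
  have h3 : ∀ n, 1 / (κ n + 1) ^ 4 ≤ 16 * (1 / (1 + |κ n - 1|) ^ 4) := by
    intro n
    have hn := h.nn n
    have h4 : 1 + |κ n - 1| ≤ 2 * (κ n + 1) := by
      rcases le_total (κ n) 1 with h5 | h5
      · rw [abs_of_nonpos (by linarith)]
        linarith
      · rw [abs_of_nonneg (by linarith)]
        linarith
    have h5 : 0 < 1 + |κ n - 1| := by positivity
    rw [mul_one_div, div_le_div_iff₀ (by positivity) (by positivity)]
    calc 1 * (1 + |κ n - 1|) ^ 4 ≤ 1 * (2 * (κ n + 1)) ^ 4 := by gcongr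
      _ = 16 * (κ n + 1) ^ 4 := by ring
  have h0 : ∀ n, 0 ≤ 1 / (κ n + 1) ^ 4 := fun n => by
    have := h.nn n
    positivity
  have h4 : Summable (fun n => 1 / (κ n + 1) ^ 4) :=
    Summable.of_nonneg_of_le h0 h3 (h1.mul_left 16)
  refine ⟨h4, ?_⟩
  calc ∑' n, 1 / (κ n + 1) ^ 4 ≤ ∑' n, 16 * (1 / (1 + |κ n - 1|) ^ 4) :=
        h4.tsum_le_tsum h3 (h1.mul_left 16)
    _ = 16 * ∑' n, 1 / (1 + |κ n - 1|) ^ 4 := tsum_mul_left
    _ ≤ 16 * (8 * C * 1 ^ 2) := by gcongr
    _ = 128 * C := by ring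
    _ ≤ 128 * max C 0 := by
      have := le_max_left C 0
      linarith

private theorem OM_S2_dec {b : ℝ → ℝ} (hb : BE33.IsB b) :
    ∃ D : ℝ, 0 < D ∧ ∀ y, BE33.WW b y ≤ D / (1 + max y 0) ^ 4 := by
  obtain ⟨-, h01, -, -, hdec, -⟩ := BE33.WW_prop hb
  obtain ⟨C, hC, h⟩ := hdec 4
  refine ⟨max C 1, lt_max_of_lt_left hC, fun y => ?_⟩
  rcases le_total 0 y with hy | hy
  · rw [max_eq_left hy]
    refine (h y hy).trans ?_
    gcongr
    exact le_max_left _ _
  · rw [max_eq_right hy, add_zero, one_pow, div_one]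
    exact (h01 y).2.trans (le_max_right _ _)

private theorem OM_S2_sum {b : ℝ → ℝ} (hb : BE33.IsB b) {κ : ℕ → ℝ} (hnn : ∀ n, 0 ≤ κ n)
    (hz : Summable fun n => 1 / (κ n + 1) ^ 4) {l : ℝ} (hl : 0 < l) (L : ℝ)
    (hL : l ≤ L) (τ : ℝ) : Summable fun k => BE33.WW b (L * (κ k - τ)) := by
  obtain ⟨D, hD, hd⟩ := OM_S2_dec hb
  have h0 := (BE33.WW_prop hb).2.1
  have hL0 : 0 < L := hl.trans_le hL
  have hm : 0 < min 1 L := lt_min one_pos hL0
  refine Summable.of_nonneg_of_le (fun k => (h0 _).1) (fun k => ?_)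
    ((hz).mul_left (D * ((1 + |τ|) / min 1 L) ^ 4))
  have hκ := hnn k
  have hτ := abs_nonneg τ
  have h3 : min 1 L / (1 + |τ|) * (κ k + 1) ≤ 1 + max (L * (κ k - τ)) 0 := by
    rw [div_mul_eq_mul_div, div_le_iff₀ (by positivity)]
    rcases le_total τ (κ k) with h4 | h4
    · have h7 : 0 ≤ κ k - τ := sub_nonneg.2 h4
      rw [max_eq_left (mul_nonneg hL0.le h7)]
      have h5 : min 1 L * (1 + (κ k - τ)) ≤ 1 + L * (κ k - τ) := by
        rw [mul_add, mul_one]
        exact add_le_add (min_le_left _ _) (mul_le_mul_of_nonneg_right (min_le_right _ _) h7)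
      have h6 : κ k + 1 ≤ (1 + (κ k - τ)) * (1 + |τ|) := by
        nlinarith [le_abs_self τ, mul_nonneg hτ h7]
      calc min 1 L * (κ k + 1) ≤ min 1 L * ((1 + (κ k - τ)) * (1 + |τ|)) := by gcongr
        _ = min 1 L * (1 + (κ k - τ)) * (1 + |τ|) := by ring
        _ ≤ (1 + L * (κ k - τ)) * (1 + |τ|) := by gcongr
    · rw [max_eq_right (mul_nonpos_of_nonneg_of_nonpos hL0.le (sub_nonpos.2 h4)), add_zero,
        one_mul]
      calc min 1 L * (κ k + 1) ≤ 1 * (κ k + 1) :=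
            mul_le_mul_of_nonneg_right (min_le_left _ _) (by linarith)
        _ ≤ 1 + |τ| := by linarith [le_abs_self τ]
  have h4 : 0 < min 1 L / (1 + |τ|) * (κ k + 1) := by positivity
  calc BE33.WW b (L * (κ k - τ)) ≤ D / (1 + max (L * (κ k - τ)) 0) ^ 4 := hd _
    _ ≤ D / (min 1 L / (1 + |τ|) * (κ k + 1)) ^ 4 := by gcongr
    _ = _ := by
      have := hm.ne'
      field_simp

theorem E5u {b : ℝ → ℝ} (hb : BE33.IsB b) {l : ℝ} (hl : 0 < l) (C : ℝ) :
    ∃ C' : ℝ, 0 ≤ C' ∧ ∀ κ : ℕ → ℝ, Lu C κ → ∀ L : ℝ, l ≤ L → ∀ τ : ℝ, 1 ≤ τ →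
      |2 * BE33.Qf κ 1 (BE33.aL b l L) τ -
        (∑' k, BE33.WW b (L * (κ k - τ)) - ∑' k, BE33.WW b (l * (κ k - τ)))| ≤ C' := by
  obtain ⟨hanti, h01, hsym, -, hdec, -⟩ := BE33.WW_prop hb
  obtain ⟨C4, hC4, hdec⟩ := hdec 4
  obtain ⟨S, hS⟩ : ∃ S : ℝ, S = 128 * max C 0 := ⟨_, rfl⟩
  have hS0 : 0 ≤ S := by
    rw [hS]
    positivity
  have hm : 0 < min 1 l := lt_min one_pos hl
  set G : ℝ → ℝ := fun z => C4 / min 1 l ^ 4 * (1 + ‖z‖) ^ (-(3 : ℝ)) with hG
  have hGi : Integrable G :=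
    (integrable_one_add_norm (μ := (volume : Measure ℝ)) (by simp)).const_mul _
  have hG0 : ∀ z, 0 ≤ G z := fun z => by
    rw [hG]
    positivity
  set I1 := ∫ z, G z with hI1
  have hI0 : 0 ≤ I1 := integral_nonneg hG0
  have hpi := Real.pi_pos
  refine ⟨C4 / l ^ 4 * S + 1 / Real.pi * (3 / 2 * I1) + 1, by positivity, fun κ hLu L hL τ hτ => ?_⟩
  have hnn := hLu.nn
  obtain ⟨hz, hzS⟩ := OM_S2_lev hLu
  rw [← hS] at hzS
  set a := BE33.aL b l L with ha
  have hamp : FG33.IsAmp a := BE33.aL_isAmp hb hl hL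
  have hL0 : 0 < L := hl.trans_le hL
  -- the transform
  have hf : ∀ y, FG33.tf a y = BE33.WW b (L * y) - BE33.WW b (l * y) := BE33.tf_aL hb hl hL
  have hodd : ∀ y, FG33.tf a (-y) = -FG33.tf a y := by
    intro y
    rw [hf, hf]
    have h1 := hsym (L * y)
    have h2 := hsym (l * y)
    rw [← mul_neg] at h1 h2
    linarith
  have hbd0 : ∀ y, 0 ≤ y → |FG33.tf a y| ≤ C4 / (1 + l * y) ^ 4 := by
    intro y hy
    have h1 : BE33.WW b (L * y) ≤ BE33.WW b (l * y) := hanti (mul_le_mul_of_nonneg_right hL hy)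
    have h2 := (h01 (L * y)).1
    rw [hf, abs_of_nonpos (by linarith)]
    refine le_trans ?_ (hdec (l * y) (mul_nonneg hl.le hy))
    linarith
  have hbd : ∀ y, |FG33.tf a y| ≤ C4 / (1 + l * |y|) ^ 4 := by
    intro y
    rcases le_total 0 y with hy | hy
    · rw [abs_of_nonneg hy]
      exact hbd0 y hy
    · have h1 := hbd0 (-y) (by linarith)
      rw [hodd, abs_neg] at h1
      rw [abs_of_nonpos hy]
      exact h1
  -- the reflected sum
  have hrefl : ∀ n, ‖FG33.tf a (-κ n - τ)‖ ≤ C4 / l ^ 4 * (1 / (κ n + 1) ^ 4) := by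
    intro n
    have hκ := hnn n
    rw [Real.norm_eq_abs]
    refine (hbd _).trans ?_
    have h1 : |(-κ n - τ)| = κ n + τ := by
      rw [abs_of_nonpos (by linarith)]
      ring
    rw [h1]
    have h2 : l * (κ n + 1) ≤ 1 + l * (κ n + τ) := by nlinarith
    calc C4 / (1 + l * (κ n + τ)) ^ 4 ≤ C4 / (l * (κ n + 1)) ^ 4 := by gcongr
      _ = _ := by
        rw [mul_pow]
        field_simp
  have hsum := (hz).mul_left (C4 / l ^ 4)
  have hs2 : Summable fun n => FG33.tf a (-κ n - τ) := Summable.of_norm_bounded hsum hrefl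
  have hr : |∑' n, FG33.tf a (-κ n - τ)| ≤ C4 / l ^ 4 * S := by
    have h1 := tsum_of_norm_bounded hsum.hasSum hrefl
    rw [Real.norm_eq_abs, tsum_mul_left] at h1
    exact h1.trans (mul_le_mul_of_nonneg_left hzS (by positivity))
  -- the main sum
  have hsL := OM_S2_sum hb hnn hz hl L hL τ
  have hsl := OM_S2_sum hb hnn hz hl l le_rfl τ
  have hs1 : Summable fun n => FG33.tf a (κ n - τ) := by
    have h1 : (fun n => FG33.tf a (κ n - τ)) =
        fun n => BE33.WW b (L * (κ n - τ)) - BE33.WW b (l * (κ n - τ)) := funext fun n => hf _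
    rw [h1]
    exact hsL.sub hsl
  have e1 : ∑' n, FG33.tf a (κ n - τ) =
      ∑' k, BE33.WW b (L * (κ k - τ)) - ∑' k, BE33.WW b (l * (κ k - τ)) := by
    rw [← hsL.tsum_sub hsl]
    exact tsum_congr fun n => hf _
  have e2 : ∑' k, BR.hh (BR.osc a τ) (κ k) =
      (∑' n, FG33.tf a (κ n - τ) + ∑' n, FG33.tf a (-κ n - τ)) / 2 := by
    rw [← hs1.tsum_add hs2, ← tsum_div_const]
    exact tsum_congr fun n => BE33.hh_osc hamp τ (κ n)
  -- the integrals
  have hi : Integrable (FG33.tf a) := GWin.tf_int hamp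
  have hi1 : Integrable fun z => FG33.tf a z * z := by
    refine (GWin.tf_int1 hamp).mono' ((GWin.tf_cont hamp).mul continuous_id).aestronglyMeasurable
      (Eventually.of_forall fun z => ?_)
    rw [Real.norm_eq_abs, abs_mul, mul_comm]
  have hfz : ∀ z, |FG33.tf a z * z| ≤ G z := by
    intro z
    have hz := abs_nonneg z
    rw [abs_mul]
    have h1 : min 1 l * (1 + |z|) ≤ 1 + l * |z| := by
      rw [mul_add, mul_one]
      exact add_le_add (min_le_left _ _) (mul_le_mul_of_nonneg_right (min_le_right _ _) hz)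
    have h2 : |FG33.tf a z| * |z| ≤ C4 / (min 1 l * (1 + |z|)) ^ 4 * (1 + |z|) := by
      refine mul_le_mul ((hbd z).trans ?_) (by linarith) hz (by positivity)
      gcongr
    refine h2.trans (le_of_eq ?_)
    have h3 : (1 + ‖z‖) ^ (-(3 : ℝ)) = 1 / (1 + |z|) ^ 3 := by
      rw [Real.rpow_neg (by positivity), Real.norm_eq_abs, one_div]
      norm_cast
    have h4 : G z = C4 / min 1 l ^ 4 * (1 + ‖z‖) ^ (-(3 : ℝ)) := rfl
    rw [h4, h3]
    have h5 := hm.ne'
    have h6 : (1 + |z|) ≠ 0 := by positivity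
    field_simp
  have hzero : ∫ z, FG33.tf a z = 0 := by
    have h1 := integral_neg_eq_self (FG33.tf a) volume
    simp only [hodd] at h1
    rw [integral_neg] at h1
    linarith
  have e3 : ∫ z, FG33.tf a z * (z + τ) = ∫ z, FG33.tf a z * z := by
    have h1 : (fun z => FG33.tf a z * (z + τ)) =
        fun z => FG33.tf a z * z + FG33.tf a z * τ := by
      funext z
      ring
    rw [h1, integral_add hi1 (hi.mul_const τ), integral_mul_const, hzero, zero_mul, add_zero]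
  have b1 : |∫ z, FG33.tf a z * z| ≤ I1 := by
    rw [← Real.norm_eq_abs]
    exact norm_integral_le_of_norm_le hGi (Eventually.of_forall fun z => hfz z)
  have b2 : |∫ z in Iio (-τ), FG33.tf a z * (-z - τ)| ≤ I1 := by
    have h1 : |∫ z in Iio (-τ), FG33.tf a z * (-z - τ)| ≤ ∫ z in Iio (-τ), G z := by
      rw [← Real.norm_eq_abs]
      refine norm_integral_le_of_norm_le hGi.integrableOn ?_
      filter_upwards [ae_restrict_mem measurableSet_Iio] with z hz
      rw [mem_Iio] at hz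
      refine le_trans ?_ (hfz z)
      rw [Real.norm_eq_abs, abs_mul, abs_mul]
      refine mul_le_mul_of_nonneg_left ?_ (abs_nonneg _)
      rw [abs_of_nonneg (by linarith), abs_of_neg (by linarith)]
      linarith
    exact h1.trans (setIntegral_le_integral hGi (Eventually.of_forall hG0))
  -- assembly
  have e4 : 2 * BE33.Qf κ 1 a τ - (∑' k, BE33.WW b (L * (κ k - τ)) - ∑' k, BE33.WW b (l * (κ k - τ))) =
      ∑' n, FG33.tf a (-κ n - τ) - 1 / Real.pi * ((∫ z, FG33.tf a z * z) / 2 +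
        ∫ z in Iio (-τ), FG33.tf a z * (-z - τ)) := by
    unfold BE33.Qf
    rw [e2, BE33.main_int hamp, e3, e1]
    have := Real.pi_ne_zero
    field_simp
    ring
  rw [e4]
  have h5 : |(∫ z, FG33.tf a z * z) / 2 + ∫ z in Iio (-τ), FG33.tf a z * (-z - τ)| ≤
      3 / 2 * I1 := by
    refine (abs_add_le _ _).trans ?_
    rw [abs_div, abs_of_pos (by norm_num : (0 : ℝ) < 2)]
    linarith
  have h6 : |1 / Real.pi * ((∫ z, FG33.tf a z * z) / 2 +
      ∫ z in Iio (-τ), FG33.tf a z * (-z - τ))| ≤ 1 / Real.pi * (3 / 2 * I1) := by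
    rw [abs_mul, abs_div, abs_of_pos hpi, abs_one]
    exact mul_le_mul_of_nonneg_left h5 (by positivity)
  have h7 := abs_sub (∑' n, FG33.tf a (-κ n - τ)) (1 / Real.pi * ((∫ z, FG33.tf a z * z) / 2 +
    ∫ z in Iio (-τ), FG33.tf a z * (-z - τ)))
  linarith

end OM21
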