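import Pool.Agent.LibOM21.S2
import Pool.Agent.LibBE33.E8

/-! ROW S3 : the smoothed counting function of the fixed scale has a bounded remainder. MEDIUM (copy of `E8_refl`, `E8_tail`, `E8_main`, `E8_fixed` in LibBE33/E8.lean with constants uniform in the levels and the decay `1/τ²` in place of `1/√τ`).
PLAN. `N τ = ∑' WW b (l (κ k - τ))` has the derivative `(l/(2π)) ∑' ww b (l (κ k - τ))`, and `∑' ww b (l (κ k - τ)) = τ/l + 2 Qf (a0) - refl + tail/π` (proof of `E8_fixed`), `|refl| ≤ K/τ²` (`ww b (l (-κ - τ)) ≤ K/(1 + l (κ + τ))^6 ≤ K'/(τ² (1 + κ)^4)`, sum over the levels uniform: `B36.T14_levels` at `τ = 1`),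
`|tail| ≤ K/τ²`, `|Qf (a0)| ≤ C/τ²` for `τ ≥ C`. So `N τ - τ²/(4π)` has a derivative `O(1/τ²)` for `τ ≥ max C 1`: its values for `τ ≥ C` differ by at most a constant from the value at `max C 1`, and for `1 ≤ τ ≤ max C 1` both terms are bounded: `N τ ≤ ∑ K/(1 + ..)^4`-type bound from `Lu C κ`
(`WW ≤ 1` for the levels `≤ τ + 1`, at most `C (τ+1)²`; decay beyond, `T14_levels`). -/

open MeasureTheory Set Filter Topology
open scoped ContDiff unitInterval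

namespace OM21

open BGS BR BE B35

/-- the levels: sums of the fourth powers -/
private theorem OM_S3_lev {C : ℝ} (hC : 0 ≤ C) {κ : ℕ → ℝ} (h : Lu C κ) :
    Summable (fun n => 1 / (κ n + 1) ^ 4) ∧ ∑' n, 1 / (κ n + 1) ^ 4 ≤ 128 * C := by
  obtain ⟨h1, h2⟩ := B36.T14_levels hC h.cnt (τ := 1) le_rfl
  have h3 : ∀ n, 1 / (κ n + 1) ^ 4 ≤ 16 * (1 / (1 + |κ n - 1|) ^ 4) := by
    intro n
    have h0 := h.nn n
    have h4 : 1 + |κ n - 1| ≤ 2 * (κ n + 1) := by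
      have : |κ n - 1| ≤ κ n + 1 := abs_le.2 ⟨by linarith, by linarith⟩
      linarith
    have h5 : 0 < 1 + |κ n - 1| := by positivity
    have h6 : (1 + |κ n - 1|) ^ 4 ≤ (2 * (κ n + 1)) ^ 4 := pow_le_pow_left₀ h5.le h4 4
    rw [mul_one_div, div_le_div_iff₀ (by positivity) (by positivity)]
    calc 1 * (1 + |κ n - 1|) ^ 4 ≤ (2 * (κ n + 1)) ^ 4 := by rw [one_mul]; exact h6
      _ = 16 * (κ n + 1) ^ 4 := by ring
  have h4 : Summable (fun n => 1 / (κ n + 1) ^ 4) :=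
    Summable.of_nonneg_of_le (fun n => by have := h.nn n; positivity) h3 (h1.mul_left 16)
  refine ⟨h4, ?_⟩
  calc ∑' n, 1 / (κ n + 1) ^ 4 ≤ ∑' n, 16 * (1 / (1 + |κ n - 1|) ^ 4) :=
        h4.tsum_le_tsum h3 (h1.mul_left 16)
    _ = 16 * ∑' n, 1 / (1 + |κ n - 1|) ^ 4 := tsum_mul_left
    _ ≤ 16 * (8 * C * 1 ^ 2) := by gcongr
    _ = 128 * C := by ring

/-- uniform bound of the terms -/
private theorem OM_S3_term {b : ℝ → ℝ} {B : ℝ} (hB : 0 < B)
    (hb : ∀ y, BE33.ww b y ≤ B / (1 + |y|) ^ 4)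
    {x : ℝ} (h0 : 0 ≤ x) {L : ℝ} (hL : 0 < L) (τ : ℝ) :
    BE33.ww b (L * (x - τ)) ≤ B * ((1 + |τ|) / min 1 L) ^ 4 * (1 / (x + 1) ^ 4) := by
  have hm : 0 < min 1 L := lt_min one_pos hL
  have h1 : min 1 L * (1 + |x - τ|) ≤ 1 + |L * (x - τ)| := by
    rw [abs_mul, abs_of_pos hL, mul_add, mul_one]
    have := abs_nonneg (x - τ)
    exact add_le_add (min_le_left _ _) (mul_le_mul_of_nonneg_right (min_le_right _ _) this)
  have h2 : x + 1 ≤ (1 + |τ|) * (1 + |x - τ|) := by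
    have h3 := abs_nonneg τ
    have h4 := abs_nonneg (x - τ)
    have h5 := le_abs_self (x - τ)
    have h6 := le_abs_self τ
    nlinarith [mul_nonneg h3 h4]
  have h3 : min 1 L / (1 + |τ|) * (x + 1) ≤ 1 + |L * (x - τ)| := by
    refine le_trans ?_ h1
    rw [div_mul_eq_mul_div, div_le_iff₀ (by positivity)]
    calc min 1 L * (x + 1) ≤ min 1 L * ((1 + |τ|) * (1 + |x - τ|)) := by gcongr
      _ = _ := by ring
  refine (hb _).trans ?_
  have h4 : 0 < min 1 L / (1 + |τ|) * (x + 1) := by positivity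
  calc B / (1 + |L * (x - τ)|) ^ 4 ≤ B / (min 1 L / (1 + |τ|) * (x + 1)) ^ 4 := by gcongr
    _ = _ := by
      have := hm.ne'
      field_simp

/-- the decay of the step function -/
private theorem OM_S3_dec {b : ℝ → ℝ} (hb : BE33.IsB b) {l : ℝ} (hl : 0 < l) :
    ∃ D : ℝ, 0 < D ∧ ∀ x : ℝ, 0 ≤ x → ∀ τ : ℝ, BE33.WW b (l * (x - τ)) ≤
      D * ((1 + |τ|) / min 1 l) ^ 4 * (1 / (x + 1) ^ 4) := by
  obtain ⟨-, h01, -, -, hdec, -⟩ := BE33.WW_prop hb
  obtain ⟨C, hC, h⟩ := hdec 4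
  have hd : ∀ y, BE33.WW b y ≤ max C 1 / (1 + max y 0) ^ 4 := by
    intro y
    rcases le_total 0 y with hy | hy
    · rw [max_eq_left hy]
      refine (h y hy).trans ?_
      gcongr
      exact le_max_left _ _
    · rw [max_eq_right hy, add_zero, one_pow, div_one]
      exact (h01 y).2.trans (le_max_right _ _)
  have hD : 0 < max C 1 := lt_max_of_lt_left hC
  refine ⟨max C 1, hD, fun x hκ τ => ?_⟩
  have hm : 0 < min 1 l := lt_min one_pos hl
  have hτ := abs_nonneg τ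
  have h3 : min 1 l / (1 + |τ|) * (x + 1) ≤ 1 + max (l * (x - τ)) 0 := by
    rw [div_mul_eq_mul_div, div_le_iff₀ (by positivity)]
    rcases le_total τ x with h4 | h4
    · have h7 : 0 ≤ x - τ := sub_nonneg.2 h4
      rw [max_eq_left (mul_nonneg hl.le h7)]
      have h5 : min 1 l * (1 + (x - τ)) ≤ 1 + l * (x - τ) := by
        rw [mul_add, mul_one]
        exact add_le_add (min_le_left _ _) (mul_le_mul_of_nonneg_right (min_le_right _ _) h7)
      have h6 : x + 1 ≤ (1 + (x - τ)) * (1 + |τ|) := by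
        nlinarith [le_abs_self τ, mul_nonneg hτ h7]
      calc min 1 l * (x + 1) ≤ min 1 l * ((1 + (x - τ)) * (1 + |τ|)) := by gcongr
        _ = min 1 l * (1 + (x - τ)) * (1 + |τ|) := by ring
        _ ≤ (1 + l * (x - τ)) * (1 + |τ|) := by gcongr
    · rw [max_eq_right (mul_nonpos_of_nonneg_of_nonpos hl.le (sub_nonpos.2 h4)), add_zero,
        one_mul]
      calc min 1 l * (x + 1) ≤ 1 * (x + 1) :=
            mul_le_mul_of_nonneg_right (min_le_left _ _) (by linarith)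
        _ ≤ 1 + |τ| := by linarith [le_abs_self τ]
  have h4 : 0 < min 1 l / (1 + |τ|) * (x + 1) := by positivity
  calc BE33.WW b (l * (x - τ)) ≤ max C 1 / (1 + max (l * (x - τ)) 0) ^ 4 := hd _
    _ ≤ max C 1 / (min 1 l / (1 + |τ|) * (x + 1)) ^ 4 := by gcongr
    _ = _ := by
      have := hm.ne'
      field_simp

/-- the reflected sum of the levels -/
private theorem OM_S3_refl {b : ℝ → ℝ} (hb : BE33.IsB b) {l : ℝ} (hl : 0 < l) {S : ℝ}
    (hS : 0 ≤ S) : ∃ K : ℝ, 0 ≤ K ∧ ∀ κ : ℕ → ℝ, (∀ n, 0 ≤ κ n) →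
      Summable (fun n => 1 / (κ n + 1) ^ 4) → ∑' n, 1 / (κ n + 1) ^ 4 ≤ S → ∀ τ : ℝ, 1 ≤ τ →
      Summable (fun k => BE33.ww b (l * (-κ k - τ))) ∧
      |∑' k, BE33.ww b (l * (-κ k - τ))| ≤ K / τ ^ 2 := by
  obtain ⟨hwc, hwi, hwnn, hwe, hwt, hwd⟩ := BE33.ww_prop hb
  obtain ⟨B, hB, hBd⟩ := hwd 6
  have hm : 0 < min 1 l := lt_min one_pos hl
  refine ⟨B / (min 1 l) ^ 6 * S, by positivity, fun κ hnn hz hzS τ hτ => ?_⟩
  have hτ0 : 0 < τ := by linarith
  have hterm : ∀ k, BE33.ww b (l * (-κ k - τ)) ≤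
      B / (min 1 l) ^ 6 / τ ^ 2 * (1 / (κ k + 1) ^ 4) := by
    intro k
    have h0 := hnn k
    refine (hBd _).trans ?_
    have h1 : |l * (-κ k - τ)| = l * (κ k + τ) := by
      rw [abs_mul, abs_of_pos hl, abs_of_nonpos (by linarith)]
      ring
    rw [h1]
    have h2 : min 1 l * (κ k + 1) ≤ 1 + l * (κ k + τ) := by
      have e1 : min 1 l ≤ 1 := min_le_left _ _
      have e2 : min 1 l ≤ l := min_le_right _ _
      nlinarith
    have h3 : min 1 l * τ ≤ 1 + l * (κ k + τ) := by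
      have e2 : min 1 l ≤ l := min_le_right _ _
      calc min 1 l * τ ≤ l * τ := mul_le_mul_of_nonneg_right e2 hτ0.le
        _ ≤ 1 + l * (κ k + τ) := by nlinarith
    have h4 : (min 1 l * (κ k + 1)) ^ 4 * (min 1 l * τ) ^ 2 ≤ (1 + l * (κ k + τ)) ^ 6 := by
      rw [show (6 : ℕ) = 4 + 2 by norm_num, pow_add (1 + l * (κ k + τ)) 4 2]
      exact mul_le_mul (pow_le_pow_left₀ (by positivity) h2 4)
        (pow_le_pow_left₀ (by positivity) h3 2) (by positivity) (by positivity)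
    calc B / (1 + l * (κ k + τ)) ^ 6 ≤ B / ((min 1 l * (κ k + 1)) ^ 4 * (min 1 l * τ) ^ 2) := by
          gcongr
      _ = _ := by
          have := hm.ne'
          field_simp
  have hs : Summable fun k => B / (min 1 l) ^ 6 / τ ^ 2 * (1 / (κ k + 1) ^ 4) := hz.mul_left _
  have hsum : Summable (fun k => BE33.ww b (l * (-κ k - τ))) :=
    Summable.of_nonneg_of_le (fun k => hwnn _) hterm hs
  refine ⟨hsum, ?_⟩
  rw [abs_of_nonneg (tsum_nonneg fun k => hwnn _)]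
  refine (hsum.tsum_le_tsum hterm hs).trans ?_
  rw [tsum_mul_left]
  calc B / (min 1 l) ^ 6 / τ ^ 2 * ∑' n, 1 / (κ n + 1) ^ 4
      ≤ B / (min 1 l) ^ 6 / τ ^ 2 * S := by gcongr
    _ = B / (min 1 l) ^ 6 * S / τ ^ 2 := by ring

/-- the tail of the identity term -/
private theorem OM_S3_tail {b : ℝ → ℝ} (hb : BE33.IsB b) {l : ℝ} (hl : 0 < l) :
    ∃ K : ℝ, 0 ≤ K ∧ ∀ τ : ℝ, 1 ≤ τ →
      |∫ z in Iio (-τ), BE33.ww b (l * z) * (-z - τ)| ≤ K / τ ^ 2 := by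
  obtain ⟨hwc, hwi, hwnn, hwe, hwt, hwd⟩ := BE33.ww_prop hb
  obtain ⟨B, hB, hBd⟩ := hwd 6
  have hm : 0 < min 1 l := lt_min one_pos hl
  have hi2 : Integrable fun z : ℝ => (1 + ‖z‖) ^ (-(2 : ℝ)) :=
    integrable_one_add_norm (μ := (volume : Measure ℝ)) (by simp)
  set K := ∫ z : ℝ, (1 + ‖z‖) ^ (-(2 : ℝ)) with hK
  have hK0 : 0 ≤ K := integral_nonneg fun z => by positivity
  refine ⟨B / (min 1 l) ^ 6 * K, by positivity, fun τ hτ => ?_⟩
  have hτ0 : 0 < τ := by linarith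
  have hterm : ∀ z ∈ Iio (-τ), ‖BE33.ww b (l * z) * (-z - τ)‖ ≤
      B / (min 1 l) ^ 6 / τ ^ 2 * (1 + ‖z‖) ^ (-(2 : ℝ)) := by
    intro z hz
    have hz' : z < -τ := hz
    have hz0 : |z| = -z := abs_of_neg (by linarith)
    rw [norm_mul, Real.norm_eq_abs, Real.norm_eq_abs, Real.norm_eq_abs, abs_of_nonneg (hwnn _),
      abs_of_nonneg (by linarith : 0 ≤ -z - τ)]
    have e1 : (1 + |z|) ^ (-(2 : ℝ)) = ((1 + |z|) ^ 2)⁻¹ := by
      rw [Real.rpow_neg (by positivity)]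
      norm_cast
    rw [e1]
    have h1 : min 1 l * (1 + |z|) ≤ 1 + |l * z| := by
      rw [abs_mul, abs_of_pos hl, mul_add, mul_one]
      exact add_le_add (min_le_left _ _) (mul_le_mul_of_nonneg_right (min_le_right _ _) (abs_nonneg z))
    have h2 : BE33.ww b (l * z) ≤ B / (min 1 l * (1 + |z|)) ^ 6 := by
      refine (hBd _).trans ?_
      gcongr
    have h3 : (-z - τ) ≤ (1 + |z|) ^ 4 / τ ^ 2 := by
      rw [le_div_iff₀ (by positivity), hz0]
      have h4 : (-z - τ) ≤ (1 + -z) := by linarith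
      have h5 : τ ^ 2 ≤ (1 + -z) ^ 2 := pow_le_pow_left₀ hτ0.le (by linarith) 2
      have h6 : (1 : ℝ) ≤ 1 + -z := by linarith
      calc (-z - τ) * τ ^ 2 ≤ (1 + -z) * (1 + -z) ^ 2 :=
            mul_le_mul h4 h5 (by positivity) (by linarith)
        _ = (1 + -z) ^ 3 := by ring
        _ ≤ (1 + -z) ^ 4 := pow_le_pow_right₀ h6 (by norm_num)
    calc BE33.ww b (l * z) * (-z - τ) ≤
          B / (min 1 l * (1 + |z|)) ^ 6 * ((1 + |z|) ^ 4 / τ ^ 2) :=
          mul_le_mul h2 h3 (by linarith) (by positivity)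
      _ = _ := by
          have := hm.ne'
          field_simp
  have h1 : ‖∫ z in Iio (-τ), BE33.ww b (l * z) * (-z - τ)‖ ≤
      ∫ z in Iio (-τ), B / (min 1 l) ^ 6 / τ ^ 2 * (1 + ‖z‖) ^ (-(2 : ℝ)) :=
    norm_integral_le_of_norm_le (hi2.const_mul _).integrableOn
      ((ae_restrict_iff' measurableSet_Iio).2 (Eventually.of_forall hterm))
  rw [Real.norm_eq_abs] at h1
  refine h1.trans ?_
  refine (setIntegral_le_integral (hi2.const_mul _) (Eventually.of_forall fun z => by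
    show (0:ℝ) ≤ B / (min 1 l) ^ 6 / τ ^ 2 * (1 + ‖z‖) ^ (-(2 : ℝ))
    positivity)).trans (le_of_eq ?_)
  rw [integral_const_mul]
  ring

/-- the sum of the window of the fixed scale -/
private theorem OM_S3_star {b : ℝ → ℝ} (hb : BE33.IsB b) {l : ℝ} (hl : 0 < l) {C S : ℝ}
    (hC : 0 ≤ C) (hS : 0 ≤ S) :
    ∃ K : ℝ, 0 ≤ K ∧ ∀ κ : ℕ → ℝ, (∀ n, 0 ≤ κ n) →
      Summable (fun n => 1 / (κ n + 1) ^ 4) → ∑' n, 1 / (κ n + 1) ^ 4 ≤ S →
      (∀ τ : ℝ, C ≤ τ → |BE33.Qf κ 1 (BE33.a0 b l) τ| ≤ C / τ ^ 2) → ∀ τ : ℝ, C ≤ τ → 1 ≤ τ →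
      |∑' k, BE33.ww b (l * (κ k - τ)) - τ / l| ≤ K / τ ^ 2 := by
  obtain ⟨CR, hCR0, hCR⟩ := OM_S3_refl hb hl hS
  obtain ⟨CT, hCT0, hCT⟩ := OM_S3_tail hb hl
  obtain ⟨hwc, hwi, hwnn, hwe, hwt, hwd⟩ := BE33.ww_prop hb
  obtain ⟨B, hB, hBd⟩ := hwd 4
  have ha0 := BE33.E3b_a0 hb hl
  have hpi : 0 < Real.pi := Real.pi_pos
  refine ⟨2 * C + CR + 1 / Real.pi * CT, by positivity, fun κ hnn hz hzS hQf τ hCτ hτ => ?_⟩
  obtain ⟨hR1, hR2⟩ := hCR κ hnn hz hzS τ hτ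
  have hQ := hQf τ hCτ
  have hT := hCT τ hτ
  have hsumw : Summable fun k => BE33.ww b (l * (κ k - τ)) :=
    Summable.of_nonneg_of_le (fun k => hwnn _) (fun k => OM_S3_term hB hBd (hnn k) hl τ)
      (hz.mul_left _)
  have e1 : ∑' k, BR.hh (BR.osc (BE33.a0 b l) τ) (κ k) =
      (∑' k, BE33.ww b (l * (κ k - τ)) + ∑' k, BE33.ww b (l * (-κ k - τ))) / 2 := by
    rw [← hsumw.tsum_add hR1, ← tsum_div_const]
    refine tsum_congr fun k => ?_
    rw [BE33.hh_osc ha0, BE33.tf_a0 hb hl, BE33.tf_a0 hb hl]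
  have e2 : ∫ y in Ioi (0 : ℝ), BR.hh (BR.osc (BE33.a0 b l) τ) y * y =
      τ * (2 * Real.pi / l) / 2 + ∫ z in Iio (-τ), BE33.ww b (l * z) * (-z - τ) := by
    rw [BE33.main_int ha0]
    simp only [BE33.tf_a0 hb hl]
    rw [BE33.E8_main hb hl]
  have e3 : ∑' k, BE33.ww b (l * (κ k - τ)) - τ / l = 2 * BE33.Qf κ 1 (BE33.a0 b l) τ -
      ∑' k, BE33.ww b (l * (-κ k - τ)) +
      1 / Real.pi * ∫ z in Iio (-τ), BE33.ww b (l * z) * (-z - τ) := by
    unfold BE33.Qf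
    rw [e1, e2]
    field_simp
    ring
  rw [e3]
  have h5 : |1 / Real.pi * ∫ z in Iio (-τ), BE33.ww b (l * z) * (-z - τ)| ≤
      1 / Real.pi * (CT / τ ^ 2) := by
    rw [abs_mul, abs_of_pos (by positivity)]
    exact mul_le_mul_of_nonneg_left hT (by positivity)
  have h6 : |2 * BE33.Qf κ 1 (BE33.a0 b l) τ| ≤ 2 * (C / τ ^ 2) := by
    rw [abs_mul, abs_of_pos (by norm_num : (0:ℝ) < 2)]
    exact mul_le_mul_of_nonneg_left hQ (by norm_num)
  calc _ ≤ |2 * BE33.Qf κ 1 (BE33.a0 b l) τ - ∑' k, BE33.ww b (l * (-κ k - τ))| +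
        |1 / Real.pi * ∫ z in Iio (-τ), BE33.ww b (l * z) * (-z - τ)| := abs_add_le _ _
    _ ≤ (|2 * BE33.Qf κ 1 (BE33.a0 b l) τ| + |∑' k, BE33.ww b (l * (-κ k - τ))|) +
        |1 / Real.pi * ∫ z in Iio (-τ), BE33.ww b (l * z) * (-z - τ)| := by
        gcongr
        exact abs_sub _ _
    _ ≤ (2 * (C / τ ^ 2) + CR / τ ^ 2) + 1 / Real.pi * (CT / τ ^ 2) := by gcongr
    _ = (2 * C + CR + 1 / Real.pi * CT) / τ ^ 2 := by ring

/-- the derivative of the smoothed counting function -/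
private theorem OM_S3_der {b : ℝ → ℝ} (hb : BE33.IsB b) {l : ℝ} (hl : 0 < l) {κ : ℕ → ℝ}
    (hnn : ∀ n, 0 ≤ κ n) (hz : Summable (fun n => 1 / (κ n + 1) ^ 4)) (τ : ℝ) :
    HasDerivAt (fun τ => ∑' k, BE33.WW b (l * (κ k - τ)))
      (l / (2 * Real.pi) * ∑' k, BE33.ww b (l * (κ k - τ))) τ := by
  obtain ⟨hwc, hwi, hwnn, hwe, hwt, hwd⟩ := BE33.ww_prop hb
  obtain ⟨-, h01, -, hWd, -, -⟩ := BE33.WW_prop hb
  obtain ⟨B, hB, hBd⟩ := hwd 4
  obtain ⟨D, hD, hDd⟩ := OM_S3_dec hb hl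
  have hpi : 0 < Real.pi := Real.pi_pos
  have hsumW : Summable fun k => BE33.WW b (l * (κ k - τ)) :=
    Summable.of_nonneg_of_le (fun k => (h01 _).1) (fun k => hDd (κ k) (hnn k) τ) (hz.mul_left _)
  have h3 := hasDerivAt_tsum_of_isPreconnected (𝕜 := ℝ)
    (u := fun n => l / (2 * Real.pi) * (B * ((1 + (|τ| + 1)) / min 1 l) ^ 4 * (1 / (κ n + 1) ^ 4)))
    (t := Ioo (-(|τ| + 1)) (|τ| + 1)) (g := fun n τ => BE33.WW b (l * (κ n - τ)))
    (g' := fun n τ => l / (2 * Real.pi) * BE33.ww b (l * (κ n - τ))) (y₀ := τ) (y := τ)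
    ((hz.mul_left _).mul_left _) isOpen_Ioo isPreconnected_Ioo
    (fun n y _ => by
      have h4 : HasDerivAt (fun w : ℝ => l * (κ n - w)) (-l) y := by
        refine (((hasDerivAt_id y).const_sub (κ n)).const_mul l).congr_deriv ?_
        ring
      refine ((hWd (l * (κ n - y))).comp y h4).congr_deriv ?_
      ring)
    (fun n y hy => by
      have h4 := OM_S3_term hB hBd (hnn n) hl y
      have h5 : |y| ≤ |τ| + 1 := abs_le.2 ⟨hy.1.le, hy.2.le⟩
      have h6 := hnn n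
      have hm : 0 < min 1 l := lt_min one_pos hl
      rw [norm_mul, Real.norm_eq_abs, Real.norm_eq_abs, abs_of_pos (by positivity),
        abs_of_nonneg (hwnn _)]
      refine mul_le_mul_of_nonneg_left (h4.trans ?_) (by positivity)
      gcongr)
    ⟨by have := neg_abs_le τ; linarith, by have := le_abs_self τ; linarith⟩
    hsumW
    ⟨by have := neg_abs_le τ; linarith, by have := le_abs_self τ; linarith⟩
  rw [tsum_mul_left] at h3
  exact h3

theorem E8u {b : ℝ → ℝ} (hb : BE33.IsB b) {l : ℝ} (hl : 0 < l) (C : ℝ) :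
    ∃ C' : ℝ, 0 ≤ C' ∧ ∀ κ : ℕ → ℝ, Lu C κ →
      (∀ τ : ℝ, C ≤ τ → |BE33.Qf κ 1 (BE33.a0 b l) τ| ≤ C / τ ^ 2) → ∀ τ : ℝ, 1 ≤ τ →
        |∑' k, BE33.WW b (l * (κ k - τ)) - τ ^ 2 / (4 * Real.pi)| ≤ C' := by
  by_cases hC : 0 ≤ C
  swap
  · refine ⟨0, le_rfl, fun κ h => absurd ?_ hC⟩
    have h1 := (h.cnt 1 le_rfl).2
    have h2 : (0 : ℝ) ≤ (({k | κ k ≤ 1} : Set ℕ).ncard : ℝ) := Nat.cast_nonneg _
    linarith
  have hS : 0 ≤ 128 * C := by positivity
  obtain ⟨K, hK0, hK⟩ := OM_S3_star hb hl hC hS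
  obtain ⟨D, hD, hDd⟩ := OM_S3_dec hb hl
  obtain ⟨-, h01, -, -, -, -⟩ := BE33.WW_prop hb
  have hpi : 0 < Real.pi := Real.pi_pos
  have hm : 0 < min 1 l := lt_min one_pos hl
  set M : ℝ := max C 1 with hM
  have hM1 : 1 ≤ M := le_max_right _ _
  have hMC : C ≤ M := le_max_left _ _
  have hM0 : 0 < M := by linarith
  set C3 : ℝ := l / (2 * Real.pi) * K with hC3
  have hC30 : 0 ≤ C3 := by positivity
  set K1 : ℝ := D * ((1 + M) / min 1 l) ^ 4 * (128 * C) with hK1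
  have hK10 : 0 ≤ K1 := by positivity
  refine ⟨K1 + M ^ 2 + C3, by positivity, fun κ h hQ τ hτ => ?_⟩
  obtain ⟨hz, hzS⟩ := OM_S3_lev hC h
  set E : ℝ → ℝ := fun τ => ∑' k, BE33.WW b (l * (κ k - τ)) - τ ^ 2 / (4 * Real.pi) with hE
  -- the bounded range
  have hsmall : ∀ x : ℝ, 1 ≤ x → x ≤ M → |E x| ≤ K1 + M ^ 2 := by
    intro x hx1 hxM
    have hW0 : 0 ≤ ∑' k, BE33.WW b (l * (κ k - x)) := tsum_nonneg fun k => (h01 _).1
    have hb1 : ∀ k, BE33.WW b (l * (κ k - x)) ≤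
        D * ((1 + M) / min 1 l) ^ 4 * (1 / (κ k + 1) ^ 4) := by
      intro k
      have h6 := h.nn k
      refine (hDd (κ k) h6 x).trans ?_
      have h7 : |x| ≤ M := by rw [abs_of_nonneg (by linarith)]; exact hxM
      gcongr
    have hsW : Summable fun k => BE33.WW b (l * (κ k - x)) :=
      Summable.of_nonneg_of_le (fun k => (h01 _).1) hb1 (hz.mul_left _)
    have hW1 : ∑' k, BE33.WW b (l * (κ k - x)) ≤ K1 := by
      refine (hsW.tsum_le_tsum hb1 (hz.mul_left _)).trans ?_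
      rw [tsum_mul_left, hK1]
      exact mul_le_mul_of_nonneg_left hzS (by positivity)
    have hx2 : 0 ≤ x ^ 2 / (4 * Real.pi) := by positivity
    have hx3 : x ^ 2 / (4 * Real.pi) ≤ M ^ 2 := by
      have h8 : x ^ 2 ≤ M ^ 2 := pow_le_pow_left₀ (by linarith) hxM 2
      have h9 : 1 ≤ 4 * Real.pi := by
        have := Real.pi_gt_three
        linarith
      exact (div_le_self (by positivity) h9).trans h8
    show |∑' k, BE33.WW b (l * (κ k - x)) - x ^ 2 / (4 * Real.pi)| ≤ _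
    rw [abs_le]
    constructor
    · linarith
    · have : 0 ≤ M ^ 2 := by positivity
      linarith
  rcases le_total τ M with hτM | hτM
  · exact (hsmall τ hτ hτM).trans (by linarith)
  -- the derivative
  have hEder : ∀ τ : ℝ, HasDerivAt E
      (l / (2 * Real.pi) * (∑' k, BE33.ww b (l * (κ k - τ)) - τ / l)) τ := by
    intro τ
    have h4 : HasDerivAt (fun τ : ℝ => τ ^ 2 / (4 * Real.pi)) (τ / (2 * Real.pi)) τ := by
      refine ((hasDerivAt_pow 2 τ).div_const (4 * Real.pi)).congr_deriv ?_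
      push_cast
      field_simp
      ring
    refine ((OM_S3_der hb hl h.nn hz τ).sub h4).congr_deriv ?_
    field_simp
  have hmv := image_norm_le_of_norm_deriv_right_le_deriv_boundary' (a := M) (b := τ) (f := E)
    (f' := fun τ => l / (2 * Real.pi) * (∑' k, BE33.ww b (l * (κ k - τ)) - τ / l))
    (B := fun x => |E M| + C3 * (1 - x⁻¹)) (B' := fun x => C3 / x ^ 2)
    (fun x _ => (hEder x).continuousAt.continuousWithinAt) (fun x _ => (hEder x).hasDerivWithinAt)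
    (by
      rw [Real.norm_eq_abs]
      have h5 : M⁻¹ ≤ 1 := inv_le_one_of_one_le₀ hM1
      have h6 : 0 ≤ C3 * (1 - M⁻¹) := mul_nonneg hC30 (by linarith)
      linarith)
    (by
      refine continuousOn_const.add (continuousOn_const.mul (continuousOn_const.sub ?_))
      refine ContinuousOn.inv₀ continuousOn_id fun x hx => ?_
      have := hx.1
      exact (by linarith : (0 : ℝ) < x).ne')
    (fun x hx => by
      have hx0 : x ≠ 0 := by
        have := hx.1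
        intro h0
        rw [h0] at this
        linarith
      have h5 := (((hasDerivAt_inv hx0).const_sub 1).const_mul C3).const_add (|E M|)
      refine (h5.congr_deriv ?_).hasDerivWithinAt
      field_simp)
    (fun x hx => by
      have hx1 : 1 ≤ x := hM1.trans hx.1
      rw [Real.norm_eq_abs, abs_mul, abs_of_pos (by positivity : 0 < l / (2 * Real.pi))]
      refine (mul_le_mul_of_nonneg_left (hK κ h.nn hz hzS hQ x (hMC.trans hx.1) hx1)
        (by positivity)).trans (le_of_eq ?_)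
      rw [hC3]
      ring)
    (x := τ) ⟨hτM, le_rfl⟩
  rw [Real.norm_eq_abs] at hmv
  have h5 : |E τ| ≤ |E M| + C3 * (1 - τ⁻¹) := hmv
  have h6 : |E M| ≤ K1 + M ^ 2 := hsmall M hM1 le_rfl
  have h7 : 0 ≤ τ⁻¹ := inv_nonneg.2 (by linarith)
  have h8 : C3 * (1 - τ⁻¹) ≤ C3 := by nlinarith
  show |E τ| ≤ _
  linarith

end OM21
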