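import Pool.Agent.LibOM21.Defs
import Pool.Agent.LibBE33.E3
import Pool.Agent.LibBE33.E5

/-! ROW S4 : from the smoothed counting function to the counting function. -/

open MeasureTheory Set Filter Topology
open scoped ContDiff unitInterval

namespace OM21

open BGS BR BE B35

/-- an upper bound for a finite smoothed count -/
private theorem OM_S4_up {b : ℝ → ℝ} (hb : BE33.IsB b) (κ : ℕ → ℝ) {L : ℝ} (hL : 0 < L) (τ : ℝ)
    (s : Finset ℕ) (F : ℝ → ℝ) (hF : Integrable fun z => BE33.ww b z * F z)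
    (h : ∀ z, ((s.filter fun k => κ k < τ + z / L).card : ℝ) ≤ F z) :
    ∑ k ∈ s, BE33.WW b (L * (κ k - τ)) ≤ 1 / (2 * Real.pi) * ∫ z, BE33.ww b z * F z := by
  obtain ⟨-, hint, hnn, -, -, -⟩ := BE33.ww_prop hb
  have hpi : 0 < 1 / (2 * Real.pi) := by positivity
  have e1 : ∑ k ∈ s, BE33.WW b (L * (κ k - τ)) =
      1 / (2 * Real.pi) * ∫ z, ∑ k ∈ s, (Ioi (L * (κ k - τ))).indicator (BE33.ww b) z := by
    rw [integral_finsetSum _ fun k _ => hint.indicator measurableSet_Ioi, Finset.mul_sum]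
    refine Finset.sum_congr rfl fun k _ => ?_
    rw [integral_indicator measurableSet_Ioi]
    rfl
  rw [e1]
  refine mul_le_mul_of_nonneg_left ?_ hpi.le
  refine integral_mono (integrable_finsetSum _ fun k _ => hint.indicator measurableSet_Ioi) hF
    fun z => ?_
  show ∑ k ∈ s, (Ioi (L * (κ k - τ))).indicator (BE33.ww b) z ≤ BE33.ww b z * F z
  refine le_trans (le_of_eq ?_) (mul_le_mul_of_nonneg_left (h z) (hnn z))
  rw [Finset.card_filter, Nat.cast_sum, Finset.mul_sum]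
  refine Finset.sum_congr rfl fun k _ => ?_
  rw [indicator_apply]
  have h1 : z ∈ Ioi (L * (κ k - τ)) ↔ κ k < τ + z / L := by
    rw [mem_Ioi, ← sub_lt_iff_lt_add', lt_div_iff₀ hL, mul_comm]
  by_cases h2 : κ k < τ + z / L
  · rw [if_pos (h1.2 h2), if_pos h2]
    simp
  · rw [if_neg fun h3 => h2 (h1.1 h3), if_neg h2]
    simp

/-- a lower bound for a finite smoothed count -/
private theorem OM_S4_lo {b : ℝ → ℝ} (hb : BE33.IsB b) (κ : ℕ → ℝ) {L : ℝ} (hL : 0 < L) (τ : ℝ)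
    (s : Finset ℕ) (F : ℝ → ℝ) (hF : Integrable fun z => BE33.ww b z * F z)
    (h : ∀ z, F z ≤ ((s.filter fun k => κ k ≤ τ + z / L).card : ℝ)) :
    1 / (2 * Real.pi) * ∫ z, BE33.ww b z * F z ≤ ∑ k ∈ s, BE33.WW b (L * (κ k - τ)) := by
  obtain ⟨-, hint, hnn, -, -, -⟩ := BE33.ww_prop hb
  have hpi : 0 < 1 / (2 * Real.pi) := by positivity
  have e1 : ∑ k ∈ s, BE33.WW b (L * (κ k - τ)) =
      1 / (2 * Real.pi) * ∫ z, ∑ k ∈ s, (Ici (L * (κ k - τ))).indicator (BE33.ww b) z := by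
    rw [integral_finsetSum _ fun k _ => hint.indicator measurableSet_Ici, Finset.mul_sum]
    refine Finset.sum_congr rfl fun k _ => ?_
    rw [integral_indicator measurableSet_Ici, integral_Ici_eq_integral_Ioi]
    rfl
  rw [e1]
  refine mul_le_mul_of_nonneg_left ?_ hpi.le
  refine integral_mono hF (integrable_finsetSum _ fun k _ => hint.indicator measurableSet_Ici)
    fun z => ?_
  show BE33.ww b z * F z ≤ ∑ k ∈ s, (Ici (L * (κ k - τ))).indicator (BE33.ww b) z
  refine (mul_le_mul_of_nonneg_left (h z) (hnn z)).trans (le_of_eq ?_)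
  rw [Finset.card_filter, Nat.cast_sum, Finset.mul_sum]
  refine Finset.sum_congr rfl fun k _ => ?_
  rw [indicator_apply]
  have h1 : z ∈ Ici (L * (κ k - τ)) ↔ κ k ≤ τ + z / L := by
    rw [mem_Ici, ← sub_le_iff_le_add', le_div_iff₀ hL, mul_comm]
  by_cases h2 : κ k ≤ τ + z / L
  · rw [if_pos (h1.2 h2), if_pos h2]
    simp
  · rw [if_neg fun h3 => h2 (h1.1 h3), if_neg h2]
    simp

/-- the second moment is finite -/
private theorem OM_S4_mom {b : ℝ → ℝ} (hb : BE33.IsB b) :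
    Integrable fun z => BE33.ww b z * (1 + |z|) ^ 2 := by
  obtain ⟨hcont, hint, hnn, -, -, hdec⟩ := BE33.ww_prop hb
  obtain ⟨K, hK, hd⟩ := hdec 4
  have hi2 : Integrable fun z : ℝ => (1 + ‖z‖) ^ (-(2 : ℝ)) :=
    integrable_one_add_norm (μ := (volume : Measure ℝ)) (by simp)
  refine (hi2.const_mul K).mono' (hcont.mul (by fun_prop)).aestronglyMeasurable
    (Eventually.of_forall fun z => ?_)
  have hz := abs_nonneg z
  rw [Real.norm_eq_abs, abs_of_nonneg (mul_nonneg (hnn z) (by positivity))]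
  have e1 : (1 + ‖z‖) ^ (-(2 : ℝ)) = ((1 + |z|) ^ 2)⁻¹ := by
    rw [Real.norm_eq_abs, Real.rpow_neg (by positivity)]
    norm_cast
  rw [e1]
  calc BE33.ww b z * (1 + |z|) ^ 2 ≤ K / (1 + |z|) ^ 4 * (1 + |z|) ^ 2 :=
        mul_le_mul_of_nonneg_right (hd z) (by positivity)
    _ = K * ((1 + |z|) ^ 2)⁻¹ := by
        have : (1 + |z|) ≠ 0 := by positivity
        field_simp

/-- the smoothing of the quadratic function -/
private theorem OM_S4_int {b : ℝ → ℝ} (hb : BE33.IsB b) (τ L a c : ℝ) (hL : 0 < L) :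
    (Integrable fun z => BE33.ww b z *
      ((τ + z / L) ^ 2 / (4 * Real.pi) + a + c * (1 + |z|) ^ 2)) ∧
    1 / (2 * Real.pi) * ∫ z, BE33.ww b z *
      ((τ + z / L) ^ 2 / (4 * Real.pi) + a + c * (1 + |z|) ^ 2) =
      τ ^ 2 / (4 * Real.pi) + a + c * (1 / (2 * Real.pi) * ∫ z, BE33.ww b z * (1 + |z|) ^ 2) +
        1 / (4 * Real.pi * L ^ 2) * (1 / (2 * Real.pi) * ∫ z, BE33.ww b z * z ^ 2) := by
  obtain ⟨hcont, hint, hnn, heven, htot, hdec⟩ := BE33.ww_prop hb
  have hm := OM_S4_mom hb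
  have hm2 : Integrable fun z => BE33.ww b z * z ^ 2 := by
    refine hm.mono' (hcont.mul (by fun_prop)).aestronglyMeasurable
      (Eventually.of_forall fun z => ?_)
    rw [Real.norm_eq_abs, abs_of_nonneg (mul_nonneg (hnn z) (by positivity))]
    refine mul_le_mul_of_nonneg_left ?_ (hnn z)
    nlinarith [abs_nonneg z, sq_abs z]
  have hm1 : Integrable fun z => BE33.ww b z * z := by
    refine hm.mono' (hcont.mul (by fun_prop)).aestronglyMeasurable
      (Eventually.of_forall fun z => ?_)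
    rw [Real.norm_eq_abs, abs_mul, abs_of_nonneg (hnn z)]
    refine mul_le_mul_of_nonneg_left ?_ (hnn z)
    nlinarith [abs_nonneg z, sq_abs z]
  have h0 : ∫ z, BE33.ww b z * z = 0 := by
    have h1 := integral_neg_eq_self (fun z => BE33.ww b z * z) volume
    simp only [heven] at h1
    have h2 : (fun z => BE33.ww b z * -z) = fun z => -(BE33.ww b z * z) := by
      funext z
      ring
    rw [h2, integral_neg] at h1
    linarith
  have hL' := hL.ne'
  have hpi := Real.pi_ne_zero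
  have e1 : (fun z => BE33.ww b z *
      ((τ + z / L) ^ 2 / (4 * Real.pi) + a + c * (1 + |z|) ^ 2)) =
      fun z => (τ ^ 2 / (4 * Real.pi) + a) * BE33.ww b z +
        (2 * τ / (4 * Real.pi * L)) * (BE33.ww b z * z) +
        (1 / (4 * Real.pi * L ^ 2)) * (BE33.ww b z * z ^ 2) +
        c * (BE33.ww b z * (1 + |z|) ^ 2) := by
    funext z
    field_simp
    ring
  rw [e1]
  have i1 := hint.const_mul (τ ^ 2 / (4 * Real.pi) + a)
  have i2 := hm1.const_mul (2 * τ / (4 * Real.pi * L))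
  have i3 := hm2.const_mul (1 / (4 * Real.pi * L ^ 2))
  have i4 := hm.const_mul c
  have i12 : Integrable fun z => (τ ^ 2 / (4 * Real.pi) + a) * BE33.ww b z +
      (2 * τ / (4 * Real.pi * L)) * (BE33.ww b z * z) := i1.add i2
  have i123 : Integrable fun z => (τ ^ 2 / (4 * Real.pi) + a) * BE33.ww b z +
      (2 * τ / (4 * Real.pi * L)) * (BE33.ww b z * z) +
      (1 / (4 * Real.pi * L ^ 2)) * (BE33.ww b z * z ^ 2) := i12.add i3
  refine ⟨i123.add i4, ?_⟩
  rw [integral_add i123 i4, integral_add i12 i3, integral_add i1 i2,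
    integral_const_mul, integral_const_mul, integral_const_mul, integral_const_mul, htot, h0]
  field_simp
  ring

/-- the growth of the counting function -/
private theorem OM_S4_gr {C : ℝ} {κ : ℕ → ℝ} (h : Lu C κ) (y : ℝ) :
    ({k | κ k ≤ y} : Set ℕ).Finite ∧
      (({k | κ k ≤ y} : Set ℕ).ncard : ℝ) ≤ |C| * (1 + y ^ 2) := by
  rcases le_total 1 y with hy | hy
  · refine ⟨(h.cnt y hy).1, (h.cnt y hy).2.trans ?_⟩
    have h1 := le_abs_self C
    have h2 := abs_nonneg C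
    nlinarith [sq_nonneg y, mul_nonneg h2 (sq_nonneg y), mul_le_mul_of_nonneg_right h1 (sq_nonneg y)]
  · have h1 := h.cnt 1 le_rfl
    have hss : ({k | κ k ≤ y} : Set ℕ) ⊆ {k | κ k ≤ 1} := fun k hk => le_trans hk hy
    refine ⟨h1.1.subset hss, ?_⟩
    have h2 : (({k | κ k ≤ y} : Set ℕ).ncard : ℝ) ≤ (({k | κ k ≤ 1} : Set ℕ).ncard : ℝ) := by
      exact_mod_cast ncard_le_ncard hss h1.1
    have h3 := le_abs_self C
    have h4 := mul_nonneg (abs_nonneg C) (sq_nonneg y)
    linarith [h1.2]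

/-- far from `τ` everything is bounded by `9 (1 + |z|) ^ 2` -/
private theorem OM_S4_far {τ L z : ℝ} (hτ : 1 ≤ τ) (hL : 1 ≤ L)
    (h : τ + z / L < τ / 2 ∨ 2 * τ < τ + z / L) : 1 + (τ + z / L) ^ 2 ≤ 9 * (1 + |z|) ^ 2 := by
  have hL0 : 0 < L := by linarith
  have hz := abs_nonneg z
  have h1 : |z / L| ≤ |z| := by
    rw [abs_div, abs_of_pos hL0]
    exact div_le_self hz hL
  have h2 : τ / 2 ≤ |z / L| := by
    rcases h with h | h
    · have := neg_le_abs (z / L)
      linarith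
    · have := le_abs_self (z / L)
      linarith
  have h3 : |τ + z / L| ≤ 3 * |z| := by
    refine (abs_add_le _ _).trans ?_
    rw [abs_of_pos (by linarith : 0 < τ)]
    linarith
  have h4 : (τ + z / L) ^ 2 ≤ (3 * |z|) ^ 2 := by
    rw [← sq_abs (τ + z / L)]
    exact pow_le_pow_left₀ (abs_nonneg _) h3 2
  nlinarith

theorem avg_point {b : ℝ → ℝ} (hb : BE33.IsB b) (C : ℝ) :
    ∃ C' : ℝ, 1 ≤ C' ∧ ∀ κ : ℕ → ℝ, Lu C κ → ∀ L : ℝ, 1 ≤ L → ∀ τ : ℝ, C' ≤ τ →
      ∀ X : ℝ, C' ≤ X →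
        (X ≤ ∑' k, BE33.WW b (L * (κ k - τ)) - τ ^ 2 / (4 * Real.pi) →
          ∃ y : ℝ, τ / 2 ≤ y ∧ y ≤ 2 * τ ∧ X / 2 ≤ Ncs κ y - y ^ 2 / (4 * Real.pi)) ∧
        (∑' k, BE33.WW b (L * (κ k - τ)) - τ ^ 2 / (4 * Real.pi) ≤ -X →
          ∃ y : ℝ, τ / 2 ≤ y ∧ y ≤ 2 * τ ∧
            BE33.Nc κ y - y ^ 2 / (4 * Real.pi) ≤ -(X / 2)) := by
  obtain ⟨hcont, hint, hnn, heven, htot, hdec⟩ := BE33.ww_prop hb
  have h01 := (BE33.WW_prop hb).2.1
  have hpi0 := Real.pi_pos
  have hpi3 := Real.pi_gt_three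
  set M : ℝ := 1 / (2 * Real.pi) * ∫ z, BE33.ww b z * (1 + |z|) ^ 2 with hM
  set M2 : ℝ := 1 / (2 * Real.pi) * ∫ z, BE33.ww b z * z ^ 2 with hM2
  have hmI := OM_S4_mom hb
  have hM0 : 0 ≤ M := mul_nonneg (by positivity)
    (integral_nonneg fun z => mul_nonneg (hnn z) (by positivity))
  have hM20 : 0 ≤ M2 := mul_nonneg (by positivity)
    (integral_nonneg fun z => mul_nonneg (hnn z) (by positivity))
  have hM2M : M2 ≤ M := by
    refine mul_le_mul_of_nonneg_left ?_ (by positivity)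
    refine integral_mono_of_nonneg (Eventually.of_forall fun z => mul_nonneg (hnn z) (by positivity))
      hmI (Eventually.of_forall fun z => mul_le_mul_of_nonneg_left ?_ (hnn z))
    nlinarith [abs_nonneg z, sq_abs z]
  set D : ℝ := |C| + 1 with hD
  have hC0 := abs_nonneg C
  have hD1 : 1 ≤ D := by linarith
  set E : ℝ := (9 * D + 1) * M with hE
  have hE0 : 0 ≤ E := by positivity
  refine ⟨2 * E + 1, by linarith, fun κ hκ L hL τ hτ X hX => ?_⟩
  have hL0 : 0 < L := by linarith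
  have hτ1 : 1 ≤ τ := by linarith
  -- the error of the quadratic function
  have hquad : 1 / (4 * Real.pi * L ^ 2) * M2 ≤ M := by
    have h1 : 1 / (4 * Real.pi * L ^ 2) ≤ 1 := by
      rw [div_le_one (by positivity)]
      nlinarith [one_le_pow₀ (n := 2) hL]
    calc 1 / (4 * Real.pi * L ^ 2) * M2 ≤ 1 * M2 := mul_le_mul_of_nonneg_right h1 hM20
      _ ≤ M := by linarith
  have hquad0 : 0 ≤ 1 / (4 * Real.pi * L ^ 2) * M2 := by positivity
  -- partial sums are bounded from above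
  have hcard : ∀ (s : Finset ℕ) (y : ℝ),
      ((s.filter fun k => κ k < y).card : ℝ) ≤ Ncs κ y := by
    intro s y
    unfold Ncs
    have hfin : ({k | κ k < y} : Set ℕ).Finite :=
      (OM_S4_gr hκ y).1.subset fun k (hk : κ k < y) => (le_of_lt hk : κ k ≤ y)
    rw [← Set.ncard_coe_finset]
    exact_mod_cast ncard_le_ncard (fun k hk => (Finset.mem_filter.1 hk).2) hfin
  have hNle : ∀ y : ℝ, Ncs κ y ≤ |C| * (1 + y ^ 2) := by
    intro y
    refine le_trans ?_ (OM_S4_gr hκ y).2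
    unfold Ncs
    have hss : ({k | κ k < y} : Set ℕ) ⊆ {k | κ k ≤ y} :=
      fun k (hk : κ k < y) => (le_of_lt hk : κ k ≤ y)
    exact_mod_cast ncard_le_ncard hss (OM_S4_gr hκ y).1
  have hpart : ∀ Y : ℝ, (∀ y, τ / 2 ≤ y → y ≤ 2 * τ → Ncs κ y - y ^ 2 / (4 * Real.pi) ≤ Y) →
      0 ≤ Y → ∀ s : Finset ℕ, ∑ k ∈ s, BE33.WW b (L * (κ k - τ)) ≤
        τ ^ 2 / (4 * Real.pi) + Y + E := by
    intro Y hY hY0 s
    obtain ⟨hi, he⟩ := OM_S4_int hb τ L Y (9 * D) hL0
    refine (OM_S4_up hb κ hL0 τ s _ hi fun z => ?_).trans ?_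
    · refine (hcard s _).trans ?_
      by_cases hr : τ / 2 ≤ τ + z / L ∧ τ + z / L ≤ 2 * τ
      · have h1 := hY _ hr.1 hr.2
        have h2 : 0 ≤ 9 * D * (1 + |z|) ^ 2 := by positivity
        linarith
      · have h1 : τ + z / L < τ / 2 ∨ 2 * τ < τ + z / L := by
          by_contra hcon
          push Not at hcon
          exact hr hcon
        have h2 := OM_S4_far hτ1 hL h1
        have h3 := hNle (τ + z / L)
        have h4 : 0 ≤ (τ + z / L) ^ 2 / (4 * Real.pi) := by positivity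
        have h5 : |C| * (1 + (τ + z / L) ^ 2) ≤ D * (9 * (1 + |z|) ^ 2) :=
          mul_le_mul (by linarith) h2 (by positivity) (by linarith)
        linarith
    · rw [he, ← hM, ← hM2, hE]
      linarith
  have hbig : ∃ Y : ℝ, 0 ≤ Y ∧
      ∀ y, τ / 2 ≤ y → y ≤ 2 * τ → Ncs κ y - y ^ 2 / (4 * Real.pi) ≤ Y := by
    refine ⟨|C| * (1 + (2 * τ) ^ 2), by positivity, fun y h1 h2 => ?_⟩
    have h3 := hNle y
    have h4 : 0 ≤ y ^ 2 / (4 * Real.pi) := by positivity
    have h5 : y ^ 2 ≤ (2 * τ) ^ 2 := pow_le_pow_left₀ (by linarith) h2 2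
    have h6 : |C| * (1 + y ^ 2) ≤ |C| * (1 + (2 * τ) ^ 2) :=
      mul_le_mul_of_nonneg_left (by linarith) hC0
    linarith
  have hsum : Summable fun k => BE33.WW b (L * (κ k - τ)) := by
    obtain ⟨Y, hY0, hY⟩ := hbig
    exact summable_of_sum_le (fun k => (h01 _).1) (hpart Y hY hY0)
  constructor
  · intro hXle
    by_contra hcon
    push Not at hcon
    have h1 := hpart (X / 2) (fun y h2 h3 => (hcon y h2 h3).le) (by linarith)
    have h2 : ∑' k, BE33.WW b (L * (κ k - τ)) ≤ τ ^ 2 / (4 * Real.pi) + X / 2 + E :=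
      hsum.tsum_le_of_sum_le h1
    linarith
  · intro hXle
    by_contra hcon
    push Not at hcon
    have hfin := (OM_S4_gr hκ (2 * τ)).1
    obtain ⟨hi, he⟩ := OM_S4_int hb τ L (-(X / 2)) (-(9 * D)) hL0
    have h1 := OM_S4_lo hb κ hL0 τ hfin.toFinset _ hi fun z => ?_
    · rw [he, ← hM, ← hM2] at h1
      have h2 := hsum.sum_le_tsum hfin.toFinset (fun k _ => (h01 _).1)
      have h3 : 9 * D * M ≤ E := by
        rw [hE]
        nlinarith
      linarith
    · by_cases hr : τ / 2 ≤ τ + z / L ∧ τ + z / L ≤ 2 * τ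
      · have h1 := hcon _ hr.1 hr.2
        have h2 : 0 ≤ 9 * D * (1 + |z|) ^ 2 := by positivity
        have h3 : ((hfin.toFinset.filter fun k => κ k ≤ τ + z / L).card : ℝ) =
            BE33.Nc κ (τ + z / L) := by
          unfold BE33.Nc
          rw [← Set.ncard_coe_finset]
          congr 2
          ext k
          simp only [Finset.coe_filter, Finite.mem_toFinset, mem_ofPred_eq]
          exact ⟨fun h => h.2, fun h => ⟨h.trans hr.2, h⟩⟩
        rw [h3]
        linarith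
      · have h1 : τ + z / L < τ / 2 ∨ 2 * τ < τ + z / L := by
          by_contra hcon
          push Not at hcon
          exact hr hcon
        have h2 := OM_S4_far hτ1 hL h1
        have h3 : (τ + z / L) ^ 2 / (4 * Real.pi) ≤ (τ + z / L) ^ 2 :=
          div_le_self (sq_nonneg _) (by linarith)
        have h4 : (9 : ℝ) * (1 + |z|) ^ 2 ≤ 9 * D * (1 + |z|) ^ 2 := by
          have : (0 : ℝ) ≤ (1 + |z|) ^ 2 := by positivity
          nlinarith
        have h5 : (0 : ℝ) ≤ ((hfin.toFinset.filter fun k => κ k ≤ τ + z / L).card : ℝ) := by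
          positivity
        linarith

end OM21
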