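import Pool.Agent.LibOM21.F2
import Pool.Agent.LibB35.GQ1a
import Pool.Agent.LibBE99.W5

/-! ROW W2 : lengths and weights of `XX` and of `P.m`. SHORT/MEDIUM.
PLAN. `BE.wt_close` and `BE.axes_close` (LibBE99/W5, W3) for the family `pth` (`CF_pth`) with the parameters `0` and `√(P.c R)` (`pth_zero`, `pth_one`), `Cls` of both metrics by `cls_q` (LibB35/GQ1a: `Cls μ (gel q) (gpr q) (ax ..).1 (ax ..).2 (ln μ q) (lp μ q.1)`, `trM = trg`), `wg μ q = lp/√(trg (gel q) - 2)`.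
`ln ≤ T` gives `(1 + l)^n ≤ (1 + T)^n`; with `C = 4 n + 4`, `ε = √(c R)`: `n (1+l)^n ε ≤ 1/2`. Last clause: `axes_close` with the roles exchanged (`p0 = √c`, `p1 = 0`, `l = ln XX q ≤ T`). -/

open MeasureTheory Set Filter Topology
open scoped ContDiff unitInterval

namespace OM21

open BGS BR BE B35

variable {Γ : Type} [Group Γ] [MulAction Γ Pl] {D : Set Pl} {P : Dt}

private theorem OM_W2_bd {n1 n : ℕ} {l T ε : ℝ} (hn : n1 ≤ n) (hl : 0 ≤ l) (hlT : l ≤ T)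
    (hε : 0 ≤ ε) (hsm : (4 * (n : ℝ) + 4) * (1 + T) ^ n * ε ≤ 1) :
    (n1 : ℝ) * (1 + l) ^ n1 * ε ≤ (4 * (n : ℝ) + 4) * (1 + T) ^ n * ε ∧
      (n1 : ℝ) * (1 + l) ^ n1 * ε ≤ 1 / 4 := by
  have h1 : (1 + l) ^ n1 ≤ (1 + T) ^ n1 := pow_le_pow_left₀ (by linarith) (by linarith) n1
  have h2 : (1 + T) ^ n1 ≤ (1 + T) ^ n := pow_le_pow_right₀ (by linarith) hn
  have h3 : (n1 : ℝ) ≤ n := by exact_mod_cast hn
  have h4 : (n1 : ℝ) * (1 + l) ^ n1 ≤ n * (1 + T) ^ n :=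
    mul_le_mul h3 (h1.trans h2) (pow_nonneg (by linarith) _) (Nat.cast_nonneg _)
  have h5 : (n1 : ℝ) * (1 + l) ^ n1 * ε ≤ n * (1 + T) ^ n * ε :=
    mul_le_mul_of_nonneg_right h4 hε
  have h6 : 0 ≤ (1 + T) ^ n * ε := mul_nonneg (pow_nonneg (by linarith) _) hε
  have h7 : (0 : ℝ) ≤ n := Nat.cast_nonneg _
  have h8 : 0 ≤ (n : ℝ) * ((1 + T) ^ n * ε) := mul_nonneg h7 h6
  have h9 : (4 * (n : ℝ) + 4) * (1 + T) ^ n * ε = 4 * (n * ((1 + T) ^ n * ε)) +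
      4 * ((1 + T) ^ n * ε) := by ring
  have h10 : (n : ℝ) * (1 + T) ^ n * ε = n * ((1 + T) ^ n * ε) := by ring
  rw [h9] at hsm ⊢
  rw [h10] at h5
  constructor <;> linarith

theorem near_XX (hP : Okc Γ D P) : ∃ (C : ℝ) (n k0 : ℕ), 1 ≤ C ∧ ∀ R ≥ k0, ∀ (η : Dir → I)
    (q : Cg Γ) (T : ℝ), 0 ≤ T → C * (1 + T) ^ n * √(P.c R) ≤ 1 →
    (ln P.m q ≤ T → |ln (XX P Γ D R η) q - ln P.m q| ≤ C * (1 + T) ^ n * √(P.c R) ∧
      wg P.m q / 2 ≤ wg (XX P Γ D R η) q ∧ wg (XX P Γ D R η) q ≤ 2 * wg P.m q) ∧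
    (ln (XX P Γ D R η) q ≤ T → ln P.m q ≤ T + 1) := by
  obtain ⟨k0, a, b, hCF⟩ := CF_pth hP
  obtain ⟨n1, hw⟩ := wt_close hCF
  obtain ⟨n2, hax⟩ := axes_close hCF
  have hX := hCF.hX
  have hO := hCF.hO
  have hC1 : (1 : ℝ) ≤ 4 * ((n1 + n2 : ℕ) : ℝ) + 4 := by
    have : (0 : ℝ) ≤ ((n1 + n2 : ℕ) : ℝ) := Nat.cast_nonneg _
    linarith
  refine ⟨4 * ((n1 + n2 : ℕ) : ℝ) + 4, n1 + n2, k0, hC1, ?_⟩
  intro R hR η q T hT hsm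
  have hε : 0 ≤ √(P.c R) := Real.sqrt_nonneg _
  have hT1 : (1 : ℝ) ≤ (1 + T) ^ (n1 + n2) := one_le_pow₀ (by linarith)
  have hε1 : √(P.c R) ≤ 1 := by
    have h1 : (1 : ℝ) ≤ (4 * ((n1 + n2 : ℕ) : ℝ) + 4) * (1 + T) ^ (n1 + n2) :=
      one_le_mul_of_one_le_of_one_le hC1 hT1
    calc √(P.c R) = 1 * √(P.c R) := (one_mul _).symm
      _ ≤ (4 * ((n1 + n2 : ℕ) : ℝ) + 4) * (1 + T) ^ (n1 + n2) * √(P.c R) :=
          mul_le_mul_of_nonneg_right h1 hε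
      _ ≤ 1 := hsm
  have hp0 : ‖(0 : ℝ)‖ ≤ 1 := by simp
  have hp1 : ‖√(P.c R)‖ ≤ 1 := by rwa [Real.norm_eq_abs, abs_of_nonneg hε]
  have e0 : mm P.m (pth P Γ D (R, η)) 0 = P.m := pth_zero hP (R, η)
  have e1 : mm P.m (pth P Γ D (R, η)) (√(P.c R)) = XX P Γ D R η := pth_one hP R η
  have hm1 : HM Γ (XX P Γ D R η) := by
    have := hm_mm hCF (⟨(R, η), hR⟩ : Ixp k0) (√(P.c R))
    rwa [show mm P.m (pth P Γ D (⟨(R, η), hR⟩ : Ixp k0).1) (√(P.c R)) = XX P Γ D R η from e1]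
      at this
  have hm0 : HM Γ P.m := hP.hm
  obtain ⟨c0, t0, lp0, -, -, pos0⟩ := cls_q hX hO hm0 q
  obtain ⟨c1, t1, lp1, -, -, pos1⟩ := cls_q hX hO hm1 q
  have hl0 : 0 < ln P.m q := c0.axis.pos
  have hl1 : 0 < ln (XX P Γ D R η) q := c1.axis.pos
  have hd : ‖√(P.c R) - 0‖ = √(P.c R) := by
    rw [sub_zero, Real.norm_eq_abs, abs_of_nonneg hε]
  have hd' : ‖0 - √(P.c R)‖ = √(P.c R) := by
    rw [zero_sub, norm_neg, Real.norm_eq_abs, abs_of_nonneg hε]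
  constructor
  · intro hlT
    have hw' := hw (⟨(R, η), hR⟩ : Ixp k0) 0 (√(P.c R)) hp0 hp1 (gel q) (gpr q)
      (ax P.m (gpr q)).1 (ax P.m (gpr q)).2 (ax (XX P Γ D R η) (gpr q)).1
      (ax (XX P Γ D R η) (gpr q)).2 (ln P.m q) (lp P.m q.1) (ln (XX P Γ D R η) q)
      (lp (XX P Γ D R η) q.1)
    rw [show mm P.m (pth P Γ D (⟨(R, η), hR⟩ : Ixp k0).1) (√(P.c R)) = XX P Γ D R η from e1,
      show mm P.m (pth P Γ D (⟨(R, η), hR⟩ : Ixp k0).1) 0 = P.m from e0] at hw'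
    obtain ⟨h1, h2⟩ := hw' c0 c1
    rw [hd] at h1 h2
    obtain ⟨b1, b2⟩ := OM_W2_bd (Nat.le_add_right n1 n2) hl0.le hlT hε hsm
    refine ⟨h1.trans b1, ?_⟩
    have h3 := h2 (by linarith)
    rw [t0, t1] at h3
    have hw0 : 0 < wg P.m q := div_pos lp0 (Real.sqrt_pos.2 pos0)
    change |wg (XX P Γ D R η) q - wg P.m q| ≤ (n1 : ℝ) * (1 + ln P.m q) ^ n1 * √(P.c R) *
      wg P.m q at h3
    have h4 : (n1 : ℝ) * (1 + ln P.m q) ^ n1 * √(P.c R) * wg P.m q ≤ 1 / 4 * wg P.m q :=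
      mul_le_mul_of_nonneg_right b2 hw0.le
    obtain ⟨h5, h6⟩ := abs_le.1 (h3.trans h4)
    constructor <;> linarith
  · intro hlT
    have hw' := hax (⟨(R, η), hR⟩ : Ixp k0) (√(P.c R)) 0 hp1 hp0 (gel q)
      (ax (XX P Γ D R η) (gpr q)).1 (ax (XX P Γ D R η) (gpr q)).2
      (ax P.m (gpr q)).1 (ax P.m (gpr q)).2 (ln (XX P Γ D R η) q) (ln P.m q)
    rw [show mm P.m (pth P Γ D (⟨(R, η), hR⟩ : Ixp k0).1) (√(P.c R)) = XX P Γ D R η from e1,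
      show mm P.m (pth P Γ D (⟨(R, η), hR⟩ : Ixp k0).1) 0 = P.m from e0] at hw'
    obtain ⟨h1, -⟩ := hw' c1.axis c0.axis
    rw [hd'] at h1
    obtain ⟨-, b2⟩ := OM_W2_bd (Nat.le_add_left n2 n1) hl1.le hlT hε hsm
    have h2 := (abs_le.1 (h1.trans b2)).2
    linarith

end OM21
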