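import Pool.Agent.LibOM21.W1
import Pool.Agent.LibOM21.W2
import Pool.Agent.LibOM21.T2

/-! ROW W3 : the sum of the aligned terms. -/

open MeasureTheory Set Filter Topology
open scoped ContDiff unitInterval

namespace OM21

open BGS BR BE B35

variable {Γ : Type} [Group Γ] [MulAction Γ Pl] {D : Set Pl} {P : Dt}

/-- The weights of the repetitions. -/
private theorem OM_W3_wg (hX : Surface Γ D) (hO : Ori Γ) {μ : Pl → Co} (hm : HM Γ μ) {a : ℝ}
    (ha : 0 < a) (hk : ∀ z, curv μ z ≤ -a ^ 2) (p : GH.PG Γ) (n : ℕ) (o : Bool) :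
    0 < lp μ p ∧ 0 ≤ wg μ (p, n, o) ∧
      wg μ (p, n, o) ≤ wg μ (p, 0, o) * Real.exp (-(a * lp μ p / 2)) ^ n := by
  have hG := GD.grpData hX hO hm ha hk
  have hok := GH.ok_geo hG
  have hpos : 0 < lp μ p := hok.pos p
  rw [wg_or hX hO hm p n o, wg_or hX hO hm p 0 o]
  obtain ⟨G, hGd⟩ : ∃ G, G = GH.geo (BGM.tl μ) (GD.trg μ) (Γ := Γ) := ⟨_, rfl⟩
  have e : ∀ k : ℕ, wg μ (p, k, true) =
      lp μ p / √((GH.geo (BGM.tl μ) (GD.trg μ) (Γ := Γ)).tw p (k + 1)) := fun k => rfl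
  have h1 := GWin.tw1_pos hok p
  have h2 := hok.pw p (n + 1) (by omega)
  have h3 : (GH.geo (BGM.tl μ) (GD.trg μ) (Γ := Γ)).len p = lp μ p := rfl
  rw [h3] at h2
  rw [e n, e 0]
  refine ⟨hpos, by positivity, ?_⟩
  rw [zero_add]
  generalize (GH.geo (BGM.tl μ) (GD.trg μ) (Γ := Γ)).tw p 1 = t1 at h1 h2 ⊢
  generalize (GH.geo (BGM.tl μ) (GD.trg μ) (Γ := Γ)).tw p (n + 1) = t2 at h2 ⊢
  generalize lp μ p = l at hpos h2 ⊢
  have h4 : √t1 * Real.exp (a * l / 2) ^ n ≤ √t2 := by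
    refine Real.le_sqrt_of_sq_le ?_
    rw [mul_pow, Real.sq_sqrt h1.le, ← Real.exp_nat_mul, ← Real.exp_nat_mul]
    refine le_trans (le_of_eq ?_) h2
    congr 2
    push_cast
    ring
  have h5 : 0 < √t1 := Real.sqrt_pos.2 h1
  have h6 : Real.exp (-(a * l / 2)) ^ n * Real.exp (a * l / 2) ^ n = 1 := by
    rw [← mul_pow, ← Real.exp_add, neg_add_cancel, Real.exp_zero, one_pow]
  have h7 : 0 < Real.exp (a * l / 2) ^ n := by positivity
  calc l / √t2 ≤ l / (√t1 * Real.exp (a * l / 2) ^ n) :=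
        div_le_div_of_nonneg_left hpos.le (by positivity) h4
    _ = l / √t1 * Real.exp (-(a * l / 2)) ^ n := by
        rw [div_mul_eq_div_div, div_eq_iff h7.ne', mul_assoc, h6, mul_one]

/-- The geometric series. -/
private theorem OM_W3_geo {x : ℝ} (hx : 0 < x) {s : Finset ℕ} (hs : ∀ n ∈ s, n ≠ 0) :
    ∑ n ∈ s, Real.exp (-x) ^ n ≤ 1 / x := by
  have hr0 : 0 < Real.exp (-x) := Real.exp_pos _
  have hr1 : Real.exp (-x) < 1 := by
    rw [Real.exp_lt_one_iff]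
    linarith
  have h1 : s ⊆ Finset.Ico 1 (s.sup id + 1) := by
    intro n hn
    rw [Finset.mem_Ico]
    have h2 : n ≤ s.sup id := Finset.le_sup (f := id) hn
    have h3 := hs n hn
    omega
  refine (Finset.sum_le_sum_of_subset_of_nonneg h1 fun n _ _ => by positivity).trans ?_
  refine (geom_sum_Ico_le_of_lt_one hr0.le hr1).trans ?_
  rw [pow_one, div_le_div_iff₀ (by linarith) hx]
  have h4 := Real.add_one_le_exp x
  have h5 : Real.exp (-x) * Real.exp x = 1 := by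
    rw [← Real.exp_add, neg_add_cancel, Real.exp_zero]
  have h6 : Real.exp (-x) * (x + 1) ≤ Real.exp (-x) * Real.exp x :=
    mul_le_mul_of_nonneg_left h4 hr0.le
  linarith

/-- The repetitions. -/
private theorem OM_W3_rep (hX : Surface Γ D) (hO : Ori Γ) {μ : Pl → Co} (hm : HM Γ μ) {a : ℝ}
    (ha : 0 < a) (hk : ∀ z, curv μ z ≤ -a ^ 2) {B L : ℝ} (hB : 0 ≤ B) :
    ∑ q ∈ Cs (Γ := Γ) μ L with ¬ q.2.1 = 0, wg μ q * B / ln μ q ≤
      ∑ q ∈ Cs (Γ := Γ) μ L with (q.2.1 = 0 ∧ ln μ q ≤ L / 2),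
        wg μ q / ln μ q * (B * (2 / (a * ln μ q))) := by
  classical
  have hmaps : ∀ q ∈ (Cs (Γ := Γ) μ L).filter (fun q => ¬ q.2.1 = 0),
      ((q.1, 0, q.2.2) : Cg Γ) ∈
        (Cs (Γ := Γ) μ L).filter (fun q => q.2.1 = 0 ∧ ln μ q ≤ L / 2) := by
    rintro ⟨p, n, o⟩ hq
    rw [Finset.mem_filter, Cs_mem hX hO hm] at hq
    obtain ⟨h1, h2⟩ := hq
    have h3 : ((n : ℝ) + 1) * lp μ p ≤ L := h1
    have h2' : ¬ n = 0 := h2
    have h4 : (1 : ℝ) ≤ n := by exact_mod_cast Nat.one_le_iff_ne_zero.2 h2'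
    have h5 := (OM_W3_wg hX hO hm ha hk p 0 o).1
    have h6 : ln μ ((p, 0, o) : Cg Γ) = lp μ p := by
      show (((0 : ℕ) : ℝ) + 1) * lp μ p = lp μ p
      rw [Nat.cast_zero, zero_add, one_mul]
    rw [Finset.mem_filter, Cs_mem hX hO hm]
    show ln μ ((p, 0, o) : Cg Γ) ≤ L ∧ 0 = 0 ∧ ln μ ((p, 0, o) : Cg Γ) ≤ L / 2
    rw [h6]
    refine ⟨by nlinarith, rfl, by nlinarith⟩
  rw [← Finset.sum_fiberwise_of_maps_to hmaps]
  refine Finset.sum_le_sum ?_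
  rintro ⟨p, n0, o⟩ hq0
  rw [Finset.mem_filter] at hq0
  have hn0 : n0 = 0 := hq0.2.1
  subst hn0
  have h6 : ln μ ((p, 0, o) : Cg Γ) = lp μ p := by
    show (((0 : ℕ) : ℝ) + 1) * lp μ p = lp μ p
    rw [Nat.cast_zero, zero_add, one_mul]
  obtain ⟨hl, hw, -⟩ := OM_W3_wg hX hO hm ha hk p 0 o
  rw [h6]
  have h7 : ∀ q ∈ ((Cs (Γ := Γ) μ L).filter (fun q => ¬ q.2.1 = 0)).filter
      (fun q => ((q.1, 0, q.2.2) : Cg Γ) = (p, 0, o)),
      wg μ q * B / ln μ q ≤ wg μ ((p, 0, o) : Cg Γ) / lp μ p * B *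
        Real.exp (-(a * lp μ p / 2)) ^ q.2.1 := by
    rintro ⟨p', n, o'⟩ hq
    rw [Finset.mem_filter, Finset.mem_filter] at hq
    have h8 : ((p', 0, o') : Cg Γ) = (p, 0, o) := hq.2
    obtain ⟨h9, h10⟩ := Prod.ext_iff.1 h8
    have h11 := (Prod.ext_iff.1 h10).2
    have h9' : p' = p := h9
    have h11' : o' = o := h11
    subst h9'
    subst h11'
    obtain ⟨-, hw1, hw2⟩ := OM_W3_wg hX hO hm ha hk p' n o'
    have h12 : ln μ ((p', n, o') : Cg Γ) = ((n : ℝ) + 1) * lp μ p' := rfl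
    have h13 : (0 : ℝ) ≤ n := Nat.cast_nonneg n
    show wg μ ((p', n, o') : Cg Γ) * B / ln μ ((p', n, o') : Cg Γ) ≤ _ *
      Real.exp (-(a * lp μ p' / 2)) ^ n
    calc wg μ ((p', n, o') : Cg Γ) * B / ln μ ((p', n, o') : Cg Γ)
        ≤ wg μ ((p', n, o') : Cg Γ) * B / lp μ p' := by
          refine div_le_div_of_nonneg_left (mul_nonneg hw1 hB) hl ?_
          rw [h12]
          nlinarith
      _ ≤ (wg μ ((p', 0, o') : Cg Γ) * Real.exp (-(a * lp μ p' / 2)) ^ n) * B / lp μ p' :=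
          div_le_div_of_nonneg_right (mul_le_mul_of_nonneg_right hw2 hB) hl.le
      _ = _ := by ring
  refine (Finset.sum_le_sum h7).trans ?_
  rw [← Finset.mul_sum]
  have hinj : Set.InjOn (fun q : Cg Γ => q.2.1) ((((Cs (Γ := Γ) μ L).filter
      (fun q => ¬ q.2.1 = 0)).filter
      (fun q => ((q.1, 0, q.2.2) : Cg Γ) = (p, 0, o)) : Finset (Cg Γ)) : Set (Cg Γ)) := by
    rintro ⟨p1, n1, o1⟩ hq1 ⟨p2, n2, o2⟩ hq2 h12
    have e1 := (Finset.mem_filter.1 (Finset.mem_coe.1 hq1)).2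
    have e2 := (Finset.mem_filter.1 (Finset.mem_coe.1 hq2)).2
    have e3 : n1 = n2 := h12
    have e4 : ((p1, 0, o1) : Cg Γ) = (p2, 0, o2) := e1.trans e2.symm
    obtain ⟨e5, e6⟩ := Prod.ext_iff.1 e4
    have e7 := (Prod.ext_iff.1 e6).2
    have e5' : p1 = p2 := e5
    have e7' : o1 = o2 := e7
    rw [e3, e5', e7']
  have h14 : ∑ q ∈ ((Cs (Γ := Γ) μ L).filter (fun q => ¬ q.2.1 = 0)).filter
      (fun q => ((q.1, 0, q.2.2) : Cg Γ) = (p, 0, o)),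
        Real.exp (-(a * lp μ p / 2)) ^ q.2.1 ≤ 1 / (a * lp μ p / 2) := by
    rw [← Finset.sum_image (f := fun n => Real.exp (-(a * lp μ p / 2)) ^ n) hinj]
    refine OM_W3_geo (by positivity) ?_
    intro n hn
    obtain ⟨q, hq, rfl⟩ := Finset.mem_image.1 hn
    exact (Finset.mem_filter.1 (Finset.mem_filter.1 hq).1).2
  refine (mul_le_mul_of_nonneg_left h14 (by positivity)).trans (le_of_eq ?_)
  field_simp

/-- The sum over one metric. -/
private theorem OM_W3_main (hX : Surface Γ D) (hO : Ori Γ) {μ : Pl → Co} (hm : HM Γ μ) {a : ℝ}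
    (ha : 0 < a) (hk : ∀ z, curv μ z ≤ -a ^ 2) {b : ℝ → ℝ} {B c0 : ℝ} (hb1 : ∀ t, 0 ≤ b t)
    (hB : ∀ t, b t ≤ B) (hb2 : ∀ t, |t| ≤ 1 / 2 → c0 ≤ b t) {L : ℝ} (hL : 0 < L) {τ ς : ℝ}
    (hς : ς = 1 ∨ ς = -1)
    (hs : ∀ q ∈ Cs (Γ := Γ) μ L, q.2.1 = 0 → Real.sin (τ * ln μ q) = ς) :
    ∑ q ∈ Cs (Γ := Γ) μ L with (q.2.1 = 0 ∧ ln μ q ≤ L / 2),
        wg μ q / ln μ q * (c0 - B * (2 / (a * ln μ q))) ≤
      ς * ∑ q ∈ Cs (Γ := Γ) μ L, wg μ q * b (ln μ q / L) / ln μ q * Real.sin (τ * ln μ q) := by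
  classical
  have hB0 : 0 ≤ B := (hb1 0).trans (hB 0)
  have hpos : ∀ q : Cg Γ, 0 < ln μ q ∧ 0 ≤ wg μ q := by
    rintro ⟨p, n, o⟩
    obtain ⟨h1, h2, -⟩ := OM_W3_wg hX hO hm ha hk p n o
    refine ⟨?_, h2⟩
    show 0 < ((n : ℝ) + 1) * lp μ p
    positivity
  have hςς : ς * ς = 1 := by rcases hς with rfl | rfl <;> norm_num
  have hςa : |ς| = 1 := by rcases hς with rfl | rfl <;> simp
  have h1 : ∑ q ∈ Cs (Γ := Γ) μ L with (q.2.1 = 0 ∧ ln μ q ≤ L / 2), wg μ q / ln μ q * c0 ≤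
      ς * ∑ q ∈ Cs (Γ := Γ) μ L with q.2.1 = 0,
        wg μ q * b (ln μ q / L) / ln μ q * Real.sin (τ * ln μ q) := by
    rw [Finset.mul_sum]
    have h2 : ∀ q ∈ (Cs (Γ := Γ) μ L).filter (fun q => q.2.1 = 0),
        ς * (wg μ q * b (ln μ q / L) / ln μ q * Real.sin (τ * ln μ q)) =
          wg μ q / ln μ q * b (ln μ q / L) := by
      intro q hq
      rw [Finset.mem_filter] at hq
      rw [hs q hq.1 hq.2]
      calc ς * (wg μ q * b (ln μ q / L) / ln μ q * ς) =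
          (ς * ς) * (wg μ q / ln μ q * b (ln μ q / L)) := by ring
        _ = _ := by rw [hςς, one_mul]
    rw [Finset.sum_congr rfl h2]
    have h3 : (Cs (Γ := Γ) μ L).filter (fun q => q.2.1 = 0 ∧ ln μ q ≤ L / 2) ⊆
        (Cs (Γ := Γ) μ L).filter (fun q => q.2.1 = 0) := by
      intro q hq
      rw [Finset.mem_filter] at hq ⊢
      exact ⟨hq.1, hq.2.1⟩
    refine le_trans (Finset.sum_le_sum ?_) (Finset.sum_le_sum_of_subset_of_nonneg h3 ?_)
    · intro q hq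
      rw [Finset.mem_filter] at hq
      obtain ⟨h4, h5⟩ := hpos q
      refine mul_le_mul_of_nonneg_left (hb2 _ ?_) (div_nonneg h5 h4.le)
      rw [abs_of_nonneg (div_nonneg h4.le hL.le), div_le_iff₀ hL]
      linarith [hq.2.2]
    · intro q _ _
      obtain ⟨h4, h5⟩ := hpos q
      exact mul_nonneg (div_nonneg h5 h4.le) (hb1 _)
  have h2 : -(∑ q ∈ Cs (Γ := Γ) μ L with ¬ q.2.1 = 0, wg μ q * B / ln μ q) ≤
      ς * ∑ q ∈ Cs (Γ := Γ) μ L with ¬ q.2.1 = 0,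
        wg μ q * b (ln μ q / L) / ln μ q * Real.sin (τ * ln μ q) := by
    refine (abs_le.1 ?_).1
    rw [abs_mul, hςa, one_mul]
    refine (Finset.abs_sum_le_sum_abs _ _).trans (Finset.sum_le_sum fun q _ => ?_)
    obtain ⟨h4, h5⟩ := hpos q
    rw [abs_mul, abs_div, abs_mul, abs_of_nonneg h5, abs_of_nonneg (hb1 _), abs_of_pos h4]
    refine (mul_le_of_le_one_right ?_ (Real.abs_sin_le_one _)).trans ?_
    · exact div_nonneg (mul_nonneg h5 (hb1 _)) h4.le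
    · exact div_le_div_of_nonneg_right (mul_le_mul_of_nonneg_left (hB _) h5) h4.le
  have h3 := OM_W3_rep hX hO hm ha hk (L := L) hB0
  rw [← Finset.sum_filter_add_sum_filter_not (Cs (Γ := Γ) μ L) (fun q => q.2.1 = 0)
    (fun q => wg μ q * b (ln μ q / L) / ln μ q * Real.sin (τ * ln μ q)), mul_add]
  have h4 : ∑ q ∈ Cs (Γ := Γ) μ L with (q.2.1 = 0 ∧ ln μ q ≤ L / 2),
      wg μ q / ln μ q * (c0 - B * (2 / (a * ln μ q))) =
      ∑ q ∈ Cs (Γ := Γ) μ L with (q.2.1 = 0 ∧ ln μ q ≤ L / 2), wg μ q / ln μ q * c0 -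
      ∑ q ∈ Cs (Γ := Γ) μ L with (q.2.1 = 0 ∧ ln μ q ≤ L / 2),
        wg μ q / ln μ q * (B * (2 / (a * ln μ q))) := by
    rw [← Finset.sum_sub_distrib]
    exact Finset.sum_congr rfl fun q _ => by ring
  rw [h4]
  linarith

/-- Only the short geodesics have a bad constant. -/
private theorem OM_W3_term {w l B C a c0 : ℝ} (ha : 0 < a) (hc0 : 0 < c0) (hB : 0 ≤ B)
    (hC : 1 ≤ C) (hl : C⁻¹ ≤ l) (hw : 0 ≤ w) (hw2 : w ≤ C) :
    w / l * (c0 / 2) - (if l ≤ 4 * B / (a * c0) then C * C * (B * (2 * C / a)) else 0) ≤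
      w / l * (c0 - B * (2 / (a * l))) := by
  have hC0 : 0 < C := by linarith
  have hl0 : 0 < l := (inv_pos.2 hC0).trans_le hl
  have h1 : 1 / l ≤ C := by
    rw [one_div]
    exact inv_le_of_inv_le₀ hC0 hl
  have h2 : 0 ≤ w / l := div_nonneg hw hl0.le
  split_ifs with h
  · have h3 : w / l ≤ C * C := by
      rw [div_eq_mul_one_div]
      exact mul_le_mul hw2 h1 (by positivity) hC0.le
    have h4 : B * (2 / (a * l)) ≤ B * (2 * C / a) := by
      refine mul_le_mul_of_nonneg_left ?_ hB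
      have h5 : 2 / (a * l) = 2 / a * (1 / l) := by field_simp
      have h6 : 2 * C / a = 2 / a * C := by ring
      rw [h5, h6]
      exact mul_le_mul_of_nonneg_left h1 (by positivity)
    have h7 : w / l * (B * (2 / (a * l))) ≤ C * C * (B * (2 * C / a)) :=
      mul_le_mul h3 h4 (by positivity) (by positivity)
    have h8 : 0 ≤ w / l * (c0 / 2) := by positivity
    nlinarith
  · push Not at h
    rw [sub_zero]
    refine mul_le_mul_of_nonneg_left ?_ h2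
    have h3 : B * (2 / (a * l)) ≤ c0 / 2 := by
      rw [div_lt_iff₀ (by positivity)] at h
      rw [← mul_div_assoc, div_le_iff₀ (by positivity)]
      nlinarith
    linarith

theorem sum_low (hP : Okc Γ D P) {b : ℝ → ℝ} (hb : BE33.IsB b) (hb1 : ∀ t, 0 ≤ b t) {c0 : ℝ}
    (hc0 : 0 < c0) (hb2 : ∀ t, |t| ≤ 1 / 2 → c0 ≤ b t) :
    ∃ (c C : ℝ) (n k0 : ℕ), 0 < c ∧ 1 ≤ C ∧ ∀ R ≥ k0, ∀ (η : Dir → I) (L : ℝ), C ≤ L →
      C * (1 + L) ^ n * √(P.c R) ≤ 1 → ∀ (τ ς : ℝ), (ς = 1 ∨ ς = -1) →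
      (∀ q ∈ Cs (Γ := Γ) (XX P Γ D R η) L, q.2.1 = 0 →
        Real.sin (τ * ln (XX P Γ D R η) q) = ς) →
      Real.exp (c * L) ≤ ς * ∑ q ∈ Cs (Γ := Γ) (XX P Γ D R η) L,
        wg (XX P Γ D R η) q * b (ln (XX P Γ D R η) q / L) / ln (XX P Γ D R η) q *
          Real.sin (τ * ln (XX P Γ D R η) q) := by
  classical
  have hX := hP.cx.hX
  have hO := hP.ori
  obtain ⟨B, hB⟩ : ∃ B, ∀ t, b t ≤ B := by
    have h1 : HasCompactSupport b := HasCompactSupport.intro (isCompact_Icc (a := (-1 : ℝ))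
      (b := 1)) fun t ht => hb.supp t (by
        by_contra h
        exact ht (abs_le.1 (not_lt.1 h)))
    obtain ⟨B, hB⟩ := hb.smooth.continuous.bounded_above_of_compact_support h1
    exact ⟨B, fun t => (le_abs_self _).trans (hB t)⟩
  have hB0 : 0 ≤ B := (hb1 0).trans (hB 0)
  obtain ⟨m0, hm0⟩ : ∃ m0 : Mt Γ D, m0.1.1 = P.m :=
    ⟨⟨⟨P.m, hP.hm.smooth⟩, hP.hm.pos, hP.hm.inv, hP.hm.neg, hP.area⟩, rfl⟩
  obtain ⟨c1, hc1, hbase⟩ := base_low hX hO m0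
  rw [hm0] at hbase
  obtain ⟨T0, hT0⟩ := eventually_atTop.1 hbase
  obtain ⟨C1, n1, k1, hC1, hnear⟩ := near_XX hP
  obtain ⟨C2, k2, hC2, hcnt⟩ := cnt_XX hP
  obtain ⟨k3, hhm⟩ := XX_hm hP
  obtain ⟨k4, a, b', hCF⟩ := CF_pth hP
  have ha := hCF.a_pos
  obtain ⟨l0, hl0, hlen⟩ : ∃ l0 > 0, ∀ q : Cg Γ, l0 ≤ ln P.m q := by
    obtain ⟨a0, b0, ha0, -, hk0⟩ := curv_bounds hX hP.hm
    obtain ⟨l0, hl0, h⟩ := GWin.exists_l0 (GH.ok_geo (GD.grpData hX hO hP.hm ha0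
      fun z => (hk0 z).2))
    refine ⟨l0, hl0, ?_⟩
    rintro ⟨p, n, o⟩
    have h1 : l0 ≤ lp P.m p := h p
    show l0 ≤ ((n : ℝ) + 1) * lp P.m p
    have h2 : (0 : ℝ) ≤ n := Nat.cast_nonneg n
    nlinarith
  have hwP : ∀ q : Cg Γ, 0 ≤ wg P.m q := by
    rintro ⟨p, n, o⟩
    obtain ⟨a0, b0, ha0, -, hk0⟩ := curv_bounds hX hP.hm
    exact (OM_W3_wg hX hO hP.hm ha0 (fun z => (hk0 z).2) p n o).2.1
  obtain ⟨κ, hκ⟩ : ∃ κ, κ = 1 / (2 * (1 + 1 / l0)) := ⟨_, rfl⟩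
  have hκ0 : 0 < κ := by
    rw [hκ]
    positivity
  obtain ⟨K, hK⟩ : ∃ K, K = Real.exp (C2 * (1 + 4 * B / (a * c0))) *
    (C2 * C2 * (B * (2 * C2 / a))) := ⟨_, rfl⟩
  have hK0 : 0 ≤ K := by
    rw [hK]
    positivity
  obtain ⟨M, hM⟩ : ∃ M, M = κ * (c0 / 2) * Real.exp (-c1) := ⟨_, rfl⟩
  have hM0 : 0 < M := by
    rw [hM]
    positivity
  refine ⟨c1 / 4, 1 + C1 + |2 * T0 + 2| + 4 / c1 * ((1 + K) / M), n1,
    max (max k1 k2) (max k3 k4), by positivity, ?_, ?_⟩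
  · have h1 : 0 ≤ 4 / c1 * ((1 + K) / M) := by positivity
    have h2 := abs_nonneg (2 * T0 + 2)
    linarith
  intro R hR η L hL hLc τ ς hς hs
  have hR1 : k1 ≤ R := (le_max_left _ _).trans ((le_max_left _ _).trans hR)
  have hR2 : k2 ≤ R := (le_max_right _ _).trans ((le_max_left _ _).trans hR)
  have hR3 : k3 ≤ R := (le_max_left _ _).trans ((le_max_right _ _).trans hR)
  have hR4 : k4 ≤ R := (le_max_right _ _).trans ((le_max_right _ _).trans hR)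
  have g1 : 0 ≤ 4 / c1 * ((1 + K) / M) := by positivity
  have g2 := abs_nonneg (2 * T0 + 2)
  have g3 := le_abs_self (2 * T0 + 2)
  have hL1 : 1 ≤ L := by linarith
  have hL0 : 0 < L := by linarith
  have hLT : T0 ≤ L / 2 - 1 := by linarith
  have hLM : 4 / c1 * ((1 + K) / M) ≤ L := by linarith
  have hcs : 0 ≤ (1 + L) ^ n1 * √(P.c R) := by positivity
  have hn1 : C1 * (1 + L) ^ n1 * √(P.c R) ≤ 1 := by
    refine le_trans ?_ hLc
    rw [mul_assoc, mul_assoc]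
    refine mul_le_mul_of_nonneg_right ?_ hcs
    linarith
  have hhmR := (hhm R hR3 η).1
  have hk : ∀ z, curv (XX P Γ D R η) z ≤ -a ^ 2 := by
    intro z
    have h1 := (hCF.neg ⟨(R, η), hR4⟩ (√(P.c R)) z).2
    have h2 : mm P.m (pth P Γ D (R, η)) (√(P.c R)) = XX P Γ D R η := pth_one hP R η
    rw [← h2]
    exact h1
  have hmain := OM_W3_main hX hO hhmR ha hk hb1 hB hb2 hL0 hς hs
  refine le_trans ?_ hmain
  obtain ⟨hc3, hc4⟩ := hcnt R hR2 η
  have hnear2 := fun q => hnear R hR1 η q L hL0.le hn1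
  generalize XX P Γ D R η = μ at *
  have e1 : ∑ q ∈ Cs (Γ := Γ) μ L with (q.2.1 = 0 ∧ ln μ q ≤ L / 2), wg μ q / ln μ q *
      (c0 / 2) - K ≤ ∑ q ∈ Cs (Γ := Γ) μ L with (q.2.1 = 0 ∧ ln μ q ≤ L / 2),
        wg μ q / ln μ q * (c0 - B * (2 / (a * ln μ q))) := by
    have h1 := Finset.sum_le_sum (s := (Cs (Γ := Γ) μ L).filter
      (fun q => q.2.1 = 0 ∧ ln μ q ≤ L / 2)) fun q _ =>
        OM_W3_term ha hc0 hB0 hC2 (hc3 q).1 (hc3 q).2.1 (hc3 q).2.2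
    refine le_trans ?_ h1
    rw [Finset.sum_sub_distrib]
    refine sub_le_sub_left ?_ _
    rw [← Finset.sum_filter, Finset.sum_const, nsmul_eq_mul, hK]
    refine mul_le_mul_of_nonneg_right ?_ (by positivity)
    refine le_trans ?_ (hc4 (4 * B / (a * c0)) (by positivity)).2
    refine Nat.cast_le.2 (Finset.card_le_card ?_)
    intro q hq
    rw [Cs_mem hX hO hhmR]
    exact (Finset.mem_filter.1 hq).2
  refine le_trans ?_ e1
  have e2 : κ * Real.exp (c1 * (L / 2 - 1)) ≤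
      ∑ q ∈ Cs (Γ := Γ) μ L with (q.2.1 = 0 ∧ ln μ q ≤ L / 2), wg μ q / ln μ q := by
    refine (mul_le_mul_of_nonneg_left (hT0 _ hLT) hκ0.le).trans ?_
    rw [Finset.mul_sum]
    have h1 : ∀ q ∈ (Cs (Γ := Γ) P.m (L / 2 - 1)).filter (fun q => q.2.1 = 0),
        q ∈ (Cs (Γ := Γ) μ L).filter (fun q => q.2.1 = 0 ∧ ln μ q ≤ L / 2) ∧
        κ * (wg P.m q / ln P.m q) ≤ wg μ q / ln μ q := by
      intro q hq
      rw [Finset.mem_filter, Cs_mem hX hO hP.hm] at hq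
      obtain ⟨h2, h3⟩ := hq
      obtain ⟨h4, -⟩ := hnear2 q
      obtain ⟨h5, h6, -⟩ := h4 (by linarith)
      have h7 := (abs_le.1 (h5.trans hn1)).2
      have h8 := hlen q
      have h9 : 0 < ln P.m q := hl0.trans_le h8
      have h10 : 0 < ln μ q := (inv_pos.2 (by linarith : (0 : ℝ) < C2)).trans_le (hc3 q).1
      refine ⟨?_, ?_⟩
      · rw [Finset.mem_filter, Cs_mem hX hO hhmR]
        exact ⟨by linarith, h3, by linarith⟩
      · have h11 : ln μ q ≤ ln P.m q * (1 + 1 / l0) := by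
          have h12 : 1 ≤ ln P.m q * (1 / l0) := by
            rw [mul_one_div, le_div_iff₀ hl0, one_mul]
            exact h8
          linarith
        calc κ * (wg P.m q / ln P.m q) = (wg P.m q / 2) / (ln P.m q * (1 + 1 / l0)) := by
              rw [hκ]
              have h13 : (1 + 1 / l0) ≠ 0 := by positivity
              field_simp
          _ ≤ (wg P.m q / 2) / ln μ q :=
              div_le_div_of_nonneg_left (by linarith [hwP q]) h10 h11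
          _ ≤ wg μ q / ln μ q := div_le_div_of_nonneg_right h6 h10.le
    refine (Finset.sum_le_sum fun q hq => (h1 q hq).2).trans ?_
    refine Finset.sum_le_sum_of_subset_of_nonneg (fun q hq => (h1 q hq).1) fun q _ _ => ?_
    have h10 : 0 < ln μ q := (inv_pos.2 (by linarith : (0 : ℝ) < C2)).trans_le (hc3 q).1
    exact div_nonneg (hc3 q).2.1 h10.le
  rw [← Finset.sum_mul]
  have e3 : M * (Real.exp (c1 / 4 * L) * Real.exp (c1 / 4 * L)) =
      κ * Real.exp (c1 * (L / 2 - 1)) * (c0 / 2) := by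
    have h1 : Real.exp (c1 * (L / 2 - 1)) = Real.exp (-c1) *
        (Real.exp (c1 / 4 * L) * Real.exp (c1 / 4 * L)) := by
      rw [← Real.exp_add, ← Real.exp_add]
      congr 1
      ring
    rw [h1, hM]
    ring
  have e4 : 1 + K ≤ M * Real.exp (c1 / 4 * L) := by
    have h1 : (1 + K) / M ≤ c1 / 4 * L := by
      have h2 : 4 / c1 * ((1 + K) / M) * (c1 / 4) ≤ L * (c1 / 4) :=
        mul_le_mul_of_nonneg_right hLM (by positivity)
      have h3 : 4 / c1 * ((1 + K) / M) * (c1 / 4) = (1 + K) / M := by field_simp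
      linarith
    have h2 := Real.add_one_le_exp (c1 / 4 * L)
    have h3 : (1 + K) / M ≤ Real.exp (c1 / 4 * L) := by linarith
    rw [div_le_iff₀ hM0] at h3
    linarith
  have e5 : 1 ≤ Real.exp (c1 / 4 * L) := Real.one_le_exp (by positivity)
  have e6 := mul_le_mul_of_nonneg_right e2 (by positivity : 0 ≤ c0 / 2)
  have e7 := mul_le_mul_of_nonneg_right e4 (by positivity : 0 ≤ Real.exp (c1 / 4 * L))
  nlinarith

end OM21
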