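import Pool.Agent.LibOM21.T3
import Pool.Agent.LibOM21.W3
import Pool.Agent.LibOM21.G6
import Pool.Agent.LibOM21.S1
import Pool.Agent.LibOM21.S2
import Pool.Agent.LibOM21.S3
import Pool.Agent.LibOM21.S4
import Pool.Agent.LibBE33.A3

/-! ROW A1 : one metric with a large remainder. MEDIUM.
PLAN. `b, c0` from `exists_b`; `l = r0` of `TF0` (`≤ 1` without loss: `AmpN n a r M` for a smaller support is stronger, take `l = min r0 1`). `L = T - 2` (`T ≥ C`), `τ0 = C (R+1)/c R` with the `C` of `align`, `θ = ς π/2`, `η` from `align`, `m'.1.1 = XX`, `τ = τ0 √ar`. For `q ∈ Cs XX L`, `q.2.1 = 0`: `ln P.m q ≤ L + 1 ≤ T` (`near_XX`), `ln XX q = lp XX q.1 =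
tl YY (rep q.1)/√ar` (`tl_XX`), so `τ ln XX q = τ0 tl YY (rep) = θ + 2π j` and `sin = ς`. `TF` with `a = aL b l L` (`aL_amp`, `A3_ampN`: `AmpN n a L M`, `M` independent of `L`), `ρ = L`; for `t ≥ l`: `aL b l L t = (I/(2π)) b (t/L)/t` (fundamental theorem: `t ∫ w in (1/L)..(1/l), deriv b (t w) = b (t/l) - b (t/L)`, `b (t/l) = 0` for `t > l`), so
`Re (mz XX a τ q) = wg b (ln/L)/(2π ln) sin (τ ln)` and `2 Qs = (1/π) ∑ .. + O(1)` (`Qs m' a τ = Qf (lam m') 1 a τ`: unfold, `1/(2π)`). `sum_low`: `ς * 2 Qs ≥ (1/π) exp (c L) - C`. `E5u`, `E8u` for `κ = FG33.lam m'` (`Lu C`: `UC_XX` field `cnt`; `lam ≥ 0`; the hypothesis of `E8u` from `TF0` with `a = a0 b l`, `a0_amp`): `ς (∑' WW (L (lam - τ)) - τ²/(4π)) ≥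
(1/π) exp (c L) - C' ≥ exp ((c/2) T)`. `avg_point` with `X = exp ((c/2) T)`. `τ/2 ≤ y ≤ 2 τ`, `τ = τ0 √ar`, `ar_bd`. The hypotheses of the rows: `√τ ≥ exp (C' (1+L))` etc. follow from `exp (C T) √(c R) (R + 1) ≤ 1` with `C` large: `τ ≥ (1/C) (R+1)/c R ≥ exp (2 C T)/C`. -/

open MeasureTheory Set Filter Topology
open scoped ContDiff unitInterval

namespace OM21

open BGS BR BE B35

variable {Γ : Type} [Group Γ] [MulAction Γ Pl] {D : Set Pl} {P : Dt}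

/-- the final exponential inequality -/
private theorem OM_A1_num {cs C' : ℝ} (hcs : 0 < cs) (hC' : 0 ≤ C') :
    ∃ T0 : ℝ, 1 ≤ T0 ∧ ∀ T : ℝ, T0 ≤ T →
      2 * Real.exp (cs / 2 * T) ≤ 1 / Real.pi * Real.exp (cs * (T - 2)) - C' := by
  have hpi := Real.pi_pos
  obtain ⟨d, hd⟩ : ∃ d, d = 1 / Real.pi * Real.exp (-(2 * cs)) := ⟨_, rfl⟩
  have hd0 : 0 < d := by rw [hd]; positivity
  refine ⟨max 1 (2 * ((2 + C') / d) / cs), le_max_left _ _, fun T hT => ?_⟩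
  have hT1 : 1 ≤ T := (le_max_left _ _).trans hT
  have hT2 : 2 * ((2 + C') / d) / cs ≤ T := (le_max_right _ _).trans hT
  obtain ⟨E, hE⟩ : ∃ E, E = Real.exp (cs / 2 * T) := ⟨_, rfl⟩
  have h1 : Real.exp (cs * (T - 2)) = Real.exp (-(2 * cs)) * E ^ 2 := by
    rw [hE, ← Real.exp_nat_mul, ← Real.exp_add]
    congr 1
    push_cast
    ring
  have h2 : (2 + C') / d ≤ E := by
    rw [div_le_iff₀ hcs] at hT2
    have h3 : cs / 2 * T + 1 ≤ Real.exp (cs / 2 * T) := Real.add_one_le_exp _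
    rw [← hE] at h3
    linarith
  have h4 : 1 ≤ E := by
    rw [hE]
    exact Real.one_le_exp (by positivity)
  rw [h1, ← mul_assoc, ← hd, ← hE]
  rw [div_le_iff₀ hd0] at h2
  nlinarith [mul_le_mul_of_nonneg_right h2 (by linarith : 0 ≤ E)]

private theorem OM_A1_pow {A : ℝ} {n : ℕ} {x T : ℝ} (hA : 0 ≤ A) (hx : 0 ≤ x) (hxT : x ≤ T)
    (hT : 1 ≤ T) : A * (1 + x) ^ n ≤ Real.exp ((A + n) * T) := by
  have h1 : (1 + x) ^ n ≤ Real.exp (n * T) := by
    rw [Real.exp_nat_mul]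
    refine pow_le_pow_left₀ (by linarith) ?_ n
    have h2 := Real.add_one_le_exp T
    linarith
  have h2 : A ≤ Real.exp (A * T) := by
    have h3 := Real.add_one_le_exp (A * T)
    nlinarith
  rw [add_mul, Real.exp_add]
  exact mul_le_mul h2 h1 (by positivity) (Real.exp_pos _).le

private theorem OM_A1_aL {b : ℝ → ℝ} (hb : BE33.IsB b) {l L t : ℝ} (hl : 0 < l) (ht : l < t) :
    BE33.aL b l L t = Complex.I / (2 * Real.pi) * ((b (t / L) / t : ℝ) : ℂ) := by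
  have ht0 : 0 < t := hl.trans ht
  have h1 : ∫ w in (1 / L)..(1 / l), deriv b (t * w) = -(b (t / L) / t) := by
    have h2 := intervalIntegral.integral_comp_mul_left (a := 1 / L) (b := 1 / l)
      (fun x => deriv b x) ht0.ne'
    have h3 : ∫ x in (t * (1 / L))..(t * (1 / l)), deriv b x =
        b (t * (1 / l)) - b (t * (1 / L)) := by
      refine intervalIntegral.integral_deriv_eq_sub
        (fun x _ => (hb.smooth.differentiable (by simp)).differentiableAt) ?_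
      exact (hb.smooth.continuous_deriv (by simp)).intervalIntegrable _ _
    have h4 : b (t * (1 / l)) = 0 := by
      refine hb.supp _ ?_
      rw [mul_one_div, abs_of_pos (by positivity), lt_div_iff₀ hl]
      linarith
    rw [h2, h3, h4, smul_eq_mul, mul_one_div]
    ring
  unfold BE33.aL
  rw [h1]
  push_cast
  ring

private theorem OM_A1_re (w r x : ℝ) :
    (((w : ℝ) : ℂ) * (Complex.I / (2 * Real.pi) * ((r : ℝ) : ℂ)) *
      Complex.exp (-(Complex.I * ((x : ℝ) : ℂ)))).re = 1 / (2 * Real.pi) * (w * r * Real.sin x) := by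
  have h1 : -(Complex.I * ((x : ℝ) : ℂ)) = ((-x : ℝ) : ℂ) * Complex.I := by
    push_cast
    ring
  have h2 : ((w : ℝ) : ℂ) * (Complex.I / (2 * Real.pi) * ((r : ℝ) : ℂ)) *
      (((Real.cos x : ℝ) : ℂ) + ((-Real.sin x : ℝ) : ℂ) * Complex.I) =
      ((1 / (2 * Real.pi) * (w * r * Real.sin x) : ℝ) : ℂ) +
        ((1 / (2 * Real.pi) * (w * r * Real.cos x) : ℝ) : ℂ) * Complex.I := by
    push_cast
    linear_combination (-(w : ℂ) * r * Complex.sin x / (2 * Real.pi)) * Complex.I_sq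
  rw [h1, Complex.exp_mul_I, ← Complex.ofReal_cos, ← Complex.ofReal_sin, Real.cos_neg,
    Real.sin_neg, h2, Complex.add_re, Complex.ofReal_re, Complex.mul_re, Complex.ofReal_re,
    Complex.ofReal_im, Complex.I_re, Complex.I_im]
  ring

private theorem OM_A1_sin {ς : ℝ} (hς : ς = 1 ∨ ς = -1) (j : ℤ) :
    Real.sin (ς * (Real.pi / 2) + 2 * Real.pi * j) = ς := by
  have h : ς * (Real.pi / 2) + 2 * Real.pi * j = ς * (Real.pi / 2) + j * (2 * Real.pi) := by ring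
  rw [h, Real.sin_add_int_mul_two_pi]
  rcases hς with h | h
  · rw [h, one_mul, Real.sin_pi_div_two]
  · rw [h, neg_one_mul, Real.sin_neg, Real.sin_pi_div_two]

private theorem OM_A1_Qs (m' : Mt Γ D) (a : ℝ → ℂ) (τ : ℝ) :
    B36.Qs m' a τ = BE33.Qf (FG33.lam m') 1 a τ := rfl

/-- the sum over the closed geodesics -/
private theorem OM_A1_sum {b : ℝ → ℝ} (hb : BE33.IsB b) {l L τ : ℝ} (hl : 0 < l) (X : Pl → Co)
    (h : ∀ q : Cg Γ, l < ln X q) :
    ∑ q ∈ Cs (Γ := Γ) X L, (mz X (BE33.aL b l L) τ q).re =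
      1 / (2 * Real.pi) * ∑ q ∈ Cs (Γ := Γ) X L, wg X q * b (ln X q / L) / ln X q *
        Real.sin (τ * ln X q) := by
  rw [Finset.mul_sum]
  refine Finset.sum_congr rfl fun q _ => ?_
  unfold mz B35.mt
  rw [OM_A1_aL hb hl (h q)]
  have h1 := OM_A1_re (wg X q) (b (ln X q / L) / ln X q) (τ * ln X q)
  rw [Complex.ofReal_mul τ, ← mul_assoc Complex.I] at h1
  rw [h1, mul_div_assoc]

theorem omega_one (hP : Okc Γ D P) : ∃ (c C : ℝ) (k0 : ℕ), 0 < c ∧ 1 ≤ C ∧ ∀ R ≥ k0, ∀ T : ℕ,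
    C ≤ T → Real.exp (C * T) ≤ R → Real.exp (C * T) * √(P.c R) * (R + 1) ≤ 1 →
    ∀ ς : ℝ, (ς = 1 ∨ ς = -1) → ∃ η : Dir → I, ∀ m' : Mt Γ D, m'.1.1 = XX P Γ D R η →
      ∃ y : ℝ, (R + 1) / P.c R ≤ y ∧ y ≤ C * (R + 1) / P.c R ∧
        (ς = 1 → Real.exp (c * T) ≤ Ncs (FG33.lam m') y - y ^ 2 / (4 * Real.pi)) ∧
        (ς = -1 → BE33.Nc (FG33.lam m') y - y ^ 2 / (4 * Real.pi) ≤ -Real.exp (c * T)) := by
  obtain ⟨b, c0, hb, hb1, hc0, hb2⟩ := exists_b
  obtain ⟨CU, hCU⟩ := UC_XX hP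
  obtain ⟨Ca, hCa1, hCa⟩ := ar_bd hP
  obtain ⟨r0, C0, n0, k1, hr0, hC0, hTF0⟩ := TF0 hP
  obtain ⟨CT, nT, k2, hCT, hTF⟩ := TF hP
  obtain ⟨cs, Cw, nw, k3, hcs, hCw, hW⟩ := sum_low hP hb hb1 hc0 hb2
  obtain ⟨CA, nA, k4, hCA, hA⟩ := align hP
  obtain ⟨CN, nN, k5, hCN, hN⟩ := near_XX hP
  obtain ⟨k6, hHM⟩ := XX_hm hP
  obtain ⟨l, hldef⟩ : ∃ l, l = min r0 1 := ⟨_, rfl⟩
  have hl : 0 < l := by rw [hldef]; exact lt_min hr0 one_pos
  have hl1 : l ≤ 1 := by rw [hldef]; exact min_le_right _ _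
  have hlr : l ≤ r0 := by rw [hldef]; exact min_le_left _ _
  obtain ⟨M0s, hM0s⟩ := BE33.a0_amp hb hl
  obtain ⟨Ms, hMs⟩ := BE33.aL_amp hb hl
  have hM0r : BE33.AmpS (BE33.a0 b l) r0 M0s :=
    ⟨hM0s.smooth, hM0s.conj, fun t ht => hM0s.supp t (lt_of_le_of_lt hlr ht), hM0s.bound⟩
  have hM0 := BE33.A3_ampN hM0r n0
  obtain ⟨M0, hM0def⟩ : ∃ M0, M0 = ∑ k ∈ Finset.range (n0 + 5), M0s k := ⟨_, rfl⟩
  rw [← hM0def] at hM0
  obtain ⟨MT, hMTdef⟩ : ∃ MT, MT = ∑ k ∈ Finset.range (nT + 5), Ms k := ⟨_, rfl⟩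
  have hMT : ∀ L : ℝ, l ≤ L → BE73.AmpN nT (BE33.aL b l L) L MT := by
    intro L hL
    rw [hMTdef]
    exact BE33.A3_ampN (hMs L hL) nT
  have hMT0 : 0 ≤ MT := (norm_nonneg _).trans ((hMT l le_rfl).bound 0 (Nat.zero_le _) 0)
  obtain ⟨C5, hC50, hC5⟩ := E5u hb hl CU
  obtain ⟨CE, hCE⟩ : ∃ CE, CE = max CU (max C0 (C0 * M0)) := ⟨_, rfl⟩
  obtain ⟨C8, hC80, hC8⟩ := E8u hb hl CE
  obtain ⟨CV, hCV1, hCV⟩ := avg_point hb CU
  obtain ⟨T0, hT01, hT0⟩ := OM_A1_num hcs (C' := 2 * MT + C5 + C8) (by positivity)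
  obtain ⟨sC, hsC⟩ : ∃ sC, sC = √Ca := ⟨_, rfl⟩
  have hsC1 : 1 ≤ sC := by rw [hsC]; exact Real.one_le_sqrt.2 hCa1
  obtain ⟨K, hK⟩ : ∃ K, K = CA + 2 * sC := ⟨_, rfl⟩
  have hK0 : 0 < K := by rw [hK]; linarith
  have hKs : 0 < K * sC := mul_pos hK0 (by linarith)
  have hVc : 0 < CV / cs := div_pos (by linarith) hcs
  have hnw : (0 : ℝ) ≤ nw := Nat.cast_nonneg _
  have hnA : (0 : ℝ) ≤ nA := Nat.cast_nonneg _
  have hnN : (0 : ℝ) ≤ nN := Nat.cast_nonneg _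
  obtain ⟨C, hC⟩ : ∃ C, C = 3 + 2 * CT + (Cw + nw) + (CA + nA) + (CN + nN) + CV + T0 +
      2 * (K * sC) + 2 * (CV / cs) := ⟨_, rfl⟩
  refine ⟨cs / 2, C, k1 + k2 + k3 + k4 + k5 + k6, by linarith, by linarith, ?_⟩
  intro R hR T hT hexp hsm ς hς
  have hcR0 : 0 < P.c R := hP.cx.cs.pos R
  have hcR1 : P.c R ≤ 1 := hP.cx.cs.le_one R
  have hR0 : (0 : ℝ) ≤ R := Nat.cast_nonneg _
  have hT3 : (3 : ℝ) ≤ T := by linarith
  have hTn : 1 ≤ T := by
    have : (1 : ℝ) ≤ T := by linarith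
    exact_mod_cast this
  obtain ⟨L, hL⟩ : ∃ L : ℝ, L = T - 2 := ⟨_, rfl⟩
  have hL1 : 1 ≤ L := by linarith
  have hsq0 : 0 ≤ √(P.c R) := Real.sqrt_nonneg _
  -- the smallness of the coefficients
  have hsm1 : Real.exp (C * T) * √(P.c R) ≤ 1 := by
    refine le_trans (le_mul_of_one_le_right (mul_nonneg (Real.exp_pos _).le hsq0) ?_) hsm
    linarith
  have hle : ∀ x : ℝ, x ≤ C → Real.exp (x * T) ≤ Real.exp (C * T) := fun x hx =>
    Real.exp_le_exp.2 (mul_le_mul_of_nonneg_right hx (by linarith))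
  have hR2 : (R + 1) / P.c R ≥ R + 1 := by
    rw [ge_iff_le, le_div_iff₀ hcR0]
    exact mul_le_of_le_one_right (by linarith) hcR1
  have hQ0 : 0 < (R + 1) / P.c R := by linarith
  -- the alignment
  obtain ⟨τ0, hτ0⟩ : ∃ τ0, τ0 = K * ((R + 1) / P.c R) := ⟨_, rfl⟩
  obtain ⟨η, hη⟩ := hA R (by omega) T hTn ((hle CA (by linarith)).trans hexp)
    (by
      have h1 := OM_A1_pow (n := nA) (by linarith : (0 : ℝ) ≤ CA)
        (by linarith : (0 : ℝ) ≤ (T : ℝ)) le_rfl (by linarith : (1 : ℝ) ≤ (T : ℝ))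
      refine le_trans ?_ hsm
      refine mul_le_mul_of_nonneg_right (mul_le_mul_of_nonneg_right ?_ hsq0) (by linarith)
      exact h1.trans (hle _ (by linarith)))
    (ς * (Real.pi / 2)) τ0
    (by
      rw [hτ0, mul_div_assoc]
      exact mul_le_mul_of_nonneg_right (by linarith) hQ0.le)
  refine ⟨η, fun m' hm' => ?_⟩
  obtain ⟨ha1, ha2⟩ := hCa R η
  have hCa0 : 0 < Ca := by linarith
  have har0 : 0 < ar P Γ D R η := lt_of_lt_of_le (inv_pos.2 hCa0) ha1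
  obtain ⟨sa, hsa⟩ : ∃ sa, sa = √(ar P Γ D R η) := ⟨_, rfl⟩
  have hsa0 : 0 < sa := by rw [hsa]; exact Real.sqrt_pos.2 har0
  have hsa2 : sa ≤ sC := by rw [hsa, hsC]; exact Real.sqrt_le_sqrt ha2
  have hsa1 : 1 ≤ sC * sa := by
    rw [hsa, hsC, ← Real.sqrt_mul hCa0.le]
    refine Real.one_le_sqrt.2 ?_
    calc (1 : ℝ) = Ca * Ca⁻¹ := (mul_inv_cancel₀ hCa0.ne').symm
      _ ≤ Ca * ar P Γ D R η := mul_le_mul_of_nonneg_left ha1 hCa0.le
  obtain ⟨τ, hτ⟩ : ∃ τ, τ = τ0 * sa := ⟨_, rfl⟩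
  have hτlow : 2 * ((R + 1) / P.c R) ≤ τ := by
    rw [hτ, hτ0]
    have h1 : 2 ≤ K * sa := by
      have h2 : 2 * sC * sa ≤ K * sa := mul_le_mul_of_nonneg_right (by linarith) hsa0.le
      nlinarith
    calc 2 * ((R + 1) / P.c R) ≤ (K * sa) * ((R + 1) / P.c R) :=
          mul_le_mul_of_nonneg_right h1 hQ0.le
      _ = K * ((R + 1) / P.c R) * sa := by ring
  have hτup : 2 * τ ≤ C * (R + 1) / P.c R := by
    rw [hτ, hτ0, mul_div_assoc]
    calc 2 * (K * ((R + 1) / P.c R) * sa) = 2 * (K * sa) * ((R + 1) / P.c R) := by ring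
      _ ≤ C * ((R + 1) / P.c R) := by
        refine mul_le_mul_of_nonneg_right ?_ hQ0.le
        have h1 : K * sa ≤ K * sC := mul_le_mul_of_nonneg_left hsa2 hK0.le
        linarith
  have hτexp : Real.exp (C * T) ≤ τ := by
    refine hexp.trans ?_
    linarith
  have hCT1 : C ≤ τ := by
    refine le_trans ?_ hτexp
    have h1 := Real.add_one_le_exp (C * T)
    have h2 : C * 1 ≤ C * T := mul_le_mul_of_nonneg_left (by linarith) (by linarith)
    linarith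
  have hτ1 : 1 ≤ τ := by linarith
  have hτpos : 0 < τ := by linarith
  -- the levels
  have hUC := hCU R η m' hm'
  have hLu : ∀ C' : ℝ, CU ≤ C' → Lu C' (FG33.lam m') := by
    intro C' hC'
    refine ⟨fun k => Real.sqrt_nonneg _, fun y hy => ⟨(hUC.cnt y hy).1, (hUC.cnt y hy).2.trans ?_⟩⟩
    exact mul_le_mul_of_nonneg_right hC' (sq_nonneg y)
  -- lengths
  obtain ⟨hX1, -, -⟩ := hHM R (by omega) η
  obtain ⟨hlen, hT0'⟩ := hTF0 R (by omega) η m' hm'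
  have hsin : ∀ q ∈ Cs (Γ := Γ) (XX P Γ D R η) L, q.2.1 = 0 →
      Real.sin (τ * ln (XX P Γ D R η) q) = ς := by
    intro q hq hq0
    have hq1 : ln (XX P Γ D R η) q ≤ L := (Cs_mem hP.cx.hX hP.ori hX1).1 hq
    have h1 := (hN R (by omega) η q L (by linarith) (by
      have h1 := OM_A1_pow (n := nN) (by linarith : (0 : ℝ) ≤ CN)
        (by linarith : (0 : ℝ) ≤ L) (by linarith : L ≤ (T : ℝ)) (by linarith : (1 : ℝ) ≤ (T : ℝ))
      refine le_trans ?_ hsm1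
      exact mul_le_mul_of_nonneg_right (h1.trans (hle _ (by linarith))) hsq0)).2 hq1
    have h2 : ∀ m : Pl → Co, ln m q = lp m q.1 := by
      intro m
      unfold ln
      rw [hq0]
      simp
    rw [h2] at h1
    obtain ⟨j, hj⟩ := hη q.1 (by linarith)
    rw [h2]
    have h3 : τ * lp (XX P Γ D R η) q.1 = ς * (Real.pi / 2) + 2 * Real.pi * j := by
      rw [← hj]
      unfold B35.lp
      rw [tl_XX hP, ← hsa, hτ]
      field_simp
    rw [h3]
    exact OM_A1_sin hς j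
  have hlen' : ∀ q : Cg Γ, l < ln (XX P Γ D R η) q := fun q => lt_of_le_of_lt hlr (hlen q)
  have hS := hW R (by omega) η L (by linarith) (by
      have h1 := OM_A1_pow (n := nw) (by linarith : (0 : ℝ) ≤ Cw)
        (by linarith : (0 : ℝ) ≤ L) (by linarith : L ≤ (T : ℝ)) (by linarith : (1 : ℝ) ≤ (T : ℝ))
      refine le_trans ?_ hsm1
      exact mul_le_mul_of_nonneg_right (h1.trans (hle _ (by linarith))) hsq0) τ ς hς hsin
  -- the trace formula
  have hlL : l ≤ L := by linarith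
  have hexpL : Real.exp (CT * (1 + L)) ≤ Real.exp (CT * T) :=
    Real.exp_le_exp.2 (mul_le_mul_of_nonneg_left (by linarith) (by linarith))
  have hexp2 : Real.exp (CT * T) * Real.exp (CT * T) ≤ Real.exp (C * T) := by
    rw [← Real.exp_add]
    refine Real.exp_le_exp.2 ?_
    rw [← add_mul]
    exact mul_le_mul_of_nonneg_right (by linarith) (by linarith)
  have htr := hTF R (by omega) η m' hm' (BE33.aL b l L) L MT τ (by linarith) (hMT L hlL)
    (hexpL.trans ((hle CT (by linarith)).trans hτexp))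
    ((mul_le_mul_of_nonneg_right (hexpL.trans (hle CT (by linarith))) hsq0).trans hsm1)
  rw [OM_A1_sum hb hl _ hlen', OM_A1_Qs] at htr
  have herr : Real.exp (CT * (1 + L)) * MT / √τ ≤ MT := by
    have h1 : Real.exp (CT * T) ≤ √τ := by
      refine Real.le_sqrt_of_sq_le ?_
      rw [sq]
      exact hexp2.trans hτexp
    rw [div_le_iff₀ (Real.sqrt_pos.2 hτpos), mul_comm MT]
    exact mul_le_mul_of_nonneg_right (hexpL.trans h1) hMT0
  have h5 := hC5 (FG33.lam m') (hLu CU le_rfl) L hlL τ hτ1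
  have h8 := hC8 (FG33.lam m') (hLu CE (by rw [hCE]; exact le_max_left _ _))
    (fun τ' hτ' => by
      have h1 : C0 ≤ τ' := le_trans (by rw [hCE]; exact (le_max_left _ _).trans (le_max_right _ _)) hτ'
      have h2 := hT0' (BE33.a0 b l) M0 τ' hM0 h1
      rw [OM_A1_Qs] at h2
      refine h2.trans (div_le_div_of_nonneg_right ?_ (sq_nonneg _))
      rw [hCE]
      exact (le_max_right _ _).trans (le_max_right _ _)) τ hτ1
  -- the smoothed counting function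
  have hfin := hT0 T (by linarith)
  have hpi := Real.pi_pos
  have hXL : CV ≤ 2 * Real.exp (cs / 2 * T) := by
    have h1 := Real.add_one_le_exp (cs / 2 * T)
    have h2 : 2 * (CV / cs) ≤ (T : ℝ) := by linarith
    have h3 : CV ≤ cs / 2 * T := by
      have h4 : cs / 2 * (2 * (CV / cs)) ≤ cs / 2 * T :=
        mul_le_mul_of_nonneg_left h2 (by linarith)
      have h5 : cs / 2 * (2 * (CV / cs)) = CV := by field_simp
      linarith
    linarith
  obtain ⟨hV1, hV2⟩ := hCV (FG33.lam m') (hLu CU le_rfl) L hL1 τ (by linarith)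
    (2 * Real.exp (cs / 2 * T)) hXL
  rw [hL] at hS
  rw [abs_le] at htr h5 h8
  rw [← hL] at hS
  have hS' : Real.exp (cs * (T - 2)) ≤ ς * ∑ q ∈ Cs (Γ := Γ) (XX P Γ D R η) L,
      wg (XX P Γ D R η) q * b (ln (XX P Γ D R η) q / L) / ln (XX P Γ D R η) q *
        Real.sin (τ * ln (XX P Γ D R η) q) := by
    rw [← hL]
    exact hS
  generalize (∑ q ∈ Cs (Γ := Γ) (XX P Γ D R η) L,
      wg (XX P Γ D R η) q * b (ln (XX P Γ D R η) q / L) / ln (XX P Γ D R η) q *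
        Real.sin (τ * ln (XX P Γ D R η) q)) = S at htr hS'
  generalize BE33.Qf (FG33.lam m') 1 (BE33.aL b l L) τ = Q at htr h5
  generalize ∑' k, BE33.WW b (l * (FG33.lam m' k - τ)) = W1 at h5 h8
  generalize ∑' k, BE33.WW b (L * (FG33.lam m' k - τ)) = W2 at h5 hV1 hV2
  obtain ⟨e1, e2⟩ := htr
  obtain ⟨e3, e4⟩ := h5
  obtain ⟨e5, e6⟩ := h8
  have hpS : 2 * (1 / (2 * Real.pi) * S) = 1 / Real.pi * S := by field_simp
  rcases hς with h | h
  · subst h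
    rw [one_mul] at hS'
    have h9 : 1 / Real.pi * Real.exp (cs * (T - 2)) ≤ 1 / Real.pi * S :=
      mul_le_mul_of_nonneg_left hS' (by positivity)
    obtain ⟨y, hy1, hy2, hy3⟩ := hV1 (by linarith)
    refine ⟨y, by linarith, by linarith, fun _ => by linarith, fun h => ?_⟩
    norm_num at h
  · subst h
    have h9 : 1 / Real.pi * Real.exp (cs * (T - 2)) ≤ 1 / Real.pi * (-1 * S) :=
      mul_le_mul_of_nonneg_left hS' (by positivity)
    rw [neg_one_mul, mul_neg] at h9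
    obtain ⟨y, hy1, hy2, hy3⟩ := hV2 (by linarith)
    refine ⟨y, by linarith, by linarith, fun h => ?_, fun _ => by linarith⟩
    norm_num at h

end OM21
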