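import Pool.Agent.LibOM21.Defs

/-! ROW N1 : the choice of the coefficients. MEDIUM, only real analysis.
PLAN. For `j ≥ 1` let `T_j ≥ j` be a natural number, increasing in `j`, with `G y ≤ y ^ (1/j²)` for all `y ≥ T_j`. Let `J R = max {j | T_j ≤ R}` (`0` if there is none; monotone, tends to infinity) and `c R = (R + 1) ^ (-(J R : ℝ))` or `((R + 1 : ℝ) ^ J R)⁻¹`. `Cs c`: positive, `≤ 1`, antitone, `Rapid`. For `R ≤ y ≤ K (R+1)/(s c R) = (K/s) (R+1)^(J + 1)`, `j = J R`: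
`y ≥ T_j`, so `G y ≤ y ^ (1/j²) ≤ ((K/s) (R+1)^(j+1))^(1/j²) ≤ (R+1)^ε` for large `R` (`(j+1)/j² → 0`, `(K/s)^(1/j²)` bounded). -/

open MeasureTheory Set Filter Topology
open scoped ContDiff unitInterval

namespace OM21

open BGS BR BE B35

private def OM_N1_P (G : ℝ → ℝ) (j R : ℕ) : Prop :=
  ∀ y : ℝ, (R : ℝ) ≤ y → G y ≤ y ^ (1 / ((j : ℝ) ^ 2))

open Classical in
private noncomputable def OM_N1_J (G : ℝ → ℝ) (R : ℕ) : ℕ :=
  Nat.findGreatest (fun j => OM_N1_P G j R) R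

private theorem OM_N1_mono (G : ℝ → ℝ) : Monotone (OM_N1_J G) := by
  classical
  intro a b hab
  rcases Nat.eq_zero_or_pos (OM_N1_J G a) with h0 | h0
  · rw [h0]; exact Nat.zero_le _
  · have h1 : OM_N1_P G (OM_N1_J G a) a :=
      Nat.findGreatest_of_ne_zero (P := fun j => OM_N1_P G j a) rfl (by omega)
    have h2 : OM_N1_J G a ≤ a := Nat.findGreatest_le (P := fun j => OM_N1_P G j a) a
    refine Nat.le_findGreatest (h2.trans hab) ?_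
    intro y hy
    refine h1 y (le_trans ?_ hy)
    exact_mod_cast hab

private theorem OM_N1_tend {G : ℝ → ℝ} (hG : ∀ c : ℝ, 0 < c → ∀ᶠ T : ℝ in atTop, G T ≤ T ^ c)
    (j : ℕ) (hj : 1 ≤ j) : ∀ᶠ R : ℕ in atTop, j ≤ OM_N1_J G R := by
  classical
  have hj' : (0 : ℝ) < 1 / ((j : ℝ) ^ 2) := by
    have : (0 : ℝ) < j := by exact_mod_cast hj
    positivity
  obtain ⟨a, ha⟩ := eventually_atTop.1 (hG _ hj')
  obtain ⟨n, hn⟩ := exists_nat_ge a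
  filter_upwards [eventually_ge_atTop n, eventually_ge_atTop j] with R hR hR'
  refine Nat.le_findGreatest hR' ?_
  intro y hy
  refine ha y (hn.trans (le_trans ?_ hy))
  exact_mod_cast hR

private theorem OM_N1_spec {G : ℝ → ℝ} {R : ℕ} (h : 1 ≤ OM_N1_J G R) :
    OM_N1_P G (OM_N1_J G R) R := by
  classical
  exact Nat.findGreatest_of_ne_zero (P := fun j => OM_N1_P G j R) rfl
    (by have := h; unfold OM_N1_J at this; omega)

private theorem OM_N1_one (R : ℕ) : (1 : ℝ) ≤ (R : ℝ) + 1 := by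
  have : (0 : ℝ) ≤ R := Nat.cast_nonneg R
  linarith

private theorem OM_N1_cs {G : ℝ → ℝ} (hG : ∀ c : ℝ, 0 < c → ∀ᶠ T : ℝ in atTop, G T ≤ T ^ c) :
    Cs (fun R : ℕ => (((R : ℝ) + 1) ^ (OM_N1_J G R))⁻¹) := by
  refine ⟨?_, ?_, ?_, ?_⟩
  · intro R
    have := OM_N1_one R
    positivity
  · intro R
    exact inv_le_one_of_one_le₀ (one_le_pow₀ (OM_N1_one R))
  · intro a b hab
    have ha := OM_N1_one a
    have hab' : (a : ℝ) + 1 ≤ (b : ℝ) + 1 := by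
      have : (a : ℝ) ≤ b := by exact_mod_cast hab
      linarith
    have h1 : ((a : ℝ) + 1) ^ (OM_N1_J G a) ≤ ((b : ℝ) + 1) ^ (OM_N1_J G b) :=
      (pow_le_pow_left₀ (by linarith) hab' _).trans
        (pow_le_pow_right₀ (OM_N1_one b) (OM_N1_mono G hab))
    exact inv_anti₀ (by positivity) h1
  · intro B
    have h0 : Tendsto (fun N : ℕ => (1 : ℝ) / ((N : ℝ) + 1)) atTop (𝓝 0) :=
      tendsto_one_div_add_atTop_nhds_zero_nat
    refine tendsto_of_tendsto_of_tendsto_of_le_of_le' tendsto_const_nhds h0 ?_ ?_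
    · filter_upwards with N
      have := OM_N1_one N
      positivity
    · filter_upwards [OM_N1_tend hG (B + 1) (by omega)] with N hN
      have hN1 := OM_N1_one N
      have hp : (0 : ℝ) < (N : ℝ) + 1 := by linarith
      have h1 : ((N : ℝ) + 1) ^ (B + 1) ≤ ((N : ℝ) + 1) ^ (OM_N1_J G N) :=
        pow_le_pow_right₀ hN1 hN
      have h2 : (((N : ℝ) + 1) ^ (OM_N1_J G N))⁻¹ ≤ (((N : ℝ) + 1) ^ (B + 1))⁻¹ :=
        inv_anti₀ (by positivity) h1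
      have h3 : (N : ℝ) ^ B ≤ ((N : ℝ) + 1) ^ B :=
        pow_le_pow_left₀ (Nat.cast_nonneg N) (by linarith) _
      calc (N : ℝ) ^ B * (((N : ℝ) + 1) ^ (OM_N1_J G N))⁻¹
          ≤ ((N : ℝ) + 1) ^ B * (((N : ℝ) + 1) ^ (B + 1))⁻¹ :=
            mul_le_mul h3 h2 (by positivity) (by positivity)
        _ = 1 / ((N : ℝ) + 1) := by
            rw [pow_succ]
            field_simp

theorem exists_c {G : ℝ → ℝ} (hG : ∀ c : ℝ, 0 < c → ∀ᶠ T : ℝ in atTop, G T ≤ T ^ c) :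
    ∃ c : ℕ → ℝ, Cs c ∧ ∀ s K ε : ℝ, 0 < s → 0 < K → 0 < ε → ∀ᶠ R : ℕ in atTop,
      ∀ y : ℝ, (R : ℝ) ≤ y → y ≤ K * (R + 1) / (s * c R) → G y ≤ ((R : ℝ) + 1) ^ ε := by
  refine ⟨fun R : ℕ => (((R : ℝ) + 1) ^ (OM_N1_J G R))⁻¹, OM_N1_cs hG, ?_⟩
  intro s K ε hs hK hε
  obtain ⟨n, hn⟩ := exists_nat_ge (K / s)
  obtain ⟨m, hm⟩ := exists_nat_ge (3 / ε)
  filter_upwards [eventually_ge_atTop n, OM_N1_tend hG (m + 1) (by omega)] with R hR hJ y hy hy2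
  set j := OM_N1_J G R with hj
  have hj1 : 1 ≤ j := by omega
  have hR1 := OM_N1_one R
  have hRp : (0 : ℝ) < (R : ℝ) + 1 := by linarith
  have hy0 : 0 ≤ y := (Nat.cast_nonneg R).trans hy
  have hjp : (0 : ℝ) < (j : ℝ) := by exact_mod_cast hj1
  have h1 : G y ≤ y ^ (1 / ((j : ℝ) ^ 2)) := OM_N1_spec (G := G) (R := R) hj1 y hy
  have h2 : y ≤ ((R : ℝ) + 1) ^ (j + 2) := by
    have h3 : K * ((R : ℝ) + 1) / (s * (((R : ℝ) + 1) ^ j)⁻¹) = (K / s) * ((R : ℝ) + 1) ^ (j + 1) := by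
      rw [pow_succ]
      field_simp
    have h4 : K / s ≤ (R : ℝ) + 1 := by
      have : (n : ℝ) ≤ R := by exact_mod_cast hR
      linarith
    calc y ≤ K * ((R : ℝ) + 1) / (s * (((R : ℝ) + 1) ^ j)⁻¹) := hy2
      _ = (K / s) * ((R : ℝ) + 1) ^ (j + 1) := h3
      _ ≤ ((R : ℝ) + 1) * ((R : ℝ) + 1) ^ (j + 1) := by
          exact mul_le_mul_of_nonneg_right h4 (by positivity)
      _ = ((R : ℝ) + 1) ^ (j + 2) := by ring
  have h5 : y ^ (1 / ((j : ℝ) ^ 2)) ≤ (((R : ℝ) + 1) ^ (j + 2)) ^ (1 / ((j : ℝ) ^ 2)) :=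
    Real.rpow_le_rpow hy0 h2 (by positivity)
  have h6 : (((R : ℝ) + 1) ^ (j + 2)) ^ (1 / ((j : ℝ) ^ 2)) =
      ((R : ℝ) + 1) ^ (((j + 2 : ℕ) : ℝ) * (1 / ((j : ℝ) ^ 2))) := by
    rw [Real.rpow_mul hRp.le, Real.rpow_natCast]
  have h7 : ((j + 2 : ℕ) : ℝ) * (1 / ((j : ℝ) ^ 2)) ≤ ε := by
    have h8 : (m : ℝ) + 1 ≤ j := by exact_mod_cast hJ
    have h9 : 3 / ε ≤ (j : ℝ) := by linarith
    have h10 : 3 ≤ (j : ℝ) * ε := by
      rw [div_le_iff₀ hε] at h9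
      exact h9
    have h11 : (1 : ℝ) ≤ j := by exact_mod_cast hj1
    rw [mul_one_div, div_le_iff₀ (by positivity)]
    push_cast
    nlinarith
  calc G y ≤ y ^ (1 / ((j : ℝ) ^ 2)) := h1
    _ ≤ (((R : ℝ) + 1) ^ (j + 2)) ^ (1 / ((j : ℝ) ^ 2)) := h5
    _ = ((R : ℝ) + 1) ^ (((j + 2 : ℕ) : ℝ) * (1 / ((j : ℝ) ^ 2))) := h6
    _ ≤ ((R : ℝ) + 1) ^ ε := Real.rpow_le_rpow_of_exponent_le hR1 h7

end OM21
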