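import Pool.Agent.LibOM21.A1
import Pool.Agent.LibOM21.N1
import Pool.Agent.LibGX66.U2

/-! ROW A2 : density. MEDIUM. Add the import Pool.Agent.LibGX66.U2 in your file (models: `good_dense`, `ok_of`, `X_of` in LibGX66/U2.lean).
PLAN. `c` from `exists_c`, `L0` from `BGM.GM_dom` for `D` (`|z| ≤ L0 - 1` on `closure D`), `L = L0 + 1`. `BGM.QML_near hX L hc m hU` gives `ε0`; `s = min ε0 1`; `P = ⟨m.1.1, fun _ => 0, L, fun R => s * c R⟩`. `Okc`: `cx` as in `ok_of` (`BGM.E2_base`, `BGM.h1_of`, `Cs (s c)` from `Cs c`: see `cn_Cs`), `hm_of_Mt m`, `area`: `m.2.area`. For all `ξ` there is `m' ∈ U` with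
`m'.1.1 = (q exp (s ps ξ)) • m.1.1 = P.X Γ D ξ` (proof of `X_of`, for general `c`: copy). `omega_one hP`: `c1, C, k0`. Choose `T = ⌊log R/(2 C)⌋₊`: `exp (C T) ≤ √R ≤ R`, `exp (C T) √(s c R) (R+1) ≤ 1` for large `R` (`Rapid`), `exp (c1 T) ≥ exp (-c1) R^(c1/(2C))`, while for `R ≤ y ≤ C (R+1)/(s c R)`: `n G y ≤ n (R+1)^ε`, `ε = c1/(4C)`, `y ≥ (R+1)/(s c R) ≥ R > n`.
`G y` may be negative: then use `n G y ≤ n (R+1)^ε` all the same. `η` from `omega_one`, `XX P Γ D R η = P.X Γ D (on R η) = m'.1.1`. -/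

open MeasureTheory Set Filter Topology
open scoped ContDiff unitInterval

namespace OM21

open BGS BR BE B35

variable {Γ : Type} [Group Γ] [MulAction Γ Pl] {D : Set Pl}

/-- The metric of area one, for general coefficients. -/
private theorem OM_A2_X_of {m' m : Mt Γ D} {L : ℕ} {c : ℕ → ℝ} {s q : ℝ} (hq : 0 < q)
    {ζ : Dir → I}
    (h : ∀ z, m'.1.1 z = (q * Real.exp (s * BGM.ps Γ L c ζ z)) • m.1.1 z) :
    m'.1.1 = B35.Dt.X ⟨m.1.1, fun _ => 0, L, fun R => s * c R⟩ Γ D ζ := by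
  set f : Pl → ℝ := BGM.ex Γ (fun _ => 0) L (fun R => s * c R) ζ with hf
  have h' : ∀ z, m'.1.1 z = (q * Real.exp (f z)) • m.1.1 z := by
    intro z
    rw [h z, hf]
    unfold BGM.ex
    rw [BGM.GM_ps, zero_add]
  have harea := m'.2.area
  have e1 : ∀ z, √(dt (m'.1.1 z)) = q * (Real.exp (f z) * √(dt (m.1.1 z))) := by
    intro z
    rw [h' z]
    have e2 : dt ((q * Real.exp (f z)) • m.1.1 z) = (q * Real.exp (f z)) ^ 2 * dt (m.1.1 z) := by
      unfold dt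
      simp only [Prod.smul_fst, Prod.smul_snd, smul_eq_mul]
      ring
    rw [e2, Real.sqrt_mul (sq_nonneg _), Real.sqrt_sq (by positivity)]
    ring
  simp only [e1] at harea
  rw [integral_const_mul] at harea
  set A : ℝ := ∫ w in D, Real.exp (f w) * √(dt (m.1.1 w)) with hA
  have hA0 : 0 < A := by
    by_contra hn
    have h3 := mul_nonpos_of_nonneg_of_nonpos hq.le (not_lt.1 hn)
    linarith
  have hqA : q = Real.exp (-Real.log A) := by
    rw [Real.exp_neg, Real.exp_log hA0]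
    field_simp
    exact harea
  funext z
  rw [h' z]
  unfold B35.Dt.X B35.Dt.h B35.nx
  show (q * Real.exp (f z)) • m.1.1 z = Real.exp (f z - Real.log A) • m.1.1 z
  rw [sub_eq_add_neg, Real.exp_add, hqA, mul_comm]

/-- The choice of the scale. -/
private theorem OM_A2_scale {G : ℝ → ℝ} {c : ℕ → ℝ} (hpos : ∀ R, 0 < c R) (hle : ∀ R, c R ≤ 1)
    (hrap : ∀ B : ℕ, Tendsto (fun N : ℕ => (N : ℝ) ^ B * c N) atTop (𝓝 0))
    {s C c1 : ℝ} (hs : 0 < s) (hs1 : s ≤ 1) (hC : 1 ≤ C) (hc1 : 0 < c1)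
    (hG : ∀ᶠ R : ℕ in atTop, ∀ y : ℝ, (R : ℝ) ≤ y → y ≤ C * (R + 1) / (s * c R) →
      G y ≤ ((R : ℝ) + 1) ^ (c1 / (4 * C))) (k0 n : ℕ) :
    ∃ R ≥ k0, ∃ T : ℕ, C ≤ T ∧ Real.exp (C * T) ≤ R ∧
      Real.exp (C * T) * √(s * c R) * (R + 1) ≤ 1 ∧
      ∀ y : ℝ, ((R : ℝ) + 1) / (s * c R) ≤ y → y ≤ C * (R + 1) / (s * c R) →
        n < y ∧ n * G y < Real.exp (c1 * T) := by
  have hC0 : 0 < C := by linarith
  obtain ⟨a, ha⟩ : ∃ a : ℝ, a = c1 / (4 * C) := ⟨_, rfl⟩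
  have ha0 : 0 < a := by rw [ha]; positivity
  have hlog : Tendsto (fun R : ℕ => Real.log (R : ℝ)) atTop atTop :=
    Real.tendsto_log_atTop.comp tendsto_natCast_atTop_atTop
  have hpow : Tendsto (fun R : ℕ => (R : ℝ) ^ a) atTop atTop :=
    (tendsto_rpow_atTop ha0).comp tendsto_natCast_atTop_atTop
  have h4 : ∀ᶠ N : ℕ in atTop, 16 * ((N : ℝ) ^ 4 * c N) < 1 := by
    have h := (hrap 4).const_mul 16
    rw [mul_zero] at h
    exact h.eventually_lt_const one_pos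
  obtain ⟨R, hRk, hRn, hR1, hR2, hR3, hR4, hR5⟩ := ((eventually_ge_atTop k0).and
    ((eventually_ge_atTop n).and ((eventually_ge_atTop 1).and
    ((hlog.eventually_ge_atTop (2 * C * (C + 1))).and
    ((hpow.eventually_gt_atTop (n * 2 ^ a * Real.exp c1)).and (h4.and hG)))))).exists
  have hR0 : (1 : ℝ) ≤ R := by exact_mod_cast hR1
  have hRpos : (0 : ℝ) < R := by linarith
  have hlogR : 0 ≤ Real.log R := Real.log_nonneg hR0
  obtain ⟨T, hT⟩ : ∃ T : ℕ, T = ⌊Real.log R / (2 * C)⌋₊ := ⟨_, rfl⟩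
  have hT1 : (T : ℝ) ≤ Real.log R / (2 * C) := by
    rw [hT]
    exact Nat.floor_le (by positivity)
  have hT2 : Real.log R / (2 * C) < T + 1 := by
    rw [hT]
    exact Nat.lt_floor_add_one _
  have hCT : C * T ≤ Real.log R / 2 := by
    have h := mul_le_mul_of_nonneg_left hT1 hC0.le
    have h2 : C * (Real.log R / (2 * C)) = Real.log R / 2 := by field_simp
    linarith
  have hsqrt : Real.exp (C * T) ≤ √R := by
    have h : √(R : ℝ) = Real.exp (Real.log R / 2) := by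
      rw [Real.sqrt_eq_rpow, Real.rpow_def_of_pos hRpos]
      ring_nf
    rw [h]
    exact Real.exp_le_exp.2 hCT
  have hsR : √(R : ℝ) ≤ R := by
    rw [Real.sqrt_le_left hRpos.le]
    nlinarith
  have hcs : 0 < s * c R := mul_pos hs (hpos R)
  have hcs1 : s * c R ≤ 1 := mul_le_one₀ hs1 (hpos R).le (hle R)
  refine ⟨R, hRk, T, ?_, hsqrt.trans hsR, ?_, ?_⟩
  · have h : C + 1 ≤ Real.log R / (2 * C) := by
      rw [le_div_iff₀ (by positivity)]
      linarith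
    linarith
  · have h1 : Real.exp (C * T) ≤ 2 * R := by linarith [hsqrt.trans hsR]
    have h2 : √(s * c R) ≤ √(c R) := by
      apply Real.sqrt_le_sqrt
      exact mul_le_of_le_one_left (hpos R).le hs1
    have h3 : 4 * ((R : ℝ) ^ 2 * √(c R)) ≤ 1 := by
      have h5 : (4 * ((R : ℝ) ^ 2 * √(c R))) ^ 2 ≤ 1 ^ 2 := by
        have h6 : (4 * ((R : ℝ) ^ 2 * √(c R))) ^ 2 = 16 * ((R : ℝ) ^ 4 * c R) := by
          rw [mul_pow, mul_pow, Real.sq_sqrt (hpos R).le]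
          ring
        rw [h6]
        linarith
      exact le_of_sq_le_sq h5 (by norm_num)
    calc Real.exp (C * T) * √(s * c R) * (R + 1)
        ≤ (2 * R) * √(c R) * (2 * R) := by
          gcongr
          linarith
      _ = 4 * ((R : ℝ) ^ 2 * √(c R)) := by ring
      _ ≤ 1 := h3
  · intro y hy1 hy2
    have hRy : (R : ℝ) + 1 ≤ y := by
      refine le_trans ?_ hy1
      rw [le_div_iff₀ hcs]
      nlinarith
    have hnR : (n : ℝ) ≤ R := by exact_mod_cast hRn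
    refine ⟨by linarith, ?_⟩
    have h1 := hR5 y (by linarith) hy2
    rw [← ha] at h1
    have h2 : ((R : ℝ) + 1) ^ a ≤ 2 ^ a * (R : ℝ) ^ a := by
      rw [← Real.mul_rpow (by norm_num) hRpos.le]
      exact Real.rpow_le_rpow (by linarith) (by linarith) ha0.le
    have hRa : 0 < (R : ℝ) ^ a := Real.rpow_pos_of_pos hRpos _
    have h3 : Real.exp (-c1) * ((R : ℝ) ^ a * (R : ℝ) ^ a) ≤ Real.exp (c1 * T) := by
      rw [Real.rpow_def_of_pos hRpos, ← Real.exp_add, ← Real.exp_add]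
      apply Real.exp_le_exp.2
      have h4 : Real.log R * a + Real.log R * a = c1 * (Real.log R / (2 * C)) := by
        rw [ha]
        field_simp
        ring
      rw [h4]
      have h5 := mul_lt_mul_of_pos_left hT2 hc1
      linarith
    have h6 : (n : ℝ) * G y ≤ n * (2 ^ a * (R : ℝ) ^ a) :=
      mul_le_mul_of_nonneg_left (h1.trans h2) (Nat.cast_nonneg n)
    have h7 : (n : ℝ) * (2 ^ a * (R : ℝ) ^ a) < Real.exp (-c1) * ((R : ℝ) ^ a * (R : ℝ) ^ a) := by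
      have h8 : (n : ℝ) * 2 ^ a < Real.exp (-c1) * (R : ℝ) ^ a := by
        have h9 : Real.exp (-c1) * (n * 2 ^ a * Real.exp c1) = n * 2 ^ a := by
          rw [Real.exp_neg]
          have := Real.exp_pos c1
          field_simp
        rw [← h9]
        exact mul_lt_mul_of_pos_left hR3 (Real.exp_pos _)
      calc (n : ℝ) * (2 ^ a * (R : ℝ) ^ a) = (n * 2 ^ a) * (R : ℝ) ^ a := by ring
        _ < (Real.exp (-c1) * (R : ℝ) ^ a) * (R : ℝ) ^ a := mul_lt_mul_of_pos_right h8 hRa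
        _ = _ := by ring
    linarith

theorem omega_dense (hX : Surface Γ D) (hO : Ori Γ) {G : ℝ → ℝ}
    (hG : ∀ c : ℝ, 0 < c → ∀ᶠ T : ℝ in atTop, G T ≤ T ^ c) (m : Mt Γ D) {U : Set (Mt Γ D)}
    (hU : U ∈ 𝓝 m) (n : ℕ) :
    (∃ m' ∈ U, ∃ y : ℝ, n < y ∧ n * G y < Ncs (FG33.lam m') y - y ^ 2 / (4 * Real.pi)) ∧
    (∃ m' ∈ U, ∃ y : ℝ, n < y ∧
      BE33.Nc (FG33.lam m') y - y ^ 2 / (4 * Real.pi) < -(n * G y)) := by
  obtain ⟨c, hc, hcG⟩ := exists_c hG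
  obtain ⟨L₀, hL₀⟩ := BGM.GM_dom hX
  obtain ⟨ε₀, hε₀, hnear⟩ := BGM.QML_near hX (L₀ + 1) hc m hU
  obtain ⟨s, hs⟩ : ∃ s : ℝ, s = min ε₀ 1 := ⟨_, rfl⟩
  have hs0 : 0 < s := by
    rw [hs]
    exact lt_min hε₀ one_pos
  have hs1 : s ≤ 1 := by
    rw [hs]
    exact min_le_right _ _
  have hse : s ≤ ε₀ := by
    rw [hs]
    exact min_le_left _ _
  have hL1 : ∀ z ∈ closure D, |z.1| ≤ ((L₀ + 1 : ℕ) : ℝ) - 1 ∧ |z.2| ≤ ((L₀ + 1 : ℕ) : ℝ) - 1 := by
    intro z hz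
    obtain ⟨h1, h2⟩ := hL₀ z hz
    push_cast
    constructor <;> linarith
  have hL2 : ∀ z ∈ closure D, |z.1| ≤ ((L₀ + 1 : ℕ) : ℝ) - 2 ∧ |z.2| ≤ ((L₀ + 1 : ℕ) : ℝ) - 2 := by
    intro z hz
    obtain ⟨h1, h2⟩ := hL₀ z hz
    push_cast
    constructor <;> linarith
  have hψ : (fun _ => (0 : ℝ)) ∈ Test Γ := ⟨contDiff_const, fun _ _ => rfl⟩
  have hP : Okc Γ D ⟨m.1.1, fun _ => 0, L₀ + 1, fun R => s * c R⟩ :=
    { cx := BGM.GM_cx hX (BGM.h1_of hX) hL1 (BGM.GM_scale hc hs0 hs1) m hψ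
      ori := hO
      hm := hm_of_Mt m
      psi := rfl
      area := m.2.area
      dom := hL2 }
  obtain ⟨c1, C, k0, hc1, hC, hom⟩ := omega_one hP
  obtain ⟨R, hRk, T, hT1, hT2, hT3, hy⟩ := OM_A2_scale (G := G) hc.pos hc.le_one
    (fun B => hc.rapid B) hs0 hs1 hC hc1 (hcG s C (c1 / (4 * C)) hs0 (by linarith)
      (by positivity)) k0 n
  have key : ∀ ς : ℝ, (ς = 1 ∨ ς = -1) → ∃ m' ∈ U, ∃ y : ℝ, n < y ∧
      n * G y < Real.exp (c1 * T) ∧
      (ς = 1 → Real.exp (c1 * T) ≤ Ncs (FG33.lam m') y - y ^ 2 / (4 * Real.pi)) ∧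
      (ς = -1 → BE33.Nc (FG33.lam m') y - y ^ 2 / (4 * Real.pi) ≤ -Real.exp (c1 * T)) := by
    intro ς hς
    obtain ⟨η, hη⟩ := hom R hRk T hT1 hT2 hT3 ς hς
    obtain ⟨m', hm', q, hq, hq'⟩ := hnear s hs0 hse (on R η)
    obtain ⟨y, hy1, hy2, hy3, hy4⟩ := hη m' (OM_A2_X_of hq hq')
    obtain ⟨hy5, hy6⟩ := hy y hy1 hy2
    exact ⟨m', hm', y, hy5, hy6, hy3, hy4⟩
  constructor
  · obtain ⟨m', hm', y, h1, h2, h3, -⟩ := key 1 (Or.inl rfl)
    exact ⟨m', hm', y, h1, h2.trans_le (h3 rfl)⟩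
  · obtain ⟨m', hm', y, h1, h2, -, h3⟩ := key (-1) (Or.inr rfl)
    exact ⟨m', hm', y, h1, (h3 rfl).trans_lt (neg_lt_neg h2)⟩

end OM21
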