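import Pool.Agent.LibOM21.Defs
import Pool.Agent.LibBF73.V2
import Pool.Agent.LibBE33.Fin

/-! ROW B1 : the two conditions are open. -/

open MeasureTheory Set Filter Topology
open scoped ContDiff unitInterval

namespace OM21

open BGS BR BE B35

variable {Γ : Type} [Group Γ] [MulAction Γ Pl] {D : Set Pl}

theorem open_up (hX : Surface Γ D) (y x : ℝ) :
    IsOpen {m : Mt Γ D | x < Ncs (FG33.lam m) y - y ^ 2 / (4 * Real.pi)} := by
  rw [isOpen_iff_mem_nhds]
  intro m hm
  have hfin : ({k | FG33.lam m k < y} : Set ℕ).Finite :=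
    (BE33.Fin_fin hX m y).subset fun k (hk : FG33.lam m k < y) => (le_of_lt hk : FG33.lam m k ≤ y)
  have h1 : ∀ᶠ m' in 𝓝 m, ∀ k ∈ ({k | FG33.lam m k < y} : Set ℕ), FG33.lam m' k < y := by
    refine (Filter.eventually_all_finite hfin).2 fun k hk => ?_
    exact ((lam_cont hX k).tendsto m).eventually (gt_mem_nhds hk)
  filter_upwards [h1] with m' hm'
  have h2 : ({k | FG33.lam m k < y} : Set ℕ).ncard ≤ ({k | FG33.lam m' k < y} : Set ℕ).ncard :=
    Set.ncard_le_ncard (fun k hk => hm' k hk)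
      ((BE33.Fin_fin hX m' y).subset fun k (hk : FG33.lam m' k < y) => (le_of_lt hk : FG33.lam m' k ≤ y))
  have h3 : Ncs (FG33.lam m) y ≤ Ncs (FG33.lam m') y := by
    unfold Ncs
    exact_mod_cast h2
  have h4 : x < Ncs (FG33.lam m) y - y ^ 2 / (4 * Real.pi) := hm
  show x < Ncs (FG33.lam m') y - y ^ 2 / (4 * Real.pi)
  linarith

theorem open_down (hX : Surface Γ D) (y x : ℝ) :
    IsOpen {m : Mt Γ D | BE33.Nc (FG33.lam m) y - y ^ 2 / (4 * Real.pi) < x} := by
  rw [isOpen_iff_mem_nhds]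
  intro m hm
  have hfin : ({k | FG33.lam m k ≤ 2 * y + 1 ∧ y < FG33.lam m k} : Set ℕ).Finite :=
    (BE33.Fin_fin hX m (2 * y + 1)).subset fun k hk => hk.1
  have h1 : ∀ᶠ m' in 𝓝 m, ∀ k ∈ ({k | FG33.lam m k ≤ 2 * y + 1 ∧ y < FG33.lam m k} : Set ℕ),
      y < FG33.lam m' k := by
    refine (Filter.eventually_all_finite hfin).2 fun k hk => ?_
    exact ((lam_cont hX k).tendsto m).eventually (lt_mem_nhds hk.2)
  filter_upwards [h1, near_lam hX m] with m' hm' hn
  have h2 : ({k | FG33.lam m' k ≤ y} : Set ℕ).ncard ≤ ({k | FG33.lam m k ≤ y} : Set ℕ).ncard := by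
    refine Set.ncard_le_ncard (fun k hk => ?_) (BE33.Fin_fin hX m y)
    by_contra hc
    have hc' : y < FG33.lam m k := not_le.1 hc
    have hk' : FG33.lam m' k ≤ y := hk
    rcases le_or_gt (FG33.lam m k) (2 * y + 1) with h | h
    · exact absurd (hm' k ⟨h, hc'⟩) (not_lt.2 hk')
    · have := hn k
      linarith
  have h3 : BE33.Nc (FG33.lam m') y ≤ BE33.Nc (FG33.lam m) y := by
    unfold BE33.Nc
    exact_mod_cast h2
  have h4 : BE33.Nc (FG33.lam m) y - y ^ 2 / (4 * Real.pi) < x := hm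
  show BE33.Nc (FG33.lam m') y - y ^ 2 / (4 * Real.pi) < x
  linarith

end OM21
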