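import Pool.Agent.LibOM21.A2
import Pool.Agent.LibOM21.B1

/-! ROW B2 : the generic metric. -/

open MeasureTheory Set Filter Topology
open scoped ContDiff unitInterval

namespace OM21

open BGS BR BE B35

variable {Γ : Type} [Group Γ] [MulAction Γ Pl] {D : Set Pl}

theorem generic (hX : Surface Γ D) (hO : Ori Γ) {G : ℝ → ℝ}
    (hG : ∀ c : ℝ, 0 < c → ∀ᶠ T : ℝ in atTop, G T ≤ T ^ c) :
    ∀ᶠ m in residual (Mt Γ D), ∀ n : ℕ,
      (∃ y : ℝ, n < y ∧ n * G y < BE33.Nc (FG33.lam m) y - y ^ 2 / (4 * Real.pi)) ∧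
      (∃ y : ℝ, n < y ∧
        BE33.Nc (FG33.lam m) y - y ^ 2 / (4 * Real.pi) < -(n * G y)) := by
  rw [eventually_countable_forall]
  intro n
  have e1 : {m : Mt Γ D | ∃ y : ℝ, n < y ∧ n * G y < Ncs (FG33.lam m) y - y ^ 2 / (4 * Real.pi)} =
      ⋃ y : {y : ℝ // (n : ℝ) < y},
        {m : Mt Γ D | n * G y < Ncs (FG33.lam m) y - (y : ℝ) ^ 2 / (4 * Real.pi)} := by
    ext m
    simp only [mem_setOf_eq, mem_iUnion, Subtype.exists, exists_prop]
  have e2 : {m : Mt Γ D | ∃ y : ℝ, n < y ∧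
      BE33.Nc (FG33.lam m) y - y ^ 2 / (4 * Real.pi) < -(n * G y)} =
      ⋃ y : {y : ℝ // (n : ℝ) < y},
        {m : Mt Γ D | BE33.Nc (FG33.lam m) y - (y : ℝ) ^ 2 / (4 * Real.pi) < -(n * G y)} := by
    ext m
    simp only [mem_setOf_eq, mem_iUnion, Subtype.exists, exists_prop]
  have o1 : IsOpen {m : Mt Γ D | ∃ y : ℝ, n < y ∧
      n * G y < Ncs (FG33.lam m) y - y ^ 2 / (4 * Real.pi)} := by
    rw [e1]
    exact isOpen_iUnion fun y => open_up hX _ _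
  have o2 : IsOpen {m : Mt Γ D | ∃ y : ℝ, n < y ∧
      BE33.Nc (FG33.lam m) y - y ^ 2 / (4 * Real.pi) < -(n * G y)} := by
    rw [e2]
    exact isOpen_iUnion fun y => open_down hX _ _
  have d1 : Dense {m : Mt Γ D | ∃ y : ℝ, n < y ∧
      n * G y < Ncs (FG33.lam m) y - y ^ 2 / (4 * Real.pi)} := by
    intro m
    rw [mem_closure_iff_nhds]
    intro U hU
    obtain ⟨⟨m', h1, h2⟩, -⟩ := omega_dense hX hO hG m hU n
    exact ⟨m', h1, h2⟩
  have d2 : Dense {m : Mt Γ D | ∃ y : ℝ, n < y ∧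
      BE33.Nc (FG33.lam m) y - y ^ 2 / (4 * Real.pi) < -(n * G y)} := by
    intro m
    rw [mem_closure_iff_nhds]
    intro U hU
    obtain ⟨-, ⟨m', h1, h2⟩⟩ := omega_dense hX hO hG m hU n
    exact ⟨m', h1, h2⟩
  have r1 := residual_of_dense_open o1 d1
  have r2 := residual_of_dense_open o2 d2
  filter_upwards [r1, r2] with m hm1 hm2
  refine ⟨?_, hm2⟩
  obtain ⟨y, hy, hy2⟩ := hm1
  refine ⟨y, hy, hy2.trans_le ?_⟩
  have h2 : Ncs (FG33.lam m) y ≤ BE33.Nc (FG33.lam m) y := by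
    unfold Ncs BE33.Nc
    have := Set.ncard_le_ncard (s := {k | FG33.lam m k < y}) (t := {k | FG33.lam m k ≤ y})
      (fun k (hk : FG33.lam m k < y) => (le_of_lt hk : FG33.lam m k ≤ y)) (BE33.Fin_fin hX m y)
    exact_mod_cast this
  linarith

end OM21
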