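import Pool.Agent.LibB35.IFC
import Pool.Agent.LibB35.GQ1b
import Pool.Agent.LibB35.FA0
import Pool.Agent.LibB35.FA3
import Pool.Agent.LibBE36T.T14
import Pool.Agent.LibBE33.Defs

/-! OMEGA: the remainder in Weyl's law of the generic metric of negative curvature exceeds every given
function `G (y) = y ^ o(1)`. Definitions (architect helper21). -/

open MeasureTheory Set Filter Topology
open scoped ContDiff unitInterval

namespace OM21

open BGS BR BE B35

variable {Γ : Type} [Group Γ] [MulAction Γ Pl] {D : Set Pl} {P : Dt}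

/-- The hypotheses on the data: a metric `P.m` of area one, the size `P.L` of the grid, the coefficients
`P.c`. -/
structure Okc (Γ : Type) [Group Γ] [MulAction Γ Pl] (D : Set Pl) (P : Dt) : Prop where
  cx : BGM.Cx Γ D P.m P.ψ P.L P.c
  ori : Ori Γ
  hm : HM Γ P.m
  psi : P.ψ = fun _ => 0
  area : ∫ w in D, √(dt (P.m w)) = 1
  dom : ∀ z ∈ closure D, |z.1| ≤ (P.L : ℝ) - 2 ∧ |z.2| ≤ (P.L : ℝ) - 2

/-- The coefficients `η` at the scale `R`, zero at the other scales. -/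
def on (R : ℕ) (η : Dir → I) : Dir → I := fun d => if d.1 = R then η d else 0

/-- The metric of area one with the coefficients `η` at the scale `R`. -/
noncomputable def XX (P : Dt) (Γ : Type) [Group Γ] [MulAction Γ Pl] (D : Set Pl) (R : ℕ)
    (η : Dir → I) : Pl → Co := P.X Γ D (on R η)

/-- The same metric, not normalised. -/
noncomputable def YY (P : Dt) (Γ : Type) [Group Γ] [MulAction Γ Pl] (R : ℕ) (η : Dir → I) :
    Pl → Co := BGM.mx Γ P.m P.ψ P.L P.c (on R η)

/-- Its area. -/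
noncomputable def ar (P : Dt) (Γ : Type) [Group Γ] [MulAction Γ Pl] (D : Set Pl) (R : ℕ)
    (η : Dir → I) : ℝ :=
  ∫ w in D, Real.exp (BGM.ex Γ P.ψ P.L P.c (on R η) w) * √(dt (P.m w))

/-- The path from `P.m` to `XX P Γ D R η` (reached at the parameter `√(c R)`). -/
noncomputable def pth (P : Dt) (Γ : Type) [Group Γ] [MulAction Γ Pl] (D : Set Pl)
    (q : ℕ × (Dir → I)) (e : ℝ × Pl) : ℝ :=
  nx D P.m (fun z => (0 : ℝ) + thc e.1 *
    Sg0 Γ P.L q.1 (fun p => √(P.c q.1) * ((q.2 (q.1, p) : I) : ℝ)) z) e.2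

/-- The indices of the family. -/
def Ixp (k0 : ℕ) : Type := {q : ℕ × (Dir → I) // k0 ≤ q.1}

/-- The point `z` lies in the closed square of half side `r / (R + 1)` around `p / (R + 1)`. -/
def Sq (R : ℕ) (p : ℤ × ℤ) (r : ℝ) (z : Pl) : Prop :=
  |((R : ℝ) + 1) * z.1 - p.1| ≤ r ∧ |((R : ℝ) + 1) * z.2 - p.2| ≤ r

/-- The point `z` lies on the axis of `g`. -/
def Min (m : Pl → Co) (g : Γ) (z : Pl) : Prop := BGM.ds m z (g • z) = BGM.tl m g

/-- No translate of the axis of `g` meets the square. -/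
def Avoid (Γ : Type) [Group Γ] [MulAction Γ Pl] (m : Pl → Co) (g : Γ) (R : ℕ) (p : ℤ × ℤ)
    (r : ℝ) : Prop := ∀ z, Min m g z → ∀ γ : Γ, ¬ Sq R p r (γ • z)

/-- The number of the levels below `y`. -/
noncomputable def Ncs (κ : ℕ → ℝ) (y : ℝ) : ℝ := ({k | κ k < y} : Set ℕ).ncard

/-- Levels with at most `C y ^ 2` elements up to `y`. -/
structure Lu (C : ℝ) (κ : ℕ → ℝ) : Prop where
  nn : ∀ k, 0 ≤ κ k
  cnt : ∀ y : ℝ, 1 ≤ y → ({k | κ k ≤ y} : Set ℕ).Finite ∧
    (({k | κ k ≤ y} : Set ℕ).ncard : ℝ) ≤ C * y ^ 2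

end OM21
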