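import Pool.Agent.LibOM21.Defs
import Pool.Agent.LibB35.FA1

/-! ROW F1 : the family `pth` is of class `CF`. MEDIUM (copy of `CF_path` in LibB35/FA1.lean, shorter: `B = 0`).
PLAN. `CF_gen` (LibB35/FA0) with `B i = 0`, `δ i = Sg0 Γ P.L R (fun p => √(P.c R) * η (R, p))`, `Sg0_test`; the bounds `bδ`: `FA0_sum` with `τ = √(P.c R)` (`|√c η| ≤ √c`) and
`sup_R (R+1)^(r+2) √(c R) < ∞` (`hP.cx.cs.rapid`; FA1 has private lemmas FA1_rapid, FA1_bdd for `OkD`: copy them for `Okc`, `Rapid` is `N ^ B * c N → 0`; use `(R+1)^r ≤ 2^r R^r` for `R ≥ 1`).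
`neg`: `FA0_neg` with `f = 0`, `M = 0` (the derivatives of `0` vanish), `κ` from the curvature of `P.m`: `curv P.m ≤ -κ²` with `κ > 0` (`curv_bounds hX hm`, LibBR70/H1l or as used in LibBE88/V13 `CF1`),
`exp (nx D P.m 0) • P.m = P.m` because the area is one (`hP.area`, `Real.log 1 = 0`); `g = thc t * δ i` is small in `C²` for `R ≥ k0` (`|thc t| ≤ 2`, `thc_le`). `a = κ/2`. -/

open MeasureTheory Set Filter Topology
open scoped ContDiff unitInterval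

namespace OM21

open BGS BR BE B35

variable {Γ : Type} [Group Γ] [MulAction Γ Pl] {D : Set Pl} {P : Dt}

/-- The coefficients decay rapidly. -/
private theorem OM_F1_rapid0 (hP : Okc Γ D P) (r : ℕ) :
    Tendsto (fun n : ℕ => ((n : ℝ) + 1) ^ r * P.c n) atTop (𝓝 0) := by
  have h := (Rapid.summable hP.cx.cs.rapid r).tendsto_atTop_zero
  refine h.congr fun n => ?_
  rw [abs_of_pos (hP.cx.cs.pos n)]

/-- The square roots of the coefficients decay rapidly. -/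
private theorem OM_F1_rapid (hP : Okc Γ D P) (r : ℕ) :
    Tendsto (fun n : ℕ => ((n : ℝ) + 1) ^ r * √(P.c n)) atTop (𝓝 0) := by
  have h := (OM_F1_rapid0 hP (2 * r)).sqrt
  rw [Real.sqrt_zero] at h
  refine h.congr fun n => ?_
  have h0 : (0 : ℝ) ≤ ((n : ℝ) + 1) ^ (2 * r) := by positivity
  rw [Real.sqrt_mul h0]
  congr 1
  rw [mul_comm 2 r, pow_mul, Real.sqrt_sq (by positivity)]

private theorem OM_F1_bdd (hP : Okc Γ D P) (r : ℕ) : ∃ T : ℝ, ∀ n : ℕ,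
    ((n : ℝ) + 1) ^ r * √(P.c n) ≤ T := by
  obtain ⟨T, hT⟩ := (OM_F1_rapid hP r).bddAbove_range
  exact ⟨T, fun n => hT ⟨n, rfl⟩⟩

theorem CF_pth (hP : Okc Γ D P) : ∃ (k0 : ℕ) (a b : ℝ),
    CF Γ D P.m a b (fun q : Ixp k0 => pth P Γ D q.1) := by
  have hX := hP.cx.hX
  obtain ⟨κ, b0, hκ, -, hcv⟩ := curv_bounds hX hP.hm
  obtain ⟨ε, b, hε, hneg⟩ := FA0_neg (Γ := Γ) (D := D) hX hP.hm hκ (le_refl (0 : ℝ))
  obtain ⟨C, hC, hsum⟩ := FA0_sum hX P.L 2
  have hten : Tendsto (fun k : ℕ => C * ((k : ℝ) + 1) ^ 4 * (2 * √(P.c k))) atTop (𝓝 0) := by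
    have h1 := (OM_F1_rapid hP 4).const_mul (2 * C)
    rw [mul_zero] at h1
    refine h1.congr fun k => ?_
    ring
  obtain ⟨k0, hk0⟩ := eventually_atTop.1 (hten.eventually (Iio_mem_nhds hε))
  refine ⟨k0, κ / 2, b, ?_⟩
  have e : (fun q : Ixp k0 => pth P Γ D q.1) = fun (q : Ixp k0) (e : ℝ × Pl) =>
      nx D P.m (fun z => (fun (_ : Ixp k0) (_ : Pl) => (0 : ℝ)) q z + thc e.1 *
          Sg0 Γ P.L q.1.1 (fun p => √(P.c q.1.1) * ((q.1.2 (q.1.1, p) : I) : ℝ)) z) e.2 := rfl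
  rw [e]
  have hco : ∀ (q : Ixp k0) (p : ℤ × ℤ),
      |√(P.c q.1.1) * ((q.1.2 (q.1.1, p) : I) : ℝ)| ≤ √(P.c q.1.1) := by
    intro q p
    have h3 := (q.1.2 (q.1.1, p)).2
    rw [abs_mul, abs_of_nonneg (Real.sqrt_nonneg _), abs_of_nonneg h3.1]
    exact mul_le_of_le_one_right (Real.sqrt_nonneg _) h3.2
  have hz0 : (fun _ : Pl => (0 : ℝ)) ∈ Test Γ := ⟨contDiff_const, fun _ _ => rfl⟩
  have hi0 : ∀ k : ℕ, ∀ z : Pl, ‖iteratedFDeriv ℝ k (fun _ : Pl => (0 : ℝ)) z‖ ≤ 0 := by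
    intro k z
    have h2 : iteratedFDeriv ℝ k (fun _ : Pl => (0 : ℝ)) = 0 := iteratedFDeriv_fun_zero
    rw [h2]
    simp
  refine CF_gen (Γ := Γ) (D := D) hX hP.ori hP.hm (by positivity) (fun q => hz0)
    (fun q => Sg0_test hX _ _ _) (fun k => ?_) (fun k => ?_) fun q t z => ?_
  · exact ⟨0, fun q z _ => hi0 k z⟩
  · obtain ⟨C, hC, h1⟩ := FA0_sum hX P.L k
    obtain ⟨T, hT⟩ := OM_F1_bdd hP (k + 2)
    refine ⟨C * T, fun q z hz => ?_⟩
    refine (h1 q.1.1 _ (√(P.c q.1.1)) (hco q) k le_rfl z hz).trans ?_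
    rw [mul_assoc]
    exact mul_le_mul_of_nonneg_left (hT _) hC.le
  · have e2 : (fun w : Pl => (0 : ℝ) + thc t *
          Sg0 Γ P.L q.1.1 (fun p => √(P.c q.1.1) * ((q.1.2 (q.1.1, p) : I) : ℝ)) w) =
        fun w => (fun _ : Pl => (0 : ℝ)) w +
          Sg0 Γ P.L q.1.1 (fun p => thc t * (√(P.c q.1.1) * ((q.1.2 (q.1.1, p) : I) : ℝ))) w := by
      funext w
      congr 1
      unfold Sg0
      rw [Finset.mul_sum]
      refine Finset.sum_congr rfl fun p _ => ?_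
      beta_reduce
      ring
    have hcv0 : ∀ w, curv (fun w => Real.exp (nx D P.m (fun _ : Pl => (0 : ℝ)) w) • P.m w) w ≤
        -κ ^ 2 := by
      have e3 : (fun w => Real.exp (nx D P.m (fun _ : Pl => (0 : ℝ)) w) • P.m w) = P.m := by
        funext w
        have e4 : nx D P.m (fun _ : Pl => (0 : ℝ)) w = 0 := by
          unfold nx
          simp only [Real.exp_zero, one_mul]
          rw [hP.area, Real.log_one, sub_zero]
        rw [e4, Real.exp_zero, one_smul]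
      rw [e3]
      exact fun w => (hcv w).2
    rw [e2]
    refine hneg _ _ hz0 (Sg0_test hX _ _ _)
      (fun j hj z hz => hi0 j z) (fun j hj z hz => ?_) hcv0 z
    refine (hsum q.1.1 _ (2 * √(P.c q.1.1)) (fun p => ?_) j hj z hz).trans
      (hk0 _ q.2).le
    rw [abs_mul]
    exact mul_le_mul (thc_le t) (hco q p) (abs_nonneg _) (by norm_num)

end OM21
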