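import Pool.Agent.LibOM21.F1
import Pool.Agent.LibB35.FA5
import Pool.Agent.LibBE33.A1

/-! ROW F2 : the metrics `XX`, `YY`. MEDIUM (models: LibB35/FA3.lean, FA5.lean).
PLAN. `pth_zero`: `thc 0 = 0`, `nx D P.m 0 = -log 1 = 0` (`hP.area`). `pth_one`: `thc (√c) = √c` (`FA3_thc`, `c ≤ 1`: `hP.cx.cs.le_one`), `√c * √c = c`, `BGM.ex .. (on R η) z = Sg0 Γ P.L R (fun p => c R * η (R,p)) z`:
`hP.psi`, `BGM.ps` is a `tsum` over the scales with only the scale `R` nonzero (`tsum_eq_single`), or `F0_agree`-like with `ζ = 0`. `XX_eq`: as `FA5_X`. `ar_bd`: as `FA5_bd` (`BGM.D2_bound`).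
`XX_hm`: `YY`: `BGM.D2_rp`, `BGM.D2_iv` and negative curvature (`CF_pth` field `neg` at `p = √c`, `pth_one`; `BGM.E2_scale` for the multiple `YY = ar • XX`); area one of `XX`: `√(dt (q • m)) = q √(dt m)` (`BE33.A1_sqdt`), `Mt` is a
subtype (`IsMetric` in LibBGS/Defs; model: `X_hm` in LibB35/FA5). `ds_XX`, `tl_XX`: `BGM.D1_scale`-type lemma (LibBGM20/D1; lengths of `q • m` are `√q` times): `q = 1/ar`; note `√(1/ar) = 1/√ar`. -/
/-! `ex_on` is the formula of the exponent. -/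

open MeasureTheory Set Filter Topology
open scoped ContDiff unitInterval

namespace OM21

open BGS BR BE B35

variable {Γ : Type} [Group Γ] [MulAction Γ Pl] {D : Set Pl} {P : Dt}

theorem ex_on (hP : Okc Γ D P) (R : ℕ) (η : Dir → I) (z : Pl) :
    BGM.ex Γ P.ψ P.L P.c (on R η) z =
      Sg0 Γ P.L R (fun p => P.c R * ((η (R, p) : I) : ℝ)) z := by
  have h0 : P.ψ z = 0 := by rw [hP.psi]
  unfold BGM.ex BGM.ps
  rw [h0, zero_add, tsum_eq_single R]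
  · unfold BGM.psR Sg0
    rw [Finset.mul_sum]
    refine Finset.sum_congr rfl fun p _ => ?_
    have h : on R η (R, p) = η (R, p) := if_pos rfl
    rw [h, mul_assoc]
  · intro R' hR'
    unfold BGM.psR
    have h : ∀ p, on R η (R', p) = 0 := fun p => if_neg hR'
    simp only [h, Set.Icc.coe_zero, zero_mul, Finset.sum_const_zero, mul_zero]

theorem pth_zero (hP : Okc Γ D P) (q : ℕ × (Dir → I)) : mm P.m (pth P Γ D q) 0 = P.m := by
  have h : (fun z => (0 : ℝ) + thc 0 *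
      Sg0 Γ P.L q.1 (fun p => √(P.c q.1) * ((q.2 (q.1, p) : I) : ℝ)) z) = fun _ => 0 := by
    funext z
    rw [FA3_thc0, zero_mul, add_zero]
  funext z
  show Real.exp (nx D P.m (fun z => (0 : ℝ) + thc 0 *
      Sg0 Γ P.L q.1 (fun p => √(P.c q.1) * ((q.2 (q.1, p) : I) : ℝ)) z) z) • P.m z = _
  rw [h]
  unfold nx
  simp only [Real.exp_zero, one_mul]
  rw [hP.area, Real.log_one, sub_zero, Real.exp_zero, one_smul]

theorem pth_one (hP : Okc Γ D P) (R : ℕ) (η : Dir → I) :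
    mm P.m (pth P Γ D (R, η)) (√(P.c R)) = XX P Γ D R η := by
  have hc0 := hP.cx.cs.pos R
  have hc1 := hP.cx.cs.le_one R
  have hr0 : 0 < √(P.c R) := Real.sqrt_pos.2 hc0
  have hr1 : √(P.c R) ≤ 1 := Real.sqrt_le_one.2 hc1
  have h : (fun z => (0 : ℝ) + thc (√(P.c R)) *
      Sg0 Γ P.L R (fun p => √(P.c R) * ((η (R, p) : I) : ℝ)) z) =
      BGM.ex Γ P.ψ P.L P.c (on R η) := by
    funext z
    rw [ex_on hP, FA3_thc (by rw [abs_of_pos hr0]; exact hr1), zero_add]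
    unfold Sg0
    rw [Finset.mul_sum]
    refine Finset.sum_congr rfl fun p _ => ?_
    have h1 : √(P.c R) * √(P.c R) = P.c R := Real.mul_self_sqrt hc0.le
    rw [← mul_assoc, ← mul_assoc, h1]
  funext z
  show Real.exp (nx D P.m (fun z => (0 : ℝ) + thc (√(P.c R)) *
      Sg0 Γ P.L R (fun p => √(P.c R) * ((η (R, p) : I) : ℝ)) z) z) • P.m z = _
  rw [h]
  rfl

/-- The area of the metric with the exponent `h`. -/
private noncomputable def OM_F2_A (D : Set Pl) (m : Pl → Co) (h : Pl → ℝ) : ℝ :=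
  ∫ w in D, Real.exp (h w) * √(dt (m w))

private theorem OM_F2_mono {m : Pl → Co} (hX : Surface Γ D) (hm : BGM.Rp m) {h h' : Pl → ℝ}
    (hc : Continuous h) (hc' : Continuous h') {ε : ℝ} (hh : ∀ z, h z ≤ h' z + ε) :
    OM_F2_A D m h ≤ Real.exp ε * OM_F2_A D m h' := by
  have hd : Continuous fun z => √(dt (m z)) :=
    Real.continuous_sqrt.comp (Cmp_dt_cont.comp hm.smooth.continuous)
  unfold OM_F2_A
  rw [← integral_const_mul]
  refine integral_mono (Cmp_int hX ((Real.continuous_exp.comp hc).mul hd))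
    ((Cmp_int hX ((Real.continuous_exp.comp hc').mul hd)).const_mul _) fun z => ?_
  show Real.exp (h z) * √(dt (m z)) ≤ Real.exp ε * (Real.exp (h' z) * √(dt (m z)))
  rw [← mul_assoc, ← Real.exp_add]
  refine mul_le_mul_of_nonneg_right (Real.exp_le_exp.2 ?_) (Real.sqrt_nonneg _)
  linarith [hh z]

private theorem OM_F2_ex (hP : Okc Γ D P) (ξ : Dir → I) :
    BGM.ex Γ P.ψ P.L P.c ξ ∈ Test Γ := BGM.D2_smooth hP.cx ξ

theorem ar_bd (hP : Okc Γ D P) : ∃ C : ℝ, 1 ≤ C ∧ ∀ (R : ℕ) (η : Dir → I),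
    C⁻¹ ≤ ar P Γ D R η ∧ ar P Γ D R η ≤ C := by
  obtain ⟨M, hM, hb⟩ := BGM.D2_bound hP.cx
  have e0 : OM_F2_A D P.m (fun _ => 0) = 1 := by
    unfold OM_F2_A
    simp only [Real.exp_zero, one_mul]
    exact hP.area
  refine ⟨Real.exp M, Real.one_le_exp hM.le, fun R η => ⟨?_, ?_⟩⟩
  · have h1 := OM_F2_mono (ε := M) hP.cx.hX hP.cx.rp (h := fun _ => 0)
      (h' := BGM.ex Γ P.ψ P.L P.c (on R η)) continuous_const (OM_F2_ex hP _).1.continuous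
      fun z => by
        have := (abs_le.1 (hb (on R η) z)).1
        linarith
    rw [e0] at h1
    rw [inv_le_iff_one_le_mul₀ (Real.exp_pos M), mul_comm]
    exact h1
  · have h1 := OM_F2_mono (ε := M) hP.cx.hX hP.cx.rp (h' := fun _ => 0)
      (h := BGM.ex Γ P.ψ P.L P.c (on R η)) (OM_F2_ex hP _).1.continuous continuous_const
      fun z => by
        have := (abs_le.1 (hb (on R η) z)).2
        linarith
    rw [e0, mul_one] at h1
    exact h1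

private theorem OM_F2_pos (hP : Okc Γ D P) (R : ℕ) (η : Dir → I) : 0 < ar P Γ D R η := by
  obtain ⟨C, hC, h⟩ := ar_bd hP
  exact (inv_pos.2 (lt_of_lt_of_le one_pos hC)).trans_le (h R η).1

theorem XX_eq (hP : Okc Γ D P) (R : ℕ) (η : Dir → I) :
    XX P Γ D R η = fun z => (ar P Γ D R η)⁻¹ • YY P Γ R η z := by
  have h1 := OM_F2_pos hP R η
  funext z
  show Real.exp (BGM.ex Γ P.ψ P.L P.c (on R η) z - Real.log (ar P Γ D R η)) •
    P.m z = (ar P Γ D R η)⁻¹ • Real.exp (BGM.ex Γ P.ψ P.L P.c (on R η) z) • P.m z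
  rw [smul_smul, sub_eq_add_neg, Real.exp_add, Real.exp_neg, Real.exp_log h1, mul_comm]

private theorem OM_F2_hm (hP : Okc Γ D P) {ξ : Dir → I} (h : ∀ z, curv (P.X Γ D ξ) z < 0)
    (h0 : 0 < OM_F2_A D P.m (BGM.ex Γ P.ψ P.L P.c ξ)) :
    HM Γ (P.X Γ D ξ) ∧ ∃ m' : Mt Γ D, m'.1.1 = P.X Γ D ξ := by
  have ht := OM_F2_ex hP ξ
  have hs : ContDiff ℝ ∞ (P.h Γ D ξ) := ht.1.sub contDiff_const
  have hi : ∀ (γ : Γ) z, P.h Γ D ξ (γ • z) = P.h Γ D ξ z := fun γ z => by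
    show BGM.ex Γ P.ψ P.L P.c ξ (γ • z) - _ = BGM.ex Γ P.ψ P.L P.c ξ z - _
    rw [ht.2 γ z]
  have hrp : BGM.Rp (P.X Γ D ξ) := BGM.D1_rp hP.cx.rp hs
  have hiv : BGM.Iv Γ (P.X Γ D ξ) := BGM.D1_iv hP.cx.iv hi
  refine ⟨⟨hrp.smooth, hrp.pos, hiv, h⟩, ⟨⟨P.X Γ D ξ, hrp.smooth⟩, hrp.pos, hiv, h, ?_⟩, rfl⟩
  have e1 : ∀ z, √(dt (P.X Γ D ξ z)) = (OM_F2_A D P.m (BGM.ex Γ P.ψ P.L P.c ξ))⁻¹ *
      (Real.exp (BGM.ex Γ P.ψ P.L P.c ξ z) * √(dt (P.m z))) := by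
    intro z
    have h1 : √(dt (BGM.cf (P.h Γ D ξ) P.m z)) = Real.exp (P.h Γ D ξ z) * √(dt (P.m z)) :=
      BM73.dt_cf _ _ _
    have h2 : Real.exp (P.h Γ D ξ z) = (OM_F2_A D P.m (BGM.ex Γ P.ψ P.L P.c ξ))⁻¹ *
        Real.exp (BGM.ex Γ P.ψ P.L P.c ξ z) := by
      show Real.exp (BGM.ex Γ P.ψ P.L P.c ξ z -
        Real.log (OM_F2_A D P.m (BGM.ex Γ P.ψ P.L P.c ξ))) = _
      rw [sub_eq_add_neg, Real.exp_add, Real.exp_neg, Real.exp_log h0, mul_comm]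
    rw [← mul_assoc, ← h2]
    exact h1
  show ∫ z in D, √(dt (P.X Γ D ξ z)) = 1
  simp only [e1]
  rw [integral_const_mul]
  exact inv_mul_cancel₀ h0.ne'

private theorem OM_F2_YY (hP : Okc Γ D P) (R : ℕ) (η : Dir → I) :
    YY P Γ R η = fun z => ar P Γ D R η • XX P Γ D R η z := by
  have h1 := OM_F2_pos hP R η
  funext z
  rw [XX_eq hP R η]
  show _ = ar P Γ D R η • ((ar P Γ D R η)⁻¹ • YY P Γ R η z)
  rw [smul_smul, mul_inv_cancel₀ h1.ne', one_smul]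

theorem XX_hm (hP : Okc Γ D P) : ∃ k0 : ℕ, ∀ R ≥ k0, ∀ η : Dir → I,
    HM Γ (XX P Γ D R η) ∧ HM Γ (YY P Γ R η) ∧ ∃ m' : Mt Γ D, m'.1.1 = XX P Γ D R η := by
  obtain ⟨k0, a, b, hCF⟩ := CF_pth hP
  refine ⟨k0, fun R hR η => ?_⟩
  have hneg : ∀ z, curv (P.X Γ D (on R η)) z < 0 := by
    intro z
    have h1 := (hCF.neg ⟨(R, η), hR⟩ (√(P.c R)) z).2
    have h2 : mm P.m (pth P Γ D (R, η)) (√(P.c R)) = P.X Γ D (on R η) := pth_one hP R η
    have h3 : curv (mm P.m (pth P Γ D (R, η)) (√(P.c R))) z ≤ -a ^ 2 := h1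
    rw [h2] at h3
    have h4 : 0 < a ^ 2 := pow_pos hCF.a_pos 2
    linarith
  obtain ⟨h1, h2⟩ := OM_F2_hm hP hneg (OM_F2_pos hP R η)
  refine ⟨h1, ?_, h2⟩
  rw [OM_F2_YY hP R η]
  exact BE33.A1_HM h1 (OM_F2_pos hP R η)

theorem ds_XX (hP : Okc Γ D P) (R : ℕ) (η : Dir → I) (z w : Pl) :
    BGM.ds (XX P Γ D R η) z w = BGM.ds (YY P Γ R η) z w / √(ar P Γ D R η) := by
  have h1 : BGM.Rp (YY P Γ R η) := BGM.D2_rp hP.cx (on R η)
  rw [XX_eq hP R η, BGM.D1_scale h1 (inv_pos.2 (OM_F2_pos hP R η)), Real.sqrt_inv,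
    div_eq_inv_mul]

theorem tl_XX (hP : Okc Γ D P) (R : ℕ) (η : Dir → I) (g : Γ) :
    BGM.tl (XX P Γ D R η) g = BGM.tl (YY P Γ R η) g / √(ar P Γ D R η) := by
  have h1 : BGM.Rp (YY P Γ R η) := BGM.D2_rp hP.cx (on R η)
  rw [XX_eq hP R η, BGM.D1_scale_tl h1 (inv_pos.2 (OM_F2_pos hP R η)), Real.sqrt_inv,
    div_eq_inv_mul]

end OM21
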