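import Pool.Agent.LibOM21.F2
import Pool.Agent.LibGD33.G1
import Pool.Agent.LibBE99.W3
import Pool.Agent.LibBE88.W2

/-! ROW G1 : the axes of `YY` and of `P.m` are close. MEDIUM.
PLAN. `YY = ar • XX`, so `Min YY g z ↔ Min XX g z` (`ds_XX`, `tl_XX`). Point of the axis → `BR.Axis`: for `HM Γ μ`, `g ≠ 1` and `Min μ g z` there is `v` with `Axis μ g z v (tl μ g)`: an axis exists (`GD.axis_exists`, `GD.axis_isAx`), `z` lies on it (`BGM.B3_unique`, `BGM.B2_pts`; the `Had` structure by `gd_had` in LibGD33/G1 or `BGM.h1_of`),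
`Axis_along` (LibBR73/AN2). Conversely `Axis μ g z v l` gives `l = tl μ g` (`GD.axis_tl`) and `Min μ g z` (`Fd_zero`: `ds μ z (g z) = l`). (i) `z` on the axis of `XX`: `BE.axes_close` (LibBE99/W3) for `pth` with `p0 = 0`, `p1 = √c`: `z = Fm P.m x0 v0 (t, y)`, `|y| ≤ n (1 + l)^n √c`, `l = tl P.m g ≤ T`.
`z' = Fm P.m x0 v0 (t, 0)` is on the axis (`Axis_along`, `Fm (t, 0) = (gfl m t (x0, v0)).1`), `ds P.m z z' ≤ |y|` (the curve `s ↦ Fm (t, s)` has unit speed: `BR.ds` between points of a geodesic `Ex`: `Fm (t, y) = Ex m x (y • rot v)`). (ii) the same with `p0 = √c`, `p1 = 0`: `l = tl XX g ≤ C T` (comparison of the metrics), and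
`ds P.m ≤ C ds XX` (`BGM.D2_cmp`, `ar_bd`). `BGM.ds = BR.ds` for `HM` (`BE.ds_bgm` in LibBE88/W2, `A3_ds` in LibBE33/A3). -/

open MeasureTheory Set Filter Topology
open scoped ContDiff unitInterval

namespace OM21

open BGS BR BE B35

variable {Γ : Type} [Group Γ] [MulAction Γ Pl] {D : Set Pl} {P : Dt}

/-- the point of the minimal displacement lies on an axis -/
private theorem OM_G1_axis (hX : Surface Γ D) (hO : Ori Γ) {μ : Pl → Co} (hm : HM Γ μ) {g : Γ}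
    (hg : g ≠ 1) {z : Pl} (hz : Min μ g z) : ∃ v : Pl, Axis μ g z v (BGM.tl μ g) := by
  obtain ⟨k, h⟩ := GD.gd_had hX hm
  obtain ⟨x0, v0, hA⟩ := GD.axis_exists hX hO hm hg
  obtain ⟨s, hs⟩ := BGM.B3_unique hX (GD.gd_iv hm) h hg (GD.axis_isAx hX hO hm hA) hz
  have h1 : z = (gfl μ s (x0, v0)).1 := by
    rw [← Ex_ray hX hm]
    exact hs
  refine ⟨(gfl μ s (x0, v0)).2, ?_⟩
  rw [h1]
  exact Axis_along hX hO hm hA s

/-- points of an axis have the minimal displacement -/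
private theorem OM_G1_min (hX : Surface Γ D) (hO : Ori Γ) {μ : Pl → Co} (hm : HM Γ μ) {g : Γ}
    {z v : Pl} {l : ℝ} (hA : Axis μ g z v l) : Min μ g z := by
  have h1 := BGM.B2_pts (GD.axis_isAx hX hO hm hA) 0
  have h2 : Ex μ z ((0 : ℝ) • v) = z := by rw [zero_smul, Ex_zero hX hm]
  unfold Min
  simpa only [h2] using h1

private theorem OM_G1_dsb (hX : Surface Γ D) {μ : Pl → Co} (hm : HM Γ μ) (x y : Pl) :
    BGM.ds μ x y = ds μ x y := by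
  obtain ⟨a, b, ha, hab, h⟩ := curv_bounds hX hm
  exact ds_bgm hX hm (fun z => (h z).1) x y

/-- Fermi coordinates: the foot point -/
private theorem OM_G1_foot (hX : Surface Γ D) (hO : Ori Γ) {μ : Pl → Co} (hm : HM Γ μ) {g : Γ}
    {x0 v0 : Pl} {l : ℝ} (hA : Axis μ g x0 v0 l) (t y : ℝ) :
    ∃ z' : Pl, Min μ g z' ∧ BGM.ds μ (Fm μ x0 v0 (t, y)) z' = |y| := by
  have hA' := Axis_along hX hO hm hA t
  refine ⟨(gfl μ t (x0, v0)).1, OM_G1_min hX hO hm hA', ?_⟩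
  rw [OM_G1_dsb hX hm, ds_comm hX hm]
  have h1 : Fm μ x0 v0 (t, y) = Ex μ (gfl μ t (x0, v0)).1 (y • rot (gfl μ t (x0, v0)).2) := rfl
  rw [h1]
  unfold ds
  have h2 : eu (y • rot (gfl μ t (x0, v0)).2) = |y| * eu (rot (gfl μ t (x0, v0)).2) :=
    BGM.eu_smul y _
  rw [Vx_Ex hX hm, h2, AN3_eu_rot, hA'.unit, mul_one]

theorem ax_near (hP : Okc Γ D P) : ∃ (C : ℝ) (n k0 : ℕ), 1 ≤ C ∧ ∀ R ≥ k0, ∀ (η : Dir → I)
    (g : Γ), g ≠ 1 → ∀ T : ℝ, BGM.tl P.m g ≤ T → C * (1 + T) ^ n * √(P.c R) ≤ 1 →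
    (∀ z, Min (YY P Γ R η) g z → ∃ z', Min P.m g z' ∧
      BGM.ds P.m z z' ≤ C * (1 + T) ^ n * √(P.c R)) ∧
    (∀ z, Min P.m g z → ∃ z', Min (YY P Γ R η) g z' ∧
      BGM.ds P.m z z' ≤ C * (1 + T) ^ n * √(P.c R)) := by
  obtain ⟨k1, a, b, h⟩ := CF_pth hP
  obtain ⟨k2, hk2⟩ := XX_hm hP
  obtain ⟨n, hn⟩ := axes_close h
  obtain ⟨C1, hC1, hcmp⟩ := ds_cmp2 h
  obtain ⟨C2, hC2, har⟩ := ar_bd hP
  have hX := h.hX
  have hO := h.hO
  have hm := h.hm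
  have h2n : (1 : ℝ) ≤ 2 ^ n := one_le_pow₀ (by norm_num)
  have hn0 : (0 : ℝ) ≤ n := Nat.cast_nonneg n
  refine ⟨C1 * ((n + 1) * 2 ^ n), n, max k1 k2, ?_, fun R hR η g hg T hT hsm => ?_⟩
  · have h1 : (1 : ℝ) ≤ (n + 1) * 2 ^ n := by nlinarith
    nlinarith
  have hR1 : k1 ≤ R := (le_max_left _ _).trans hR
  have hR2 : k2 ≤ R := (le_max_right _ _).trans hR
  obtain ⟨hXX, hYY, -⟩ := hk2 R hR2 η
  have hc0 : 0 < P.c R := hP.cx.cs.pos R
  have hc1 : P.c R ≤ 1 := hP.cx.cs.le_one R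
  obtain ⟨e, he⟩ : ∃ e, e = √(P.c R) := ⟨_, rfl⟩
  have he0 : 0 ≤ e := by rw [he]; exact Real.sqrt_nonneg _
  have he1 : e ≤ 1 := by rw [he]; exact Real.sqrt_le_one.2 hc1
  have hne : ‖e‖ ≤ 1 := by rwa [Real.norm_eq_abs, abs_of_nonneg he0]
  have hn0' : ‖(0 : ℝ)‖ ≤ 1 := by rw [norm_zero]; exact zero_le_one
  have hm0 : mm P.m (pth P Γ D (R, η)) (0 : ℝ) = P.m := pth_zero hP (R, η)
  have hm1 : mm P.m (pth P Γ D (R, η)) e = XX P Γ D R η := by rw [he]; exact pth_one hP R η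
  have hn' := hn ⟨(R, η), hR1⟩
  have hcmp' := hcmp ⟨(R, η), hR1⟩
  simp only at hn' hcmp'
  have harp : 0 < ar P Γ D R η := lt_of_lt_of_le (inv_pos.2 (by linarith)) (har R η).1
  have hsq : 0 < √(ar P Γ D R η) := Real.sqrt_pos.2 harp
  have hiff : ∀ z, Min (YY P Γ R η) g z ↔ Min (XX P Γ D R η) g z := by
    intro z
    unfold Min
    rw [ds_XX hP, tl_XX hP]
    constructor
    · intro h1
      rw [h1]
    · intro h1
      exact (div_left_inj' hsq.ne').1 h1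
  have hT0 : 0 ≤ T := (BGM.tl_nonneg P.m g).trans hT
  have hpw : (0 : ℝ) ≤ (1 + T) ^ n := by positivity
  rw [← he] at hsm ⊢
  obtain ⟨x0, v0, hA0⟩ := GD.axis_exists hX hO hm hg
  obtain ⟨x1, v1, hA1⟩ := GD.axis_exists hX hO hXX hg
  have htl0 : 0 ≤ BGM.tl P.m g := BGM.tl_nonneg P.m g
  have htl1 : 0 ≤ BGM.tl (XX P Γ D R η) g := BGM.tl_nonneg _ g
  have hbase : (n : ℝ) * (1 + BGM.tl P.m g) ^ n * e ≤ (n + 1) * 2 ^ n * (1 + T) ^ n * e := by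
    apply mul_le_mul_of_nonneg_right _ he0
    have h1 : (1 + BGM.tl P.m g) ^ n ≤ (1 + T) ^ n :=
      pow_le_pow_left₀ (by linarith) (by linarith) n
    calc (n : ℝ) * (1 + BGM.tl P.m g) ^ n ≤ n * (1 + T) ^ n := mul_le_mul_of_nonneg_left h1 hn0
      _ ≤ (n + 1) * 2 ^ n * (1 + T) ^ n := by
        apply mul_le_mul_of_nonneg_right _ hpw
        nlinarith
  have hCle : (n + 1) * 2 ^ n * (1 + T) ^ n * e ≤ C1 * ((n + 1) * 2 ^ n) * (1 + T) ^ n * e := by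
    apply mul_le_mul_of_nonneg_right _ he0
    apply mul_le_mul_of_nonneg_right _ hpw
    have h1 : (0 : ℝ) ≤ (n + 1) * 2 ^ n := by positivity
    nlinarith
  have hdist : ‖e - 0‖ = e := by rw [sub_zero, Real.norm_eq_abs, abs_of_nonneg he0]
  have hdist' : ‖0 - e‖ = e := by rw [zero_sub, norm_neg, Real.norm_eq_abs, abs_of_nonneg he0]
  refine ⟨fun z hz => ?_, fun z hz => ?_⟩
  · obtain ⟨v, hv⟩ := OM_G1_axis hX hO hXX hg ((hiff z).1 hz)
    have hA0' : Axis (mm P.m (pth P Γ D (R, η)) (0 : ℝ)) g x0 v0 (BGM.tl P.m g) := by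
      rw [hm0]; exact hA0
    have hv' : Axis (mm P.m (pth P Γ D (R, η)) e) g z v (BGM.tl (XX P Γ D R η) g) := by
      rw [hm1]; exact hv
    obtain ⟨-, h2⟩ := hn' 0 e hn0' hne g x0 v0 z v _ _ hA0' hv'
    rw [hdist] at h2
    obtain ⟨t, y, hty, hy⟩ := h2 (hbase.trans (hCle.trans hsm))
    rw [hm0] at hty
    obtain ⟨z', hz', hd⟩ := OM_G1_foot hX hO hm hA0 t y
    refine ⟨z', hz', ?_⟩
    rw [← hty, hd]
    exact hy.trans (hbase.trans hCle)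
  · obtain ⟨v, hv⟩ := OM_G1_axis hX hO hm hg hz
    have hv' : Axis (mm P.m (pth P Γ D (R, η)) (0 : ℝ)) g z v (BGM.tl P.m g) := by
      rw [hm0]; exact hv
    have hA1' : Axis (mm P.m (pth P Γ D (R, η)) e) g x1 v1 (BGM.tl (XX P Γ D R η) g) := by
      rw [hm1]; exact hA1
    have hl := (hn' 0 e hn0' hne g z v x1 v1 _ _ hv' hA1').1
    rw [hdist] at hl
    have hl1 : BGM.tl (XX P Γ D R η) g ≤ BGM.tl P.m g + 1 := by
      have h1 := (abs_le.1 hl).2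
      have h2 := hbase.trans (hCle.trans hsm)
      linarith
    have hbase2 : (n : ℝ) * (1 + BGM.tl (XX P Γ D R η) g) ^ n * e ≤
        (n + 1) * 2 ^ n * (1 + T) ^ n * e := by
      apply mul_le_mul_of_nonneg_right _ he0
      have h1 : (1 + BGM.tl (XX P Γ D R η) g) ^ n ≤ (2 * (1 + T)) ^ n :=
        pow_le_pow_left₀ (by linarith) (by linarith) n
      rw [mul_pow] at h1
      calc (n : ℝ) * (1 + BGM.tl (XX P Γ D R η) g) ^ n ≤ n * (2 ^ n * (1 + T) ^ n) :=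
            mul_le_mul_of_nonneg_left h1 hn0
        _ ≤ (n + 1) * 2 ^ n * (1 + T) ^ n := by
          have h3 : (0 : ℝ) ≤ 2 ^ n * (1 + T) ^ n := by positivity
          nlinarith
    obtain ⟨-, h2⟩ := hn' e 0 hne hn0' g x1 v1 z v _ _ hA1' hv'
    rw [hdist'] at h2
    obtain ⟨t, y, hty, hy⟩ := h2 (hbase2.trans (hCle.trans hsm))
    rw [hm1] at hty
    obtain ⟨z', hz', hd⟩ := OM_G1_foot hX hO hXX hA1 t y
    refine ⟨z', (hiff z').2 hz', ?_⟩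
    have h3 := hcmp' 0 e hn0' hne z z'
    rw [hm0, hm1, ← OM_G1_dsb hX hm, ← OM_G1_dsb hX hXX] at h3
    rw [hty] at hd
    rw [hd] at h3
    refine h3.trans ?_
    have h4 := mul_le_mul_of_nonneg_left (hy.trans hbase2) (by linarith : (0 : ℝ) ≤ C1)
    refine h4.trans (le_of_eq ?_)
    ring

end OM21
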