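import Pool.Agent.LibOM21.F2
import Pool.Agent.LibBGM20.E8

/-! ROW G2 : good squares with a margin. SHORT/MEDIUM.
PLAN. `BGM.E8_cover` for the data with the grid `L' = P.L - 1` (`Cx` with `dom` from `Okc.dom`; `1 ≤ P.L` because `closure D` is not empty) at `ξ = 0`: `mx Γ P.m P.ψ L' P.c 0 = P.m` (`hP.psi`, `ps .. 0 = 0`, `cf 0 m = m`). For `R` let `s = (R + 1)/2` (natural division, `2 s ≤ R + 1 ≤ 2 s + 1`, `s ≥ 2`), apply it with `R := s - 1`: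
`γ`, `p0 ∈ grid L' s`, `z` with `|s z - p0| ≤ 1/2` (clause 2 of `Gd`) and clause 3. Take `p = round ((R + 1) z)` (both coordinates). `p ∈ grid P.L (R + 1)`: `|z| ≤ (L' s + 1/2)/s`, `L' = P.L - 1`, `s ≥ 2`: `|(R+1) z| + 1/2 < P.L (R + 1)`. If `w = γ' z'` is in the square `Sq R p (5/2)` then `|(R+1)(w - z)| ≤ 3`, so
`s |w - z| ≤ 3 s/(R+1) ≤ 3/2` and `|s w - p0| ≤ 2`: contradiction to clause 3. The constant: `(n+1) exp (C T) ≤ s - 1` follows from `(n + 1) exp (C' T) ≤ R` with `C' = C + 3` (`T ≥ 1`, `exp 3 ≥ 8`). `tl P.m (γ g γ⁻¹) = tl P.m g`: clause 2 of `Gd` is for `γ g γ⁻¹` and `tl` of it (see how E8 states it; `BGM.B2_conj`). -/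

open MeasureTheory Set Filter Topology
open scoped ContDiff unitInterval

namespace OM21

open BGS BR BE B35

variable {Γ : Type} [Group Γ] [MulAction Γ Pl] {D : Set Pl} {P : Dt}

private theorem OM_G2_mx (hP : Okc Γ D P) (L : ℕ) :
    BGM.mx Γ P.m P.ψ L P.c (fun _ => 0) = P.m := by
  funext z
  unfold BGM.mx BGM.cf BGM.ex BGM.ps
  rw [hP.psi]
  have h : ∀ R : ℕ, P.c R * BGM.psR Γ L (fun _ => (0 : I)) R z = 0 := by
    intro R
    have h1 : BGM.psR Γ L (fun _ => (0 : I)) R z = 0 := by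
      unfold BGM.psR
      apply Finset.sum_eq_zero
      intro p _
      simp
    rw [h1, mul_zero]
  simp only [h, tsum_zero, add_zero, Real.exp_zero, one_smul]

private theorem OM_G2_grid {L R : ℕ} {S x : ℝ} {q : ℤ} (hS : 2 ≤ S)
    (hq : |(q : ℝ)| ≤ ((L : ℝ) - 1) * S) (hx : |S * x - q| ≤ 1 / 2) :
    -((L : ℤ) * ((R + 1 : ℕ) : ℤ)) ≤ round (((R : ℝ) + 1) * x) ∧
      round (((R : ℝ) + 1) * x) < (L : ℤ) * ((R + 1 : ℕ) : ℤ) := by
  have h1 := abs_le.1 (abs_sub_round (((R : ℝ) + 1) * x))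
  have h2 := abs_le.1 hq
  have h3 := abs_le.1 hx
  have hR : (0 : ℝ) ≤ (R : ℝ) := Nat.cast_nonneg R
  have h4 : S * x ≤ S * ((L : ℝ) - 3 / 4) := by linarith [h2.2, h3.2]
  have h5 : S * (-((L : ℝ) - 3 / 4)) ≤ S * x := by linarith [h2.1, h3.1]
  have h6 : x ≤ (L : ℝ) - 3 / 4 := le_of_mul_le_mul_left h4 (by linarith)
  have h7 : -((L : ℝ) - 3 / 4) ≤ x := le_of_mul_le_mul_left h5 (by linarith)
  have h8 : ((R : ℝ) + 1) * x ≤ ((R : ℝ) + 1) * ((L : ℝ) - 3 / 4) :=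
    mul_le_mul_of_nonneg_left h6 (by linarith)
  have h9 : ((R : ℝ) + 1) * (-((L : ℝ) - 3 / 4)) ≤ ((R : ℝ) + 1) * x :=
    mul_le_mul_of_nonneg_left h7 (by linarith)
  constructor
  · have : (-((L : ℝ) * ((R : ℝ) + 1)) : ℝ) ≤ (round (((R : ℝ) + 1) * x) : ℝ) := by
      linarith [h1.2]
    exact_mod_cast this
  · have : (round (((R : ℝ) + 1) * x) : ℝ) < (L : ℝ) * ((R : ℝ) + 1) := by
      linarith [h1.1]
    exact_mod_cast this

private theorem OM_G2_key {R S x y : ℝ} {q : ℤ} (hS : 0 < S) (hSR : 2 * S ≤ R + 1)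
    (hx : |S * x - q| ≤ 1 / 2) (hy : |(R + 1) * y - round ((R + 1) * x)| ≤ 5 / 2) :
    |S * y - q| ≤ 2 := by
  have h1 := abs_le.1 (abs_sub_round ((R + 1) * x))
  have h2 := abs_le.1 hy
  have h3 : |(R + 1) * (y - x)| ≤ 3 := by
    rw [abs_le]
    constructor
    · linarith [h1.1, h2.1]
    · linarith [h1.2, h2.2]
  rw [abs_mul, abs_of_pos (by linarith : 0 < R + 1)] at h3
  have h4 := mul_le_mul_of_nonneg_right hSR (abs_nonneg (y - x))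
  have h5 : |S * (y - x)| ≤ 3 / 2 := by
    rw [abs_mul, abs_of_pos hS]
    linarith
  have h6 : S * y - q = S * (y - x) + (S * x - q) := by ring
  rw [h6]
  refine (abs_add_le _ _).trans ?_
  linarith

private theorem OM_G2_abs {L S : ℕ} {q : ℤ} (hq : q ∈ Finset.Ico (-((L : ℤ) * (S : ℤ))) ((L : ℤ) * S)) :
    |(q : ℝ)| ≤ (L : ℝ) * S := by
  rw [Finset.mem_Ico] at hq
  rw [abs_le]
  constructor
  · have h1 : (((-((L : ℤ) * (S : ℤ)) : ℤ)) : ℝ) ≤ (q : ℝ) := Int.cast_le.2 hq.1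
    push_cast at h1
    exact h1
  · have h1 : (q : ℝ) ≤ ((((L : ℤ) * (S : ℤ)) : ℤ) : ℝ) := Int.cast_le.2 hq.2.le
    push_cast at h1
    exact h1

private theorem OM_G2_const {C : ℝ} (hC : 0 < C) {T n R : ℕ} (hT : 1 ≤ T)
    (hR : (n + 1) * Real.exp ((C + 3) * T) ≤ R) :
    ∃ s : ℕ, (n + 1) * Real.exp (C * T) ≤ s ∧ (2 : ℝ) ≤ ((s + 1 : ℕ) : ℝ) ∧
      2 * ((s + 1 : ℕ) : ℝ) ≤ (R : ℝ) + 1 := by
  have hT1 : (1 : ℝ) ≤ T := by exact_mod_cast hT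
  have he : Real.exp ((C + 3) * T) = Real.exp (C * T) * Real.exp (3 * T) := by
    rw [← Real.exp_add]
    congr 1
    ring
  have h2 : (2 : ℝ) ≤ Real.exp 1 := by
    have h := Real.add_one_le_exp (1 : ℝ)
    linarith
  have h8 : (8 : ℝ) ≤ Real.exp (3 * T) := by
    have h3 : Real.exp (1 + 1 + 1) ≤ Real.exp (3 * T) := Real.exp_le_exp.2 (by linarith)
    rw [Real.exp_add, Real.exp_add] at h3
    have h4 : (2 : ℝ) * 2 ≤ Real.exp 1 * Real.exp 1 := mul_le_mul h2 h2 (by norm_num) (by linarith)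
    have h5 : (2 : ℝ) * 2 * 2 ≤ Real.exp 1 * Real.exp 1 * Real.exp 1 :=
      mul_le_mul h4 h2 (by norm_num) (by linarith)
    linarith
  have h1 : (1 : ℝ) ≤ Real.exp (C * T) := Real.one_le_exp (by positivity)
  have hn : (1 : ℝ) ≤ (n : ℝ) + 1 := by
    have h := Nat.cast_nonneg (α := ℝ) n
    linarith
  have hA : (1 : ℝ) ≤ ((n : ℝ) + 1) * Real.exp (C * T) := by
    have h := mul_le_mul hn h1 (by norm_num) (by linarith)
    linarith
  have hAR : ((n : ℝ) + 1) * Real.exp (C * T) * 8 ≤ R := by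
    rw [he] at hR
    have h := mul_le_mul_of_nonneg_left h8 (by linarith : 0 ≤ ((n : ℝ) + 1) * Real.exp (C * T))
    linarith
  have hR8 : (8 : ℝ) ≤ R := by linarith
  have hR8' : 8 ≤ R := by exact_mod_cast hR8
  obtain ⟨s, hs⟩ : ∃ s, (R + 1) / 2 = s + 1 := ⟨(R + 1) / 2 - 1, by omega⟩
  have hs1 : R ≤ 2 * (s + 1) := by omega
  have hs2 : 2 * (s + 1) ≤ R + 1 := by omega
  have hs1' : (R : ℝ) ≤ 2 * ((s : ℝ) + 1) := by exact_mod_cast hs1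
  have hs2' : 2 * ((s : ℝ) + 1) ≤ (R : ℝ) + 1 := by exact_mod_cast hs2
  refine ⟨s, by linarith, ?_, ?_⟩
  · push_cast
    linarith
  · push_cast
    linarith

theorem sq_margin (hP : Okc Γ D P) : ∃ C : ℝ, 0 < C ∧ ∀ (T n : ℕ) (g : Γ) (f : Fin n → Γ),
    1 ≤ T → BGM.Prim g → (∀ i, BGM.Prim (f i)) →
    (∀ i (γ : Γ), γ * f i * γ⁻¹ ≠ g ∧ γ * f i * γ⁻¹ ≠ g⁻¹) → BGM.tl P.m g ≤ T →
    (∀ i, BGM.tl P.m (f i) ≤ T) → ∀ R : ℕ, (n + 1) * Real.exp (C * T) ≤ R →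
    ∃ γ : Γ, ∃ p ∈ grid P.L (R + 1), (∃ z, Sq R p (1 / 2) z ∧ Min P.m (γ * g * γ⁻¹) z) ∧
      ∀ i, Avoid Γ P.m (f i) R p (5 / 2) := by
  have h2L : 2 ≤ P.L := by
    obtain ⟨γ, hγ, -⟩ := hP.cx.hX.orbit 0
    have h1 := (hP.dom _ (subset_closure hγ)).1
    have h2 := abs_nonneg (γ • (0 : Pl)).1
    have h3 : (2 : ℝ) ≤ P.L := by linarith
    exact_mod_cast h3
  have hL : ((P.L - 1 : ℕ) : ℝ) = (P.L : ℝ) - 1 := by
    rw [Nat.cast_sub (by omega), Nat.cast_one]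
  have hcx : BGM.Cx Γ D P.m P.ψ (P.L - 1) P.c :=
    { hP.cx with
      dom := by
        intro z hz
        rw [hL]
        have h := hP.dom z hz
        constructor
        · linarith [h.1]
        · linarith [h.2] }
  obtain ⟨C, hC, hcov⟩ := BGM.E8_cover hcx
  refine ⟨C + 3, by linarith, ?_⟩
  intro T n g f hT hg hf hne hgT hfT R hR
  obtain ⟨s, hs1, hs2, hs3⟩ := OM_G2_const hC hT hR
  have hcv := hcov (fun _ => 0)
  rw [OM_G2_mx hP (P.L - 1)] at hcv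
  obtain ⟨γ, p, hp, -, hGd⟩ := hcv hP.hm.neg T n g f hT hg hf hne hgT hfT s hs1
  obtain ⟨-, ⟨z, hz1, hz2, hz3⟩, hav⟩ := hGd
  rw [OM_G2_mx hP (P.L - 1)] at hz3
  have hp' := hp
  unfold grid at hp'
  rw [Finset.mem_product] at hp'
  have hq1 := OM_G2_abs hp'.1
  have hq2 := OM_G2_abs hp'.2
  rw [hL] at hq1 hq2
  refine ⟨γ, (round (((R : ℝ) + 1) * z.1), round (((R : ℝ) + 1) * z.2)), ?_,
    ⟨z, ⟨abs_sub_round _, abs_sub_round _⟩, hz3⟩, ?_⟩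
  · unfold grid
    rw [Finset.mem_product, Finset.mem_Ico, Finset.mem_Ico]
    exact ⟨OM_G2_grid hs2 hq1 hz1, OM_G2_grid hs2 hq2 hz2⟩
  · intro i w hw γ' hsq
    have h1 := hav i w
    rw [OM_G2_mx hP (P.L - 1)] at h1
    exact h1 hw γ' ⟨OM_G2_key (by linarith) hs3 hz1 hsq.1, OM_G2_key (by linarith) hs3 hz2 hsq.2⟩

end OM21
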