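import Pool.Agent.LibOM21.Defs
import Pool.Agent.LibBE88.V13
import Pool.Agent.LibBE36T.Defs

/-! ROW T1 : the growth of the remainder of the parametrix, uniformly in a family of class `CF` (fixed `N`). MEDIUM/STRONG, mostly a copy of LibBE88/V13.lean
(one metric) with the index `(i, p)` as in LibBE36/GE5.lean (the same for the class `CH`, explicit in `N`; here `N` is fixed, `Adm` in place of `HN`).
PLAN. Class `Wf h c`: `∃ Q : ι → ℝ × Pl × Pl → ℝ, Adm Γ D m s Q ∧ ∀ i p x v, c i p (x, v) = exp (-(ff m (s i) (p, x, Ex (mm m (s i) p) x v) / 2)) * Q i (p, x, Ex (mm m (s i) p) x v)`.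
Closed under `PX6_E`, `PX6_H`, `PX6_F` (V13: `Wc_E`, `Wc_H`, `Wc_F`; GE5: `Wn_E`, `Wn_H`, `Wn_F` give the pointwise identities for the metric `mm m (s i) p`), contains `BE73.cN (mm m (s i) p) N` (`Adm_uu`, `Adm_TT`).
`Wf_bd`: `|c i p (x, v)| ≤ B exp (B ρ)` for `‖p‖ ≤ 1`, `x ∈ closure D`, `sg v ≤ ρ²` (`Adm_val` at the index `(i, p, x, y, γ)`, `d = eu v ≤ ρ`: `C (2 + ρ)^C ≤ B exp (B ρ)`). `GkB` of depth 2: finitely many `c`, maximum of the constants.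
`UU (Gx M x) j 0 = uu m (s i) j (p, x, x)` (`uu_UU`, `Vx_self`, `ff = log 1 = 0` there or `exp (-(ff/2)) ≤ 1`), bounded by `Adm_uu` at the index `(i, p, x, x, 1)` (`d = 0`); `≤ B ^ j` with `B ≥ 1` the maximum over `j ≤ N`. -/

open MeasureTheory Set Filter Topology
open scoped ContDiff unitInterval

namespace OM21

open BGS BR BE B35

variable {Γ : Type} [Group Γ] [MulAction Γ Pl] {D : Set Pl} {P : Dt}

/-- Functions of `(x, v)` of the form `wt ^ (-1/2) Q (x, Ex x v)`. -/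
private def OM_T1_Wf (Γ : Type) [Group Γ] [MulAction Γ Pl] (D : Set Pl) {ι : Type} (m : Pl → Co)
    (s : ι → ℝ × Pl → ℝ) (c : ι → ℝ → Pl × Pl → ℝ) : Prop :=
  ∃ Q : ι → ℝ × Pl × Pl → ℝ, Adm Γ D m s Q ∧
    ∀ i p x v, c i p (x, v) = Real.exp (-(ff m (s i) (p, x, Ex (mm m (s i) p) x v) / 2)) *
      Q i (p, x, Ex (mm m (s i) p) x v)

private theorem OM_T1_grow (A : ℝ) (hA : 0 ≤ A) : ∃ B : ℝ, 1 ≤ B ∧ ∀ d ρ : ℝ, 0 ≤ d → d ≤ ρ →
    A * Real.exp (A * Real.log (2 + d)) ≤ B * Real.exp (B * ρ) := by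
  have hE : 0 < Real.exp A := Real.exp_pos A
  have hAE : 0 ≤ A * Real.exp A := by positivity
  refine ⟨1 + A * Real.exp A + A, by linarith, fun d ρ hd hdρ => ?_⟩
  have hρ : 0 ≤ ρ := hd.trans hdρ
  have h1 : 0 < 2 + d := by linarith
  have h2 : Real.log (2 + d) ≤ 1 + ρ := by
    have := Real.log_le_sub_one_of_pos h1
    linarith
  have h3 : A * Real.log (2 + d) ≤ A + A * ρ := by
    have := mul_le_mul_of_nonneg_left h2 hA
    linarith
  have h4 : A * ρ ≤ (1 + A * Real.exp A + A) * ρ :=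
    mul_le_mul_of_nonneg_right (by linarith) hρ
  calc A * Real.exp (A * Real.log (2 + d))
      ≤ A * Real.exp (A + A * ρ) := mul_le_mul_of_nonneg_left (Real.exp_le_exp.2 h3) hA
    _ = (A * Real.exp A) * Real.exp (A * ρ) := by
        rw [Real.exp_add]
        ring
    _ ≤ (A * Real.exp A) * Real.exp ((1 + A * Real.exp A + A) * ρ) :=
        mul_le_mul_of_nonneg_left (Real.exp_le_exp.2 h4) hAE
    _ ≤ (1 + A * Real.exp A + A) * Real.exp ((1 + A * Real.exp A + A) * ρ) :=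
        mul_le_mul_of_nonneg_right (by linarith) (Real.exp_pos _).le

private theorem OM_T1_mono {B B' ρ : ℝ} (h0 : 0 ≤ B) (h : B ≤ B') (hρ : 0 ≤ ρ) :
    B * Real.exp (B * ρ) ≤ B' * Real.exp (B' * ρ) := by
  have h1 : Real.exp (B * ρ) ≤ Real.exp (B' * ρ) :=
    Real.exp_le_exp.2 (mul_le_mul_of_nonneg_right h hρ)
  calc B * Real.exp (B * ρ) ≤ B * Real.exp (B' * ρ) := mul_le_mul_of_nonneg_left h1 h0
    _ ≤ B' * Real.exp (B' * ρ) := mul_le_mul_of_nonneg_right h (Real.exp_pos _).le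

private theorem OM_T1_gkmono {K : Set Pl} {G : Pl × Pl → Co} {ρ B B' : ℝ} (hB : B ≤ B') (k : ℕ) :
    ∀ c : Pl × Pl → ℝ, B36.GkB K G ρ B k c → B36.GkB K G ρ B' k c := by
  induction k with
  | zero =>
    intro c hc x hx v hv
    exact (hc x hx v hv).trans hB
  | succ k ih =>
    intro c hc
    obtain ⟨h0, h1, h2, h3⟩ := hc
    exact ⟨fun x hx v hv => (h0 x hx v hv).trans hB, ih _ h1, ih _ h2, ih _ h3⟩

private theorem OM_T1_eu {v : Pl} {ρ : ℝ} (hρ : 0 ≤ ρ) (hv : sg v ≤ ρ ^ 2) : eu v ≤ ρ := by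
  have h1 : eu v = √(sg v) := rfl
  rw [h1]
  calc √(sg v) ≤ √(ρ ^ 2) := Real.sqrt_le_sqrt hv
    _ = ρ := Real.sqrt_sq hρ

section

variable {ι : Type} {m : Pl → Co} {a b : ℝ} {s : ι → ℝ × Pl → ℝ}

private theorem OM_T1_sm0 (h : CF Γ D m a b s) {Q : ι → ℝ × Pl × Pl → ℝ}
    (hQ : Adm Γ D m s Q) (i : ι) : ContDiff ℝ ∞ (Q i) := by
  have hne : D.Nonempty := by
    obtain ⟨γ, hγ, -⟩ := h.hX.orbit 0
    exact ⟨_, hγ⟩
  exact Adm_smooth h.hX hne hQ i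

private theorem OM_T1_sm (h : CF Γ D m a b s) {c : ι → ℝ → Pl × Pl → ℝ}
    (hc : OM_T1_Wf Γ D m s c) (i : ι) (p : ℝ) (x : Pl) :
    ContDiff ℝ ∞ (fun v => c i p (x, v)) := by
  obtain ⟨Q, hQ, hcQ⟩ := hc
  have h1 : (fun v => c i p (x, v)) =
      fun v => Real.exp (-(ff m (s i) (p, x, Ex (mm m (s i) p) x v) / 2)) *
        Q i (p, x, Ex (mm m (s i) p) x v) := funext fun v => hcQ i p x v
  rw [h1]
  have hE : ContDiff ℝ ∞ (fun v : Pl => Ex (mm m (s i) p) x v) :=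
    (Ex_smooth h.hX (hm_mm h i p)).comp (contDiff_const.prodMk contDiff_id)
  have h2 : ContDiff ℝ ∞ (fun v : Pl => ((p, x, Ex (mm m (s i) p) x v) : ℝ × Pl × Pl)) :=
    contDiff_const.prodMk (contDiff_const.prodMk hE)
  have h3 : ContDiff ℝ ∞ (fun v => ff m (s i) (p, x, Ex (mm m (s i) p) x v)) :=
    (ff_smooth h i).comp h2
  exact ((h3.div_const 2).neg.exp).mul ((OM_T1_sm0 h hQ i).comp h2)

private theorem OM_T1_lin {c c' : ι → ℝ → Pl × Pl → ℝ}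
    (hc : OM_T1_Wf Γ D m s c) (hc' : OM_T1_Wf Γ D m s c') (α β : ℝ) :
    OM_T1_Wf Γ D m s (fun i p q => α * c i p q + β * c' i p q) := by
  obtain ⟨Q, hQ, hcQ⟩ := hc
  obtain ⟨Q', hQ', hcQ'⟩ := hc'
  refine ⟨fun i e => α * Q i e + β * Q' i e, ?_, fun i p x v => ?_⟩
  · exact Adm_add (Adm_mul (Adm_const α) hQ) (Adm_mul (Adm_const β) hQ')
  · change α * c i p (x, v) + β * c' i p (x, v) = _
    rw [hcQ, hcQ']
    ring

private theorem OM_T1_bd (h : CF Γ D m a b s) {c : ι → ℝ → Pl × Pl → ℝ}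
    (hc : OM_T1_Wf Γ D m s c) : ∃ B : ℝ, 1 ≤ B ∧ ∀ (i : ι) (p : ℝ), ‖p‖ ≤ 1 → ∀ ρ : ℝ, 0 ≤ ρ →
      ∀ x ∈ closure D, ∀ v : Pl, sg v ≤ ρ ^ 2 → |c i p (x, v)| ≤ B * Real.exp (B * ρ) := by
  obtain ⟨Q, hQ, hcQ⟩ := hc
  obtain ⟨C, hC⟩ := Adm_val hQ
  obtain ⟨B, hB1, hB⟩ := OM_T1_grow |C| (abs_nonneg C)
  refine ⟨B, hB1, fun i p hp ρ hρ x hx v hv => ?_⟩
  obtain ⟨γ, hγ, -⟩ := h.hX.orbit (Ex (mm m (s i) p) x v)
  have hgy : γ⁻¹ • (γ • Ex (mm m (s i) p) x v) = Ex (mm m (s i) p) x v := inv_smul_smul γ _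
  let q : Ix ι ℝ Γ D := ⟨i, p, x, γ • Ex (mm m (s i) p) x v, γ⁻¹, hp, hx, subset_closure hγ⟩
  have hq := hC q
  have hq1 : ‖Q i (p, x, Ex (mm m (s i) p) x v)‖ ≤ C * Real.exp (C * ll m s q) := by
    have h1 : Q i (p, x, Ex (mm m (s i) p) x v) =
        Q i (p, x, γ⁻¹ • (γ • Ex (mm m (s i) p) x v)) := by rw [hgy]
    rw [h1]
    exact hq
  have hd : q.d m s = eu v := by
    change ds (mm m (s i) p) x (γ⁻¹ • (γ • Ex (mm m (s i) p) x v)) = eu v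
    rw [hgy]
    unfold ds
    rw [Vx_Ex h.hX (hm_mm h i p)]
  have hd0 : 0 ≤ eu v := Real.sqrt_nonneg _
  have hle : eu v ≤ ρ := OM_T1_eu hρ hv
  have hll : ll m s q = Real.log (2 + eu v) := by
    unfold ll
    rw [hd]
  have hll0 : 0 ≤ Real.log (2 + eu v) := Real.log_nonneg (by linarith)
  have h2 : C * Real.exp (C * Real.log (2 + eu v)) ≤
      |C| * Real.exp (|C| * Real.log (2 + eu v)) := by
    have h3 : Real.exp (C * Real.log (2 + eu v)) ≤ Real.exp (|C| * Real.log (2 + eu v)) :=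
      Real.exp_le_exp.2 (mul_le_mul_of_nonneg_right (le_abs_self C) hll0)
    calc C * Real.exp (C * Real.log (2 + eu v)) ≤ |C| * Real.exp (C * Real.log (2 + eu v)) :=
          mul_le_mul_of_nonneg_right (le_abs_self C) (Real.exp_pos _).le
      _ ≤ |C| * Real.exp (|C| * Real.log (2 + eu v)) :=
          mul_le_mul_of_nonneg_left h3 (abs_nonneg C)
  have h4 := hB (eu v) ρ hd0 hle
  rw [hcQ, abs_mul, abs_of_pos (Real.exp_pos _)]
  have h5 : Real.exp (-(ff m (s i) (p, x, Ex (mm m (s i) p) x v) / 2)) ≤ 1 := by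
    rw [Real.exp_le_one_iff]
    have := ff_nonneg h i (p, x, Ex (mm m (s i) p) x v)
    linarith
  rw [hll] at hq1
  calc Real.exp (-(ff m (s i) (p, x, Ex (mm m (s i) p) x v) / 2)) *
        |Q i (p, x, Ex (mm m (s i) p) x v)|
      ≤ 1 * |Q i (p, x, Ex (mm m (s i) p) x v)| := mul_le_mul_of_nonneg_right h5 (abs_nonneg _)
    _ = ‖Q i (p, x, Ex (mm m (s i) p) x v)‖ := by rw [one_mul, Real.norm_eq_abs]
    _ ≤ B * Real.exp (B * ρ) := (hq1.trans h2).trans h4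

private theorem OM_T1_E (h : CF Γ D m a b s) {c : ι → ℝ → Pl × Pl → ℝ}
    (hc : OM_T1_Wf Γ D m s c) : OM_T1_Wf Γ D m s (fun i p => PX6_E (c i p)) := by
  obtain ⟨Q, hQ, hcQ⟩ := hc
  refine ⟨fun i e => (4 * sg (JV m (s i) e)) * Q i e, ?_, fun i p x v => ?_⟩
  · exact Adm_mul (Adm_mul (Adm_const (4 : ℝ)) (Adm_d2 h)) hQ
  · have h1 : JV m (s i) (p, x, Ex (mm m (s i) p) x v) = v :=
      Vx_Ex h.hX (hm_mm h i p) x v
    change 4 * sg v * c i p (x, v) =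
      Real.exp (-(ff m (s i) (p, x, Ex (mm m (s i) p) x v) / 2)) *
        ((4 * sg (JV m (s i) (p, x, Ex (mm m (s i) p) x v))) *
          Q i (p, x, Ex (mm m (s i) p) x v))
    rw [hcQ, h1]
    ring

private theorem OM_T1_H (h : CF Γ D m a b s) {c : ι → ℝ → Pl × Pl → ℝ}
    (hc : OM_T1_Wf Γ D m s c) :
    OM_T1_Wf Γ D m s (fun i p => PX6_H (mE (mm m (s i) p)) (c i p)) := by
  obtain ⟨Q, hQ, hcQ⟩ := hc
  refine ⟨fun i => TT m (s i) (Q i), Adm_TT h hQ, fun i p x v => ?_⟩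
  have hsl : ContDiff ℝ ∞ (fun y : Pl => Q i (p, x, y)) :=
    (OM_T1_sm0 h hQ i).comp (contDiff_const.prodMk (contDiff_const.prodMk contDiff_id))
  have h1 := TT_conj h i (Q := Q i) p x hsl v
  change LL (Gx (mm m (s i) p) x) (fun v => c i p (x, v)) v = _
  have h3 : (fun v => c i p (x, v)) =
      fun v => Real.exp (-(ff m (s i) (p, x, Ex (mm m (s i) p) x v) / 2)) *
        Q i (p, x, Ex (mm m (s i) p) x v) := funext fun v => hcQ i p x v
  rw [h3]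
  exact h1

private theorem OM_T1_F (h : CF Γ D m a b s) {c : ι → ℝ → Pl × Pl → ℝ}
    (hc : OM_T1_Wf Γ D m s c) :
    OM_T1_Wf Γ D m s (fun i p => PX6_F (mE (mm m (s i) p)) (c i p)) := by
  have h1 := OM_T1_lin (OM_T1_E h (OM_T1_H h hc)) (OM_T1_H h (OM_T1_E h hc)) (1 / 4) (-(1 / 4))
  have h2 : (fun i p => PX6_F (mE (mm m (s i) p)) (c i p)) = fun i p q =>
      (1 / 4) * PX6_E (PX6_H (mE (mm m (s i) p)) (c i p)) q +
      (-(1 / 4)) * PX6_H (mE (mm m (s i) p)) (PX6_E (c i p)) q := by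
    funext i p q
    obtain ⟨x, v⟩ := q
    have hP : PMt (Gx (mm m (s i) p) x) := Gx_PMt h.hX h.hO (hm_mm h i p) x
    have hSM : SM (Gx (mm m (s i) p) x) := ⟨hP.smooth, hP.pos⟩
    have hcs : ContDiff ℝ ∞ (fun v => c i p (x, v)) := OM_T1_sm h hc i p x
    have h3 := LL_mulG hSM PX1_sg_smooth hcs v
    rw [V13_gr hP] at h3
    have h4 := LL_lin hSM (PX1_sg_smooth.mul hcs) hcs 4 0 v
    have h5 : PX6_H (mE (mm m (s i) p)) (PX6_E (c i p)) (x, v) =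
        4 * LL (Gx (mm m (s i) p) x) (fun y => sg y * c i p (x, y)) v := by
      change LL (Gx (mm m (s i) p) x) (fun y => 4 * sg y * c i p (x, y)) v = _
      have h6 : (fun y => 4 * sg y * c i p (x, y)) =
          fun y => 4 * (sg y * c i p (x, y)) + 0 * c i p (x, y) := by
        funext y
        ring
      rw [h6, h4]
      ring
    change -(c i p (x, v) * LL (Gx (mm m (s i) p) x) sg v +
      4 * (v.1 * dx (fun v => c i p (x, v)) v + v.2 * dy (fun v => c i p (x, v)) v)) =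
      (1 / 4) * (4 * sg v * LL (Gx (mm m (s i) p) x) (fun v => c i p (x, v)) v) +
      (-(1 / 4)) * PX6_H (mE (mm m (s i) p)) (PX6_E (c i p)) (x, v)
    rw [h5, h3]
    ring
  rw [h2]
  exact h1

private theorem OM_T1_cN (h : CF Γ D m a b s) (N : ℕ) :
    OM_T1_Wf Γ D m s (fun i p => BE73.cN (mm m (s i) p) N) := by
  have h1 : OM_T1_Wf Γ D m s (fun i p q => UU (Gx (mm m (s i) p) q.1) N q.2) := by
    refine ⟨fun i => uu m (s i) N, Adm_uu h N, fun i p x v => ?_⟩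
    have h2 := uu_UU h i N (p, x, Ex (mm m (s i) p) x v)
    have h3 : JV m (s i) (p, x, Ex (mm m (s i) p) x v) = v :=
      Vx_Ex h.hX (hm_mm h i p) x v
    rw [h3] at h2
    exact h2
  exact OM_T1_H h h1

private theorem OM_T1_Gk (h : CF Γ D m a b s) (k : ℕ) :
    ∀ c : ι → ℝ → Pl × Pl → ℝ, OM_T1_Wf Γ D m s c → ∃ B : ℝ, 1 ≤ B ∧ ∀ (i : ι) (p : ℝ),
      ‖p‖ ≤ 1 → ∀ ρ : ℝ, 0 ≤ ρ → B36.GkB (closure D) (mE (mm m (s i) p)) ρ
      (B * Real.exp (B * ρ)) k (c i p) := by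
  induction k with
  | zero =>
    intro c hc
    exact OM_T1_bd h hc
  | succ k ih =>
    intro c hc
    obtain ⟨A0, g0, h0⟩ := OM_T1_bd h hc
    obtain ⟨A1, g1, h1⟩ := ih _ (OM_T1_E h hc)
    obtain ⟨A2, g2, h2⟩ := ih _ (OM_T1_F h hc)
    obtain ⟨A3, g3, h3⟩ := ih _ (OM_T1_H h hc)
    refine ⟨A0 + A1 + A2 + A3, by linarith, fun i p hp ρ hρ => ?_⟩
    have m0 := OM_T1_mono (B' := A0 + A1 + A2 + A3) (by linarith : (0 : ℝ) ≤ A0)
      (by linarith) hρ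
    have m1 := OM_T1_mono (B' := A0 + A1 + A2 + A3) (by linarith : (0 : ℝ) ≤ A1)
      (by linarith) hρ
    have m2 := OM_T1_mono (B' := A0 + A1 + A2 + A3) (by linarith : (0 : ℝ) ≤ A2)
      (by linarith) hρ
    have m3 := OM_T1_mono (B' := A0 + A1 + A2 + A3) (by linarith : (0 : ℝ) ≤ A3)
      (by linarith) hρ
    refine ⟨fun x hx v hv => (h0 i p hp ρ hρ x hx v hv).trans m0, ?_, ?_, ?_⟩
    · exact OM_T1_gkmono m1 k _ (h1 i p hp ρ hρ)
    · exact OM_T1_gkmono m2 k _ (h2 i p hp ρ hρ)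
    · exact OM_T1_gkmono m3 k _ (h3 i p hp ρ hρ)

private theorem OM_T1_u0 (h : CF Γ D m a b s) (j : ℕ) : ∃ B : ℝ, 1 ≤ B ∧ ∀ (i : ι) (p : ℝ),
    ‖p‖ ≤ 1 → ∀ x ∈ closure D, |UU (Gx (mm m (s i) p) x) j 0| ≤ B := by
  obtain ⟨C, hC⟩ := Adm_val (Adm_uu h j)
  refine ⟨1 + |C * Real.exp (C * Real.log 2)|, by
    have := abs_nonneg (C * Real.exp (C * Real.log 2))
    linarith, fun i p hp x hx => ?_⟩
  let q : Ix ι ℝ Γ D := ⟨i, p, x, x, 1, hp, hx, hx⟩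
  have hq := hC q
  have hd : q.d m s = 0 := by
    change ds (mm m (s i) p) x ((1 : Γ) • x) = 0
    rw [one_smul]
    unfold ds
    rw [Vx_self h.hX (hm_mm h i p)]
    simp [eu]
  have hll : ll m s q = Real.log 2 := by
    unfold ll
    rw [hd, add_zero]
  have hq1 : |uu m (s i) j (p, x, x)| ≤ C * Real.exp (C * Real.log 2) := by
    rw [hll] at hq
    have h2 : uu m (s i) j (p, x, (1 : Γ) • x) = uu m (s i) j (p, x, x) := by rw [one_smul]
    rw [← h2]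
    exact hq
  have h4 := uu_UU h i j (p, x, x)
  have h5 : JV m (s i) (p, x, x) = 0 := Vx_self h.hX (hm_mm h i p) x
  rw [h5] at h4
  have h6 : Real.exp (-(ff m (s i) (p, x, x) / 2)) ≤ 1 := by
    rw [Real.exp_le_one_iff]
    have := ff_nonneg h i (p, x, x)
    linarith
  have h7 : |UU (Gx (mm m (s i) p) x) j 0| =
      Real.exp (-(ff m (s i) (p, x, x) / 2)) * |uu m (s i) j (p, x, x)| := by
    have h8 : UU (Gx (mm m (s i) p) x) j 0 =
        Real.exp (-(ff m (s i) (p, x, x) / 2)) * uu m (s i) j (p, x, x) := h4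
    rw [h8, abs_mul, abs_of_pos (Real.exp_pos _)]
  rw [h7]
  calc Real.exp (-(ff m (s i) (p, x, x) / 2)) * |uu m (s i) j (p, x, x)|
      ≤ 1 * |uu m (s i) j (p, x, x)| := mul_le_mul_of_nonneg_right h6 (abs_nonneg _)
    _ ≤ C * Real.exp (C * Real.log 2) := by rw [one_mul]; exact hq1
    _ ≤ |C * Real.exp (C * Real.log 2)| := le_abs_self _
    _ ≤ _ := by linarith

private theorem OM_T1_u1 (h : CF Γ D m a b s) (N : ℕ) : ∃ B : ℝ, 1 ≤ B ∧ ∀ (i : ι) (p : ℝ),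
    ‖p‖ ≤ 1 → ∀ j, 1 ≤ j → j ≤ N → ∀ x ∈ closure D, |UU (Gx (mm m (s i) p) x) j 0| ≤ B ^ j := by
  induction N with
  | zero =>
    exact ⟨1, le_rfl, fun i p _ j hj hj' => by omega⟩
  | succ N ih =>
    obtain ⟨B, hB1, hB⟩ := ih
    obtain ⟨B', hB1', hB'⟩ := OM_T1_u0 h (N + 1)
    refine ⟨max B B', hB1.trans (le_max_left _ _), fun i p hp j hj hjN x hx => ?_⟩
    rcases Nat.lt_or_ge N j with hlt | hge
    · have hj2 : j = N + 1 := by omega
      subst hj2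
      have hM : 1 ≤ max B B' := hB1.trans (le_max_left _ _)
      calc |UU (Gx (mm m (s i) p) x) (N + 1) 0| ≤ B' := hB' i p hp x hx
        _ ≤ max B B' := le_max_right _ _
        _ ≤ max B B' ^ (N + 1) := le_self_pow₀ hM (by omega)
    · exact (hB i p hp j hj hge x hx).trans
        (pow_le_pow_left₀ (by linarith) (le_max_left _ _) j)

end

theorem CF_gk {ι : Type} {m : Pl → Co} {a b : ℝ} {s : ι → ℝ × Pl → ℝ} (h : CF Γ D m a b s)
    (N : ℕ) : ∃ B : ℝ, 1 ≤ B ∧ ∀ (i : ι) (p : ℝ), ‖p‖ ≤ 1 →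
      (∀ ρ : ℝ, 0 ≤ ρ → B36.GkB (closure D) (mE (mm m (s i) p)) ρ (B * Real.exp (B * ρ)) 2
        (BE73.cN (mm m (s i) p) N)) ∧
      ∀ j, 1 ≤ j → j ≤ N → ∀ x ∈ closure D, |UU (Gx (mm m (s i) p) x) j 0| ≤ B ^ j := by
  obtain ⟨A, hA1, hA⟩ := OM_T1_Gk h 2 _ (OM_T1_cN h N)
  obtain ⟨B, hB1, hB⟩ := OM_T1_u1 h N
  refine ⟨max A B, hA1.trans (le_max_left _ _), fun i p hp => ⟨fun ρ hρ => ?_,
    fun j hj hjN x hx => ?_⟩⟩
  · exact OM_T1_gkmono (OM_T1_mono (by linarith) (le_max_left A B) hρ) 2 _ (hA i p hp ρ hρ)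
  · exact (hB i p hp j hj hjN x hx).trans
      (pow_le_pow_left₀ (by linarith) (le_max_right A B) j)

end OM21
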