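import Pool.Agent.LibOM21.T1
import Pool.Agent.LibOM21.T2
import Pool.Agent.LibBE36T.T8

/-! ROW T3 : the trace formula, uniformly in `R`, `η`. MEDIUM (models: LibBE37F/IFT.lean, LibB35/GQ1b.lean `Sg_eq`).
PLAN. `h := CF_pth`, `s = pth`, `p = √(P.c R) ≤ 1`, `mm P.m (pth ..) p = XX` (`pth_one`), `mm P.m (pth ..) 0 = P.m` (`pth_zero`). `B36.traceH` (LibBE36T/T8) with `N = 6` (TF) and `N = 7` (TF0), `H = 1`, `C` of `UC_XX`, `B1 = B`, `B * exp (B ρ)` of `CF_gk`;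
`AmpH (N+2) a ρ M 1` from `AmpN n a ρ M`, `n ≥ N + 2`; `hsm`: `B (1 + 2N) (ρ+1)²/τ ≤ 1/2` for `τ ≥ exp (C (1+ρ))`, `C` large. `B36.Qs` is the spectral side minus the identity term.
TF: the sum over `γ ≠ 1` is a finite sum over `S` (`Sg_eq`, `S_fin`: `γ ∈ S ↔ γ ≠ 1 ∧ ∃ x ∈ closure D, ds XX x (γ x) ≤ ρ`), `sum_cls` with `Q = Cs XX ρ` (`ln_le`: if `γ ∈ S` is conjugate to `gel q` then `ln XX q ≤ ρ`; `Cs_mem`). For each `q ∈ Cs XX ρ` parts C1, C2 of LibB35/IFC.lean with `N = 6`, `A = 1`, `K = 1`, `δ = 1`,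
`g = gel q`, `g0 = gpr q`, `Cls` of both metrics from `cls_q` (`P.m` and `XX`): `|∑_{γ conj} IKN - Re ZL| ≤ C (1+ρ)^C exp (C0 ρ) M/τ`, `‖ZL - wg XX q * a (ln XX q) exp (-(iτ ln))‖ ≤ ...` (`trM = trg`, `mz`, `mt`, `wg`: unfold, `wg ≤ C` from `cnt_XX`). The hypothesis
`C (1 + ρ)^C |p| ≤ 1` follows from `exp (C' (1+ρ)) √(c R) ≤ 1`, `ρ ≤ log τ` from `exp (C (1+ρ)) ≤ τ`. Add up at most `exp (C (1+ρ))` classes (`cnt_XX`).
TF0: `r0 = 1/(2C)` with the `C` of `cnt_XX`, so every `ln XX q > r0` and `S = ∅`: if `ds XX x (γ x) ≤ r0`, `γ ≠ 1`, then `γ` is conjugate to some `gel q` (`cls_uni`) and `ln XX q ≤ r0` (`ln_le`). -/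

open MeasureTheory Set Filter Topology
open scoped ContDiff unitInterval

namespace OM21

open BGS BR BE B35

variable {Γ : Type} [Group Γ] [MulAction Γ Pl] {D : Set Pl} {P : Dt}

/-- Polynomials are absorbed by exponentials. -/
private theorem OM_T3_pe {c : ℝ} (hc : 0 ≤ c) (k : ℕ) {ρ : ℝ} (hρ : 0 ≤ ρ) :
    c * (1 + ρ) ^ k ≤ Real.exp ((c + k) * (1 + ρ)) := by
  have h1 : c ≤ Real.exp (c * (1 + ρ)) := by
    have h2 := Real.add_one_le_exp c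
    have h3 : Real.exp c ≤ Real.exp (c * (1 + ρ)) := by
      refine Real.exp_le_exp.2 ?_
      nlinarith
    linarith
  have h4 : (1 + ρ) ^ k ≤ Real.exp (k * (1 + ρ)) := by
    rw [Real.exp_nat_mul]
    refine pow_le_pow_left₀ (by linarith) ?_ k
    have := Real.add_one_le_exp (1 + ρ)
    linarith
  rw [add_mul, Real.exp_add]
  exact mul_le_mul h1 h4 (by positivity) (Real.exp_pos _).le

/-- The exponential of a smaller constant. -/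
private theorem OM_T3_mono {c c' ρ : ℝ} (h : c ≤ c') (hρ : 0 ≤ ρ) :
    Real.exp (c * (1 + ρ)) ≤ Real.exp (c' * (1 + ρ)) :=
  Real.exp_le_exp.2 (mul_le_mul_of_nonneg_right h (by linarith))

private theorem OM_T3_M {n : ℕ} {a : ℝ → ℂ} {ρ M : ℝ} (h : BE73.AmpN n a ρ M) : 0 ≤ M :=
  (norm_nonneg _).trans (h.bound 0 (Nat.zero_le _) 0)

private theorem OM_T3_ampH {n N : ℕ} (hn : N ≤ n) {a : ℝ → ℂ} {ρ M : ℝ}
    (h : BE73.AmpN n a ρ M) : B36.AmpH N a ρ M 1 :=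
  ⟨h.amp.smooth, h.amp.conj, h.amp.supp, fun k hk t => by
    rw [one_pow, mul_one]
    exact h.bound k (hk.trans hn) t⟩

private theorem OM_T3_mono_n {n n' : ℕ} (hn : n ≤ n') {a : ℝ → ℂ} {ρ M : ℝ}
    (h : BE73.AmpN n' a ρ M) : BE73.AmpN n a ρ M :=
  ⟨h.amp, fun k hk t => h.bound k (hk.trans hn) t⟩

private theorem OM_T3_c1 (hP : Okc Γ D P) (R : ℕ) : ‖√(P.c R)‖ ≤ 1 := by
  rw [Real.norm_of_nonneg (Real.sqrt_nonneg _)]
  exact Real.sqrt_le_one.2 (hP.cx.cs.le_one R)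

/-- The trace formula with explicit constants. -/
private theorem OM_T3_tr (hP : Okc Γ D P) (N : ℕ) (hN : 6 ≤ N) : ∃ (B Cu : ℝ) (k0 : ℕ),
    1 ≤ B ∧ ∀ R ≥ k0, ∀ (η : Dir → I) (m' : Mt Γ D), m'.1.1 = XX P Γ D R η →
      ∀ (a : ℝ → ℂ) (ρ M τ : ℝ), 0 ≤ ρ → BE73.AmpN (N + 2) a ρ M → 1 ≤ τ →
        B * (1 + 2 * N) * (ρ + 1) ^ 2 / τ ≤ 1 / 2 →
        |B36.Qs m' a τ - Sg (Γ := Γ) D m'.1.1 N a τ| ≤
          30 * (B * Real.exp (B * ρ)) * M * 1 * (1 + 4 * N ^ 2) ^ (N - 1) *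
            (ρ + 1) ^ (2 * N + 1) * Cu ^ 2 * Real.exp (Cu * ρ) / τ ^ (N - 5) +
            2 * M * (1 + 2 * N) ^ 2 / τ ^ 2 := by
  obtain ⟨k1, a0, b0, hCF⟩ := CF_pth hP
  obtain ⟨B, hB1, hB⟩ := CF_gk hCF N
  obtain ⟨Cu, hCu⟩ := UC_XX hP
  refine ⟨B, Cu, k1, hB1, fun R hR η m' hm' a ρ M τ hρ ha hτ hsm => ?_⟩
  obtain ⟨hg, hu⟩ := hB (⟨(R, η), hR⟩ : Ixp k1) (√(P.c R)) (OM_T3_c1 hP R)
  have hgk := hg ρ hρ
  simp only at hgk hu
  rw [pth_one hP R η, ← hm'] at hgk hu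
  have key := B36.traceH hP.cx.hX hP.ori m' (hCu R η m' hm') hN hρ (by positivity)
    (by linarith) hgk hu le_rfl (OM_T3_ampH le_rfl ha) hτ hsm
  unfold B36.Qs Sg
  exact key

/-- **The trace formula.** -/
theorem TF (hP : Okc Γ D P) : ∃ (C : ℝ) (n k0 : ℕ), 1 ≤ C ∧ ∀ R ≥ k0, ∀ (η : Dir → I)
    (m' : Mt Γ D), m'.1.1 = XX P Γ D R η → ∀ (a : ℝ → ℂ) (ρ M τ : ℝ), 0 ≤ ρ →
      BE73.AmpN n a ρ M → Real.exp (C * (1 + ρ)) ≤ τ →
      Real.exp (C * (1 + ρ)) * √(P.c R) ≤ 1 →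
      |B36.Qs m' a τ - ∑ q ∈ Cs (Γ := Γ) (XX P Γ D R η) ρ, (mz (XX P Γ D R η) a τ q).re| ≤
        Real.exp (C * (1 + ρ)) * M / √τ := by
  obtain ⟨B, Cu, k1, hB1, htr⟩ := OM_T3_tr hP 6 le_rfl
  obtain ⟨Cc, k2, hCc1, hcnt⟩ := cnt_XX hP
  obtain ⟨k3, hhm⟩ := XX_hm hP
  obtain ⟨k4, a0, b0, hCF⟩ := CF_pth hP
  obtain ⟨D1, hD1, H1⟩ := B35.C1 hCF
  obtain ⟨n1, c1, H1⟩ := H1 6 1
  obtain ⟨D2, hD2, H2⟩ := B35.C2 hCF
  obtain ⟨n2, c2, H2⟩ := H2 6 1 1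
  have hc10 : (0 : ℝ) ≤ c1 := Nat.cast_nonneg _
  have hc20 : (0 : ℝ) ≤ c2 := Nat.cast_nonneg _
  have hB0 : 0 ≤ B := by linarith
  have hCc0 : 0 ≤ Cc := by linarith
  obtain ⟨K0, hK0⟩ : ∃ K0 : ℝ, K0 = (30 * B * (1 + 4 * (6 : ℕ) ^ 2) ^ 5 * Cu ^ 2 + (13 : ℕ)) + B + |Cu| :=
    ⟨_, rfl⟩
  have hK00 : 0 ≤ K0 := by
    rw [hK0]
    positivity
  obtain ⟨K1, hK1⟩ : ∃ K1 : ℝ, K1 = ((c1 : ℝ) + c1) + D1 := ⟨_, rfl⟩
  obtain ⟨K2, hK2⟩ : ∃ K2 : ℝ, K2 = ((c2 : ℝ) * Cc + c2) := ⟨_, rfl⟩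
  obtain ⟨K3, hK3⟩ : ∃ K3 : ℝ, K3 = ((c2 : ℝ) + c2) + D2 := ⟨_, rfl⟩
  have hK10 : 0 ≤ K1 := by rw [hK1]; positivity
  have hK20 : 0 ≤ K2 := by rw [hK2]; positivity
  have hK30 : 0 ≤ K3 := by rw [hK3]; positivity
  obtain ⟨K, hK⟩ : ∃ K : ℝ, K = K0 + 338 + Cc + K1 + K2 + K3 := ⟨_, rfl⟩
  obtain ⟨C, hC⟩ : ∃ C : ℝ, C = K + 5 + (26 * B + (2 : ℕ)) + ((c1 : ℝ) + c1) + ((c2 : ℝ) + c2) :=
    ⟨_, rfl⟩
  have hCK : K + 5 ≤ C := by
    rw [hC]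
    push_cast
    linarith
  refine ⟨C, max 8 (max n1 n2), max (max k1 k4) (max k2 k3), by linarith,
    fun R hR η m' hm' a ρ M τ hρ ha hτ hc => ?_⟩
  have hR1 : k1 ≤ R := ((le_max_left _ _).trans (le_max_left _ _)).trans hR
  have hR4 : k4 ≤ R := ((le_max_right _ _).trans (le_max_left _ _)).trans hR
  have hR2 : k2 ≤ R := ((le_max_left _ _).trans (le_max_right _ _)).trans hR
  have hR3 : k3 ≤ R := ((le_max_right _ _).trans (le_max_right _ _)).trans hR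
  have hX := hP.cx.hX
  have hO := hP.ori
  have hM0 := OM_T3_M ha
  have hmm : HM Γ (XX P Γ D R η) := (hhm R hR3 η).1
  have hCsub : ∀ c : ℝ, 0 ≤ c → c ≤ C → Real.exp (c * (1 + ρ)) ≤ τ := fun c _ h =>
    (OM_T3_mono h hρ).trans hτ
  have hτ1 : 1 ≤ τ := by
    have := hCsub 0 le_rfl (by linarith)
    rwa [zero_mul, Real.exp_zero] at this
  have hτ0 : 0 < τ := by linarith
  have hs1 : 1 ≤ √τ := Real.one_le_sqrt.2 hτ1
  have hs0 : 0 < √τ := by linarith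
  have hsτ : √τ ≤ τ := by
    nlinarith [Real.mul_self_sqrt hτ0.le]
  have hlog : ρ ≤ 1 * Real.log τ := by
    rw [one_mul, Real.le_log_iff_exp_le hτ0]
    refine le_trans (Real.exp_le_exp.2 ?_) (hCsub 1 zero_le_one (by linarith))
    linarith
  have hcp : ∀ c : ℕ, (c : ℝ) + c ≤ C → (c : ℝ) * (1 + ρ) ^ c * |√(P.c R)| ≤ 1 := by
    intro c hcC
    rw [abs_of_nonneg (Real.sqrt_nonneg _)]
    refine le_trans (mul_le_mul_of_nonneg_right ?_ (Real.sqrt_nonneg _)) hc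
    exact (OM_T3_pe (Nat.cast_nonneg c) c hρ).trans (OM_T3_mono hcC hρ)
  have hp1 : |√(P.c R)| ≤ 1 := by
    have := OM_T3_c1 hP R
    rwa [Real.norm_eq_abs] at this
  -- the error terms, divided by `M / √τ`
  have hMs : 0 ≤ M / √τ := by positivity
  have hMτ : M / τ ≤ M / √τ := div_le_div_of_nonneg_left hM0 hs0 hsτ
  have hMτ2 : M / τ ^ 2 ≤ M / √τ := by
    refine div_le_div_of_nonneg_left hM0 hs0 (hsτ.trans ?_)
    nlinarith
  have ha8 : BE73.AmpN 8 a ρ M := OM_T3_mono_n (le_max_left _ _) ha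
  have ha1 : BE73.AmpN n1 a ρ M :=
    OM_T3_mono_n ((le_max_left _ _).trans (le_max_right _ _)) ha
  have ha2 : BE73.AmpN n2 a ρ M :=
    OM_T3_mono_n ((le_max_right _ _).trans (le_max_right _ _)) ha
  have hsm : B * (1 + 2 * (6 : ℕ)) * (ρ + 1) ^ 2 / τ ≤ 1 / 2 := by
    rw [div_le_iff₀ hτ0]
    have h1 := OM_T3_pe (c := 26 * B) (by positivity) 2 hρ
    have h2 := h1.trans (hCsub (26 * B + (2 : ℕ)) (by positivity) (by
      rw [hC]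
      push_cast
      linarith))
    push_cast at h2 ⊢
    nlinarith
  have h0 := htr R hR1 η m' hm' a ρ M τ hρ ha8 hτ1 hsm
  have h0' : |B36.Qs m' a τ - Sg (Γ := Γ) D m'.1.1 6 a τ| ≤
      (Real.exp (K0 * (1 + ρ)) + Real.exp (338 * (1 + ρ))) * (M / √τ) := by
    refine h0.trans ?_
    rw [add_mul]
    refine add_le_add ?_ ?_
    · have h1 := OM_T3_pe (c := 30 * B * (1 + 4 * (6 : ℕ) ^ 2) ^ 5 * Cu ^ 2) (by positivity) 13 hρ
      have h2 : Real.exp (B * ρ) ≤ Real.exp (B * (1 + ρ)) := Real.exp_le_exp.2 (by nlinarith)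
      have h3 : Real.exp (Cu * ρ) ≤ Real.exp (|Cu| * (1 + ρ)) := by
        refine Real.exp_le_exp.2 ?_
        have h4 := le_abs_self Cu
        have h5 := abs_nonneg Cu
        nlinarith
      have h6 : 30 * (B * Real.exp (B * ρ)) * M * 1 * (1 + 4 * (6 : ℕ) ^ 2) ^ (6 - 1) *
          (ρ + 1) ^ (2 * 6 + 1) * Cu ^ 2 * Real.exp (Cu * ρ) / τ ^ (6 - 5) =
          (30 * B * (1 + 4 * (6 : ℕ) ^ 2) ^ 5 * Cu ^ 2 * (1 + ρ) ^ 13) * Real.exp (B * ρ) *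
            Real.exp (Cu * ρ) * (M / τ) := by
        rw [add_comm ρ 1]
        norm_num
        ring
      rw [h6]
      have h7 : Real.exp (K0 * (1 + ρ)) =
          Real.exp ((30 * B * (1 + 4 * (6 : ℕ) ^ 2) ^ 5 * Cu ^ 2 + (13 : ℕ)) * (1 + ρ)) *
            Real.exp (B * (1 + ρ)) * Real.exp (|Cu| * (1 + ρ)) := by
        rw [hK0, add_mul, add_mul, Real.exp_add, Real.exp_add]
      rw [h7]
      refine mul_le_mul (mul_le_mul (mul_le_mul h1 h2 (Real.exp_pos _).le (Real.exp_pos _).le) h3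
        (Real.exp_pos _).le (by positivity)) hMτ (by positivity) (by positivity)
    · have h1 := OM_T3_pe (c := 338) (by norm_num) 0 hρ
      rw [pow_zero, mul_one, Nat.cast_zero, add_zero] at h1
      have h2 : 2 * M * (1 + 2 * (6 : ℕ)) ^ 2 / τ ^ 2 = 338 * (M / τ ^ 2) := by
        norm_num
        ring
      rw [h2]
      exact mul_le_mul h1 hMτ2 (by positivity) (Real.exp_pos _).le
  -- the sum over the classes
  obtain ⟨S, hS1, hS⟩ := S_fin hX hO hmm hρ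
  have hSm : ∀ γ : Γ, γ ≠ 1 → (∃ x ∈ closure D, BR.ds m'.1.1 x (γ • x) ≤ ρ) → γ ∈ S := by
    intro γ hγ hx
    rw [hm'] at hx
    exact (hS γ).2 ⟨hγ, hx⟩
  have e1 := Sg_eq hX hO m' 6 hρ ha.amp τ hS1 hSm
  have e2 := sum_cls hX hO hmm hS1 (Q := Cs (Γ := Γ) (XX P Γ D R η) ρ) (fun q hq => by
    obtain ⟨γ, hγ, hc⟩ := hq
    obtain ⟨-, x, -, hd⟩ := (hS γ).1 hγ
    exact (Cs_mem hX hO hmm).2 ((ln_le hX hO hmm hc x).trans hd))
    (fun γ => B35.IKN D m'.1.1 6 (osc a τ) γ)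
  have hz : mm P.m (pth P Γ D (R, η)) 0 = P.m := pth_zero hP (R, η)
  have ho : mm P.m (pth P Γ D (R, η)) (√(P.c R)) = XX P Γ D R η := pth_one hP R η
  have hq : ∀ q ∈ Cs (Γ := Γ) (XX P Γ D R η) ρ,
      |(open Classical in ∑ γ ∈ S with IsConj (gel q) γ, B35.IKN D m'.1.1 6 (osc a τ) γ) -
        (mz (XX P Γ D R η) a τ q).re| ≤
      (Real.exp (K1 * (1 + ρ)) + Real.exp (K2 * (1 + ρ)) + Real.exp (K3 * (1 + ρ))) *
        (M / √τ) := by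
    intro q _
    obtain ⟨hq1, hq2, hq3, hq4, hq5, hq6⟩ := cls_q hX hO hmm q
    have hq0 := (cls_q hX hO hP.hm q).1
    have h1 := H1 (⟨(R, η), hR4⟩ : Ixp k4) (√(P.c R)) hp1 (gel q) (gpr q) (ax P.m (gpr q)).1
      (ax P.m (gpr q)).2 (ln P.m q) (lp P.m q.1) (by
        show Cls (mm P.m (pth P Γ D (R, η)) 0) _ _ _ _ _ _
        rw [hz]
        exact hq0) a ρ M τ 1 hρ ha1 hτ1 one_pos le_rfl (hcp c1 (by
          rw [hC]
          have : 0 ≤ K := by rw [hK]; positivity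
          push_cast
          linarith)) S (by
          show ∀ γ : Γ, γ ≠ 1 → (∃ x ∈ closure D,
            BR.ds (mm P.m (pth P Γ D (R, η)) (√(P.c R))) x (γ • x) ≤ ρ) → γ ∈ S
          rw [ho, ← hm']
          exact hSm)
    have h2 := H2 (⟨(R, η), hR4⟩ : Ixp k4) (√(P.c R)) hp1 (gel q) (gpr q) (ax P.m (gpr q)).1
      (ax P.m (gpr q)).2 (ax (XX P Γ D R η) (gpr q)).1 (ax (XX P Γ D R η) (gpr q)).2 (ln P.m q)
      (lp P.m q.1) (ln (XX P Γ D R η) q) (lp (XX P Γ D R η) q.1) (by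
        show Cls (mm P.m (pth P Γ D (R, η)) 0) _ _ _ _ _ _
        rw [hz]
        exact hq0) (by
        show Cls (mm P.m (pth P Γ D (R, η)) (√(P.c R))) _ _ _ _ _ _
        rw [ho]
        exact hq1) a ρ M τ 1 hρ ha2 hτ1 hlog one_pos le_rfl (hcp c2 (by
          rw [hC]
          have : 0 ≤ K := by rw [hK]; positivity
          push_cast
          linarith))
    simp only at h1 h2
    rw [hz, ho] at h1
    rw [hz, ho, hq2] at h2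
    have e3 : mz (XX P Γ D R η) a τ q =
        ((lp (XX P Γ D R η) q.1 / √(GD.trg (XX P Γ D R η) (gel q) - 2) : ℝ) : ℂ) *
          (a (ln (XX P Γ D R η) q) *
            Complex.exp (-(Complex.I * τ * ln (XX P Γ D R η) q))) := by
      unfold mz B35.mt wg
      rw [mul_assoc]
    rw [← e3] at h2
    have hw := ((hcnt R hR2 η).1 q).2
    have hw' : wg (XX P Γ D R η) q =
        lp (XX P Γ D R η) q.1 / √(GD.trg (XX P Γ D R η) (gel q) - 2) := rfl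
    rw [← hw'] at h2
    rw [div_one, pow_one] at h1
    rw [div_one, pow_one] at h2
    obtain ⟨Z, hZ⟩ : ∃ Z : ℂ, Z = B35.ZL P.m (XX P Γ D R η) 1 6 a τ (gel q) (ax P.m (gpr q)).1
      (ax P.m (gpr q)).2 (lp P.m q.1) := ⟨_, rfl⟩
    rw [← hZ] at h1 h2
    rw [hm']
    have h3 : |Z.re - (mz (XX P Γ D R η) a τ q).re| ≤ ‖Z - mz (XX P Γ D R η) a τ q‖ := by
      rw [← Complex.sub_re]
      exact Complex.abs_re_le_norm _
    refine (abs_sub_le _ Z.re _).trans ?_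
    have h5 : (c1 : ℝ) * (1 + ρ) ^ c1 * Real.exp (D1 * ρ) * M / τ ≤
        Real.exp (K1 * (1 + ρ)) * (M / √τ) := by
      rw [mul_div_assoc, hK1, add_mul, Real.exp_add]
      refine mul_le_mul (mul_le_mul (OM_T3_pe hc10 c1 hρ) (Real.exp_le_exp.2 (by nlinarith))
        (Real.exp_pos _).le (Real.exp_pos _).le) hMτ (by positivity) (by positivity)
    have h6 : (c2 : ℝ) * (1 + ρ) ^ c2 * Real.exp (D2 * ρ) * M / τ ≤
        Real.exp (K3 * (1 + ρ)) * (M / √τ) := by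
      rw [mul_div_assoc, hK3, add_mul, Real.exp_add]
      refine mul_le_mul (mul_le_mul (OM_T3_pe hc20 c2 hρ) (Real.exp_le_exp.2 (by nlinarith))
        (Real.exp_pos _).le (Real.exp_pos _).le) hMτ (by positivity) (by positivity)
    have h7 : (c2 : ℝ) * (1 + ρ) ^ c2 * (M / √τ) * wg (XX P Γ D R η) q ≤
        Real.exp (K2 * (1 + ρ)) * (M / √τ) := by
      have h8 : (c2 : ℝ) * (1 + ρ) ^ c2 * (M / √τ) * wg (XX P Γ D R η) q ≤
          (c2 : ℝ) * (1 + ρ) ^ c2 * (M / √τ) * Cc :=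
        mul_le_mul_of_nonneg_left hw.2 (by positivity)
      refine h8.trans ?_
      have h9 := OM_T3_pe (c := c2 * Cc) (by positivity) c2 hρ
      rw [← hK2] at h9
      calc (c2 : ℝ) * (1 + ρ) ^ c2 * (M / √τ) * Cc = c2 * Cc * (1 + ρ) ^ c2 * (M / √τ) := by
            ring
        _ ≤ _ := mul_le_mul_of_nonneg_right h9 hMs
    rw [add_mul, add_mul]
    have h8 := h3.trans h2
    linarith
  have h9 : |Sg (Γ := Γ) D m'.1.1 6 a τ -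
      ∑ q ∈ Cs (Γ := Γ) (XX P Γ D R η) ρ, (mz (XX P Γ D R η) a τ q).re| ≤
      Real.exp (Cc * (1 + ρ)) * ((Real.exp (K1 * (1 + ρ)) + Real.exp (K2 * (1 + ρ)) +
        Real.exp (K3 * (1 + ρ))) * (M / √τ)) := by
    rw [e1, e2, ← Finset.sum_sub_distrib]
    refine (Finset.abs_sum_le_sum_abs _ _).trans ((Finset.sum_le_card_nsmul _ _ _ hq).trans ?_)
    rw [nsmul_eq_mul]
    exact mul_le_mul_of_nonneg_right ((hcnt R hR2 η).2 ρ hρ).2 (by positivity)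
  have h10 := abs_sub_le (B36.Qs m' a τ) (Sg (Γ := Γ) D m'.1.1 6 a τ)
    (∑ q ∈ Cs (Γ := Γ) (XX P Γ D R η) ρ, (mz (XX P Γ D R η) a τ q).re)
  refine h10.trans ((add_le_add h0' h9).trans ?_)
  have hE : ∀ c : ℝ, c ≤ K → Real.exp (c * (1 + ρ)) ≤ Real.exp (K * (1 + ρ)) := fun c h =>
    OM_T3_mono h hρ
  have g0 := hE K0 (by rw [hK]; linarith)
  have g1 := hE 338 (by rw [hK]; linarith)
  have gg : ∀ c : ℝ, Cc + c ≤ K →
      Real.exp (Cc * (1 + ρ)) * Real.exp (c * (1 + ρ)) ≤ Real.exp (K * (1 + ρ)) := fun c h => by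
    rw [← Real.exp_add, ← add_mul]
    exact hE _ h
  have g2 := gg K1 (by rw [hK]; linarith)
  have g3 := gg K2 (by rw [hK]; linarith)
  have g4 := gg K3 (by rw [hK]; linarith)
  have g5 : 5 * Real.exp (K * (1 + ρ)) ≤ Real.exp (C * (1 + ρ)) := by
    refine le_trans ?_ (OM_T3_mono hCK hρ)
    rw [add_mul, Real.exp_add, mul_comm]
    refine mul_le_mul_of_nonneg_left ?_ (Real.exp_pos _).le
    have := Real.add_one_le_exp (5 * (1 + ρ))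
    linarith
  calc (Real.exp (K0 * (1 + ρ)) + Real.exp (338 * (1 + ρ))) * (M / √τ) +
        Real.exp (Cc * (1 + ρ)) * ((Real.exp (K1 * (1 + ρ)) + Real.exp (K2 * (1 + ρ)) +
          Real.exp (K3 * (1 + ρ))) * (M / √τ))
      = (Real.exp (K0 * (1 + ρ)) + Real.exp (338 * (1 + ρ)) +
          Real.exp (Cc * (1 + ρ)) * Real.exp (K1 * (1 + ρ)) +
          Real.exp (Cc * (1 + ρ)) * Real.exp (K2 * (1 + ρ)) +
          Real.exp (Cc * (1 + ρ)) * Real.exp (K3 * (1 + ρ))) * (M / √τ) := by ring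
    _ ≤ (5 * Real.exp (K * (1 + ρ))) * (M / √τ) :=
        mul_le_mul_of_nonneg_right (by linarith) hMs
    _ ≤ Real.exp (C * (1 + ρ)) * (M / √τ) := mul_le_mul_of_nonneg_right g5 hMs
    _ = Real.exp (C * (1 + ρ)) * M / √τ := by rw [mul_div_assoc]

/-- Amplitudes supported below the shortest length. -/
theorem TF0 (hP : Okc Γ D P) : ∃ (r0 C : ℝ) (n k0 : ℕ), 0 < r0 ∧ 1 ≤ C ∧ ∀ R ≥ k0,
    ∀ (η : Dir → I) (m' : Mt Γ D), m'.1.1 = XX P Γ D R η →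
      (∀ q : Cg Γ, r0 < ln (XX P Γ D R η) q) ∧
      ∀ (a : ℝ → ℂ) (M τ : ℝ), BE73.AmpN n a r0 M → C ≤ τ →
        |B36.Qs m' a τ| ≤ C * M / τ ^ 2 := by
  obtain ⟨B, Cu, k1, hB1, htr⟩ := OM_T3_tr hP 7 (by norm_num)
  obtain ⟨Cc, k2, hCc1, hcnt⟩ := cnt_XX hP
  obtain ⟨k3, hhm⟩ := XX_hm hP
  have hCc0 : 0 < Cc := by linarith
  have hr0 : 0 < 1 / (2 * Cc) := by positivity
  obtain ⟨r0, hr⟩ : ∃ r0, r0 = 1 / (2 * Cc) := ⟨_, rfl⟩
  rw [← hr] at hr0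
  have hrC : r0 < Cc⁻¹ := by
    rw [hr, one_div, mul_inv]
    have : 0 < Cc⁻¹ := by positivity
    linarith
  obtain ⟨E, hE⟩ : ∃ E : ℝ, E = 30 * (B * Real.exp (B * r0)) * 1 * (1 + 4 * (7 : ℕ) ^ 2) ^ (7 - 1) *
      (r0 + 1) ^ (2 * 7 + 1) * Cu ^ 2 * Real.exp (Cu * r0) + 2 * (1 + 2 * (7 : ℕ)) ^ 2 := ⟨_, rfl⟩
  have hE0 : 0 ≤ E := by
    rw [hE]
    positivity
  obtain ⟨W, hW⟩ : ∃ W : ℝ, W = B * (1 + 2 * ((7 : ℕ) : ℝ)) * (r0 + 1) ^ 2 := ⟨_, rfl⟩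
  have hB0 : 0 ≤ W := by
    rw [hW]
    positivity
  obtain ⟨C, hC⟩ : ∃ C : ℝ, C = E + 2 * W + 1 := ⟨_, rfl⟩
  refine ⟨r0, C, 9, max k1 (max k2 k3), hr0, by linarith, fun R hR η m' hm' => ?_⟩
  have hR1 : k1 ≤ R := (le_max_left _ _).trans hR
  have hR2 : k2 ≤ R := ((le_max_left _ _).trans (le_max_right _ _)).trans hR
  have hR3 : k3 ≤ R := ((le_max_right _ _).trans (le_max_right _ _)).trans hR
  have hln : ∀ q : Cg Γ, r0 < ln (XX P Γ D R η) q := fun q =>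
    hrC.trans_le ((hcnt R hR2 η).1 q).1
  refine ⟨hln, fun a M τ ha hτ => ?_⟩
  have hX := hP.cx.hX
  have hM0 := OM_T3_M ha
  have hmm : HM Γ (XX P Γ D R η) := (hhm R hR3 η).1
  have hτ1 : 1 ≤ τ := by linarith
  have hτ0 : 0 < τ := by linarith
  have h1 := htr R hR1 η m' hm' a r0 M τ hr0.le ha hτ1 (by
    rw [div_le_iff₀ hτ0, ← hW]
    linarith)
  have h2 : Sg (Γ := Γ) D m'.1.1 7 a τ = 0 := by
    rw [Sg_eq hX hP.ori m' 7 hr0.le ha.amp τ (S := ∅) (by simp) ?_]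
    · simp
    · intro γ hγ hx
      exfalso
      obtain ⟨x, hx, hd⟩ := hx
      obtain ⟨q, hq, -⟩ := cls_uni hX hP.ori hmm hγ
      rw [hm'] at hd
      have h3 := ln_le hX hP.ori hmm hq x
      have h4 := hln q
      linarith
  rw [h2, sub_zero] at h1
  refine h1.trans ?_
  have h5 : 30 * (B * Real.exp (B * r0)) * M * 1 * (1 + 4 * (7 : ℕ) ^ 2) ^ (7 - 1) *
      (r0 + 1) ^ (2 * 7 + 1) * Cu ^ 2 * Real.exp (Cu * r0) / τ ^ (7 - 5) +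
      2 * M * (1 + 2 * (7 : ℕ)) ^ 2 / τ ^ 2 = E * M / τ ^ 2 := by
    rw [hE]
    norm_num
    ring
  rw [h5]
  refine div_le_div_of_nonneg_right ?_ (by positivity)
  refine mul_le_mul_of_nonneg_right ?_ hM0
  linarith

end OM21
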