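import Pool.Agent.LibOM21.Defs
import Pool.Agent.LibSR85Z.Z1
import Pool.Agent.LibGWa.V2
import Pool.Agent.LibGD33.Asm2

/-! ROW W1 : exponential lower bound for the sum of the weights, one metric. MEDIUM. Add the imports Pool.Agent.LibSR85Z.Z1, Pool.Agent.LibGWa.V2, Pool.Agent.LibGD33.Asm2 (or LibB35.GL3) in your file.
PLAN. `G = GH.geo (BGM.tl m.1.1) (GD.trg m.1.1)`: `GWin.Ok G κ` (`GH.ok_geo (GD.grpData ..)`, see `one_metric2` in LibSW35/Asm.lean or LibB35/GL3.lean `DD_lim` which sets up exactly `G`, `hS : GWin.SumRule G` from `SR85Z.sumrule hX hO m`), `GWin.Psi_tendsto`: `Psi G t / t → 1/2`,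
`Psi G t = ∑ p ∈ ball G t, len p / tw p 1`. For `p` with `t/2 < len p ≤ t`: `√(tw p 1) ≥ 2 sinh (κ len/2) ≥ 2 sinh (κ t/4)` (`Ok.lb`), so `len p/√(tw p 1) ≥ 2 sinh (κ t/4) len p/tw p 1`, and
`∑_{len ≤ t} (len/√tw)/len ≥ (1/t) 2 sinh (κ t/4) (Psi G t - Psi G (t/2)) ≥ (1/t) exp (κ t/8) ≥ exp (κ t/16)` for large `t`. The sum over `q ∈ Cs m t` with `q.2.1 = 0`: contains the `(p, 0, true)` with `len p ≤ t` injectively; all terms are `≥ 0`;
`ln m (p, 0, o) = lp m p = tl m (rep p)`, `wg m (p, 0, true) = lp / √(trg m (gel q) - 2)`, `gel (p, 0, true) = rep p ^ 1` (`ln`, `lp`, `wg`, `gel`, `gpr`: LibB35/Defs; `Cs_mem` in GQ1b). -/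

open MeasureTheory Set Filter Topology
open scoped ContDiff unitInterval

namespace OM21

open BGS BR BE B35

variable {Γ : Type} [Group Γ] [MulAction Γ Pl] {D : Set Pl} {P : Dt}

private theorem OM_W1_sinh {x : ℝ} (hx : 16 ≤ x) : 4 * Real.exp (x / 2) ≤ Real.sinh x := by
  rw [Real.sinh_eq]
  have h1 : Real.exp x = Real.exp (x / 2) * Real.exp (x / 2) := by
    rw [← Real.exp_add]
    congr 1
    ring
  have h2 : 9 ≤ Real.exp (x / 2) := by
    have := Real.add_one_le_exp (x / 2)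
    linarith
  have h3 : Real.exp (-x) ≤ 1 := by
    rw [Real.exp_le_one_iff]
    linarith
  rw [h1]
  nlinarith

open Classical in
private theorem OM_W1_abs {G : GWin.Geo} {κ : ℝ} (h : GWin.Ok G κ) (hS : GWin.SumRule G) :
    ∀ᶠ t : ℝ in atTop, Real.exp (κ / 8 * t) ≤ ∑ p ∈ GWin.ball G t, 1 / √(G.tw p 1) := by
  have hk := h.kpos
  have h1 := GWin.Psi_tendsto h hS
  have h2 : Tendsto (fun t : ℝ => GWin.Psi G (t / 2) / (t / 2)) atTop (𝓝 (1 / 2)) :=
    h1.comp (tendsto_id.atTop_div_const (by norm_num : (0 : ℝ) < 2))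
  have e1 := h1.eventually (lt_mem_nhds (show (7 / 16 : ℝ) < 1 / 2 by norm_num))
  have e2 := h2.eventually (gt_mem_nhds (show (1 / 2 : ℝ) < 5 / 8 by norm_num))
  filter_upwards [e1, e2, eventually_ge_atTop (64 / κ), eventually_gt_atTop 0] with t h3 h4 h5 h6
  rw [lt_div_iff₀ h6] at h3
  rw [div_lt_iff₀ (by linarith)] at h4
  have h7 : t / 8 ≤ GWin.Psi G t - GWin.Psi G (t / 2) := by linarith
  have h8 : 16 ≤ κ / 4 * t := by
    rw [div_le_iff₀ hk] at h5
    linarith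
  have h9 := OM_W1_sinh h8
  have hs0 : 0 < Real.sinh (κ / 4 * t) := by
    have := Real.exp_pos (κ / 4 * t / 2)
    linarith
  have hsub : GWin.ball G (t / 2) ⊆ GWin.ball G t := GWin.ball_mono h (by linarith)
  have h10 : GWin.Psi G t - GWin.Psi G (t / 2) =
      ∑ p ∈ GWin.ball G t \ GWin.ball G (t / 2), GWin.w G p := by
    unfold GWin.Psi
    rw [← Finset.sum_sdiff hsub]
    ring
  have h11 : ∀ p ∈ GWin.ball G t \ GWin.ball G (t / 2),
      2 * Real.sinh (κ / 4 * t) / t * GWin.w G p ≤ 1 / √(G.tw p 1) := by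
    intro p hp
    rw [Finset.mem_sdiff, GWin.mem_ball h, GWin.mem_ball h, not_le] at hp
    obtain ⟨hp1, hp2⟩ := hp
    have hl := h.pos p
    have ht := GWin.tw1_pos h p
    have hsq : 0 < √(G.tw p 1) := Real.sqrt_pos.2 ht
    have hsinh : Real.sinh (κ / 4 * t) ≤ Real.sinh (κ * G.len p / 2) := by
      rw [Real.sinh_le_sinh]
      nlinarith
    have h12 : 2 * Real.sinh (κ / 4 * t) ≤ √(G.tw p 1) := by
      apply Real.le_sqrt_of_sq_le
      have h13 := h.lb p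
      nlinarith
    unfold GWin.w
    have h14 : G.tw p 1 = √(G.tw p 1) * √(G.tw p 1) := (Real.mul_self_sqrt ht.le).symm
    calc 2 * Real.sinh (κ / 4 * t) / t * (G.len p / G.tw p 1)
        = (2 * Real.sinh (κ / 4 * t)) * (G.len p / t) / G.tw p 1 := by ring
      _ ≤ √(G.tw p 1) * 1 / G.tw p 1 := by
          have h15 : G.len p / t ≤ 1 := by
            rw [div_le_one h6]
            exact hp1
          have h16 : 0 ≤ G.len p / t := by positivity
          gcongr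
      _ = 1 / √(G.tw p 1) := by
          rw [mul_one]
          conv_lhs => rw [h14]
          field_simp
          rw [Real.sq_sqrt ht.le]
  calc Real.exp (κ / 8 * t) = Real.exp (κ / 4 * t / 2) := by
        congr 1
        ring
    _ ≤ Real.sinh (κ / 4 * t) / 4 := by linarith
    _ = 2 * Real.sinh (κ / 4 * t) / t * (t / 8) := by
        field_simp
        ring
    _ ≤ 2 * Real.sinh (κ / 4 * t) / t * (GWin.Psi G t - GWin.Psi G (t / 2)) := by
        gcongr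
    _ = ∑ p ∈ GWin.ball G t \ GWin.ball G (t / 2),
        2 * Real.sinh (κ / 4 * t) / t * GWin.w G p := by
        rw [h10, Finset.mul_sum]
    _ ≤ ∑ p ∈ GWin.ball G t \ GWin.ball G (t / 2), 1 / √(G.tw p 1) := Finset.sum_le_sum h11
    _ ≤ ∑ p ∈ GWin.ball G t, 1 / √(G.tw p 1) :=
        Finset.sum_le_sum_of_subset_of_nonneg Finset.sdiff_subset fun p _ _ => by positivity

theorem base_low (hX : Surface Γ D) (hO : Ori Γ) (m : Mt Γ D) : ∃ c : ℝ, 0 < c ∧
    ∀ᶠ t : ℝ in atTop, Real.exp (c * t) ≤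
      ∑ q ∈ Cs (Γ := Γ) m.1.1 t with q.2.1 = 0, wg m.1.1 q / ln m.1.1 q := by
  classical
  obtain ⟨μ, hμ⟩ : ∃ μ : Pl → Co, μ = m.1.1 := ⟨_, rfl⟩
  have hm : HM Γ μ := hμ ▸ hm_of_Mt m
  have hSR : GWin.SumRule (GH.geo (BGM.tl μ) (GD.trg μ) (Γ := Γ)) := hμ ▸ SR85Z.sumrule hX hO m
  rw [← hμ]
  obtain ⟨a', b', ha', -, hk⟩ := curv_bounds hX hm
  have h := GH.ok_geo (GD.grpData hX hO hm ha' fun z => (hk z).2)
  refine ⟨a' / 8, div_pos h.kpos (by norm_num), ?_⟩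
  filter_upwards [OM_W1_abs h hSR] with t ht
  have hlp : ∀ p : GH.PG Γ, 0 < BGM.tl μ (GH.rep p) := fun p => h.pos p
  obtain ⟨B, hB1, hB2⟩ : ∃ B : Finset (GH.PG Γ), (∀ p ∈ B, BGM.tl μ (GH.rep p) ≤ t) ∧
      Real.exp (a' / 8 * t) ≤ ∑ p ∈ B, 1 / √(GD.trg μ (GH.rep p ^ 1) - 2) :=
    ⟨GWin.ball (GH.geo (BGM.tl μ) (GD.trg μ) (Γ := Γ)) t, fun p hp => (GWin.mem_ball h).1 hp, ht⟩
  refine hB2.trans ?_
  have hinj : Function.Injective (fun p : GH.PG Γ => ((p, 0, true) : Cg Γ)) := by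
    intro p p' hpp
    exact congrArg Prod.fst hpp
  have hln : ∀ p : GH.PG Γ, ln μ ((p, 0, true) : Cg Γ) = BGM.tl μ (GH.rep p) := by
    intro p
    unfold ln B35.lp
    push_cast
    ring
  have hval : ∀ p : GH.PG Γ, wg μ ((p, 0, true) : Cg Γ) / ln μ ((p, 0, true) : Cg Γ) =
      1 / √(GD.trg μ (GH.rep p ^ 1) - 2) := by
    intro p
    have h1 := hlp p
    rw [hln]
    unfold wg B35.lp gel gpr
    rw [if_pos rfl]
    show BGM.tl μ (GH.rep p) / √(GD.trg μ (GH.rep p ^ (0 + 1)) - 2) / BGM.tl μ (GH.rep p) = _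
    rw [div_div, mul_comm, ← div_div, div_self h1.ne']
  have hnn : ∀ q : Cg Γ, 0 ≤ wg μ q / ln μ q := by
    rintro ⟨p, n, o⟩
    have h1 : 0 < B35.lp μ p := hlp p
    unfold wg ln
    positivity
  calc ∑ p ∈ B, 1 / √(GD.trg μ (GH.rep p ^ 1) - 2)
      = ∑ p ∈ B, wg μ ((p, 0, true) : Cg Γ) / ln μ ((p, 0, true) : Cg Γ) :=
        Finset.sum_congr rfl fun p _ => (hval p).symm
    _ = ∑ q ∈ B.image (fun p : GH.PG Γ => ((p, 0, true) : Cg Γ)), wg μ q / ln μ q := by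
        rw [Finset.sum_image]
        intro x _ y _ hxy
        exact hinj hxy
    _ ≤ ∑ q ∈ Cs (Γ := Γ) μ t with q.2.1 = 0, wg μ q / ln μ q := by
        refine Finset.sum_le_sum_of_subset_of_nonneg ?_ fun q _ _ => hnn q
        intro q hq
        rw [Finset.mem_image] at hq
        obtain ⟨p, hp, rfl⟩ := hq
        rw [Finset.mem_filter, Cs_mem hX hO hm, hln]
        exact ⟨hB1 p hp, rfl⟩

end OM21
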